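import Mathlib
import Pool.Agent.H49.Ent

/-!
# Additional tools for entropies on finite probability spaces
-/

set_option autoImplicit false

namespace Pool.Agent.H32.Dense

open Finset Real
open Pool.Agent.H49.Ent

variable {Ω : Type*} [Fintype Ω] {S T U V W : Type*}

/-- Expectation. -/
noncomputable def Ex (p : Ω → ℝ) (f : Ω → ℝ) : ℝ := ∑ ω, p ω * f ω

lemma Ex_add (p : Ω → ℝ) (f g : Ω → ℝ) : Ex p (fun ω => f ω + g ω) = Ex p f + Ex p g := by
  unfold Ex
  rw [← Finset.sum_add_distrib]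
  exact Finset.sum_congr rfl fun ω _ => by ring

lemma Ex_sub (p : Ω → ℝ) (f g : Ω → ℝ) : Ex p (fun ω => f ω - g ω) = Ex p f - Ex p g := by
  unfold Ex
  rw [← Finset.sum_sub_distrib]
  exact Finset.sum_congr rfl fun ω _ => by ring

lemma Ex_smul (p : Ω → ℝ) (c : ℝ) (f : Ω → ℝ) : Ex p (fun ω => c * f ω) = c * Ex p f := by
  unfold Ex
  rw [Finset.mul_sum]
  exact Finset.sum_congr rfl fun ω _ => by ring

lemma Ex_const {p : Ω → ℝ} (h1 : ∑ ω, p ω = 1) (c : ℝ) : Ex p (fun _ => c) = c := by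
  unfold Ex
  rw [← Finset.sum_mul, h1, one_mul]

lemma Ex_mono {p : Ω → ℝ} (hp : ∀ ω, 0 ≤ p ω) {f g : Ω → ℝ} (h : ∀ ω, 0 < p ω → f ω ≤ g ω) :
    Ex p f ≤ Ex p g := by
  unfold Ex
  refine Finset.sum_le_sum fun ω _ => ?_
  rcases (hp ω).eq_or_lt with h0 | h0
  · rw [← h0, zero_mul, zero_mul]
  · exact mul_le_mul_of_nonneg_left (h ω h0) h0.le

lemma Ex_nonneg {p : Ω → ℝ} (hp : ∀ ω, 0 ≤ p ω) {f : Ω → ℝ} (h : ∀ ω, 0 < p ω → 0 ≤ f ω) :
    0 ≤ Ex p f := by
  have := Ex_mono hp (f := fun _ => 0) (g := f) h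
  simpa [Ex] using this

/-! ### Calculus of conditional entropies -/

theorem CH_mono_cond {p : Ω → ℝ} (hp : ∀ ω, 0 ≤ p ω) {X : Ω → S} {W' : Ω → T} {W : Ω → U}
    (h : Det p W' W) : CH p X W' ≤ CH p X W := by
  have := submod hp (X := fun ω => (X ω, W ω)) (Y := W') (Z := W) (W := fun ω => (X ω, W' ω))
    (fun ω ω' _ _ h => (Prod.ext_iff.mp h).2) h
    (fun ω ω' _ _ h => by
      have h1 := (Prod.ext_iff.mp h)
      exact Prod.ext (Prod.ext_iff.mp h1.1).1 h1.2)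
  unfold CH
  linarith

theorem CH_mono_left {p : Ω → ℝ} (hp : ∀ ω, 0 ≤ p ω) {X' : Ω → S} {X : Ω → T} {W : Ω → U}
    (h : Det p (fun ω => (X' ω, W ω)) X) : CH p X W ≤ CH p X' W := by
  have := H_mono hp (X := fun ω => (X' ω, W ω)) (Y := fun ω => (X ω, W ω))
    (fun ω ω' a b hh => Prod.ext (h ω ω' a b hh) (Prod.ext_iff.mp hh).2)
  unfold CH
  linarith

/-- Entropies of a pair of variables determine each other. -/
theorem CH_congr {p : Ω → ℝ} (hp : ∀ ω, 0 ≤ p ω) {X : Ω → S} {X' : Ω → T} {W : Ω → U} {W' : Ω → V}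
    (h1 : Det p (fun ω => (X ω, W ω)) X') (h2 : Det p (fun ω => (X' ω, W' ω)) X)
    (h3 : Det p W W') (h4 : Det p W' W) : CH p X W = CH p X' W' := by
  unfold CH
  rw [H_congr hp h3 h4]
  congr 1
  refine H_congr hp ?_ ?_
  · intro ω ω' a b h
    have e1 := Prod.ext_iff.mp h
    have e2 : W ω = W ω' := h4 ω ω' a b e1.2
    exact Prod.ext (h2 ω ω' a b h) e2
  · intro ω ω' a b h
    have e1 := Prod.ext_iff.mp h
    have e2 : W' ω = W' ω' := h3 ω ω' a b e1.2
    exact Prod.ext (h1 ω ω' a b h) e2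

theorem CH_nonneg {p : Ω → ℝ} (hp : ∀ ω, 0 ≤ p ω) (X : Ω → S) (W : Ω → T) : 0 ≤ CH p X W := by
  have := H_mono hp (X := fun ω => (X ω, W ω)) (Y := W) (fun ω ω' _ _ h => (Prod.ext_iff.mp h).2)
  unfold CH
  linarith

theorem CH_chain {p : Ω → ℝ} (hp : ∀ ω, 0 ≤ p ω) (X : Ω → S) (Y : Ω → T) (W : Ω → U) :
    CH p (fun ω => (X ω, Y ω)) W = CH p Y W + CH p X (fun ω => (Y ω, W ω)) := by
  unfold CH
  have : H p (fun ω => ((X ω, Y ω), W ω)) = H p (fun ω => (X ω, (Y ω, W ω))) := by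
    refine H_congr hp ?_ ?_ <;>
    · intro ω ω' _ _ h
      simp only [Prod.mk.injEq] at h ⊢
      tauto
  rw [this]
  ring

/-- Subadditivity of conditional entropy. -/
theorem CH_subadd {p : Ω → ℝ} (hp : ∀ ω, 0 ≤ p ω) (X : Ω → S) (Y : Ω → T) (W : Ω → U) :
    CH p (fun ω => (X ω, Y ω)) W ≤ CH p X W + CH p Y W := by
  rw [CH_chain hp]
  have := CH_mono_cond hp (X := X) (W' := fun ω => (Y ω, W ω)) (W := W)
    (fun ω ω' _ _ h => (Prod.ext_iff.mp h).2)
  linarith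

/-- `H(X|W) ≤ H(X|Y,W) + H(Y|W)`. -/
theorem CH_le_add {p : Ω → ℝ} (hp : ∀ ω, 0 ≤ p ω) (X : Ω → S) (Y : Ω → T) (W : Ω → U) :
    CH p X W ≤ CH p Y W + CH p X (fun ω => (Y ω, W ω)) := by
  rw [← CH_chain hp]
  exact CH_mono_left hp (fun ω ω' _ _ h => by
    simp only [Prod.mk.injEq] at h
    exact h.1.1)

theorem CH_eq_zero {p : Ω → ℝ} (hp : ∀ ω, 0 ≤ p ω) {X : Ω → S} {W : Ω → T} (h : Det p W X) :
    CH p X W = 0 := by
  unfold CH
  rw [H_congr hp (X := W) (Y := fun ω => (X ω, W ω))]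
  · ring
  · intro ω ω' a b hh
    exact Prod.ext (h ω ω' a b hh) hh
  · intro ω ω' _ _ hh
    exact (Prod.ext_iff.mp hh).2

/-! ### Cross entropy -/

theorem CH_eq_neg_sum {p : Ω → ℝ} (hp : ∀ ω, 0 ≤ p ω) (X : Ω → S) (W : Ω → T) :
    CH p X W = Ex p (fun ω => -Real.log (law p (fun ω => (X ω, W ω)) (X ω, W ω) /
      law p W (W ω))) := by
  unfold CH H Ex
  rw [← sub_eq_zero]
  have : ∀ ω, p ω * -Real.log (law p (fun ω => (X ω, W ω)) (X ω, W ω) / law p W (W ω)) =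
      -(p ω * Real.log (law p (fun ω => (X ω, W ω)) (X ω, W ω))) +
        p ω * Real.log (law p W (W ω)) := by
    intro ω
    rcases (hp ω).eq_or_lt with h0 | h0
    · simp [← h0]
    · rw [Real.log_div (law_pos hp _ h0).ne' (law_pos hp _ h0).ne']
      ring
  simp_rw [this]
  rw [Finset.sum_add_distrib, Finset.sum_neg_distrib]
  ring

/-- Cross entropy bound (Gibbs inequality). -/
theorem CH_le_cross {p : Ω → ℝ} (hp : ∀ ω, 0 ≤ p ω) (h1 : ∑ ω, p ω = 1) (X : Ω → S) (W : Ω → T)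
    (q : T → S → ℝ) (hq : ∀ ω, 0 < p ω → 0 < q (W ω) (X ω)) (hq0 : ∀ w x, 0 ≤ q w x)
    (hsum : ∀ ω, 0 < p ω → ∀ F : Finset S, ∑ x ∈ F, q (W ω) x ≤ 1) :
    CH p X W ≤ Ex p (fun ω => -Real.log (q (W ω) (X ω))) := by
  classical
  rw [CH_eq_neg_sum hp]
  set PX : Ω → ℝ := fun ω => law p (fun ω => (X ω, W ω)) (X ω, W ω) with hPX
  set PW : Ω → ℝ := fun ω => law p W (W ω) with hPW
  have key : ∑ ω, p ω * (q (W ω) (X ω) * PW ω / PX ω) ≤ 1 := by
    have e1 : ∑ ω, p ω * (q (W ω) (X ω) * PW ω / PX ω) =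
        ∑ z ∈ univ.image (fun ω => (X ω, W ω)), law p (fun ω => (X ω, W ω)) z *
          (q z.2 z.1 * law p W z.2 / law p (fun ω => (X ω, W ω)) z) :=
      sum_mul_eq_sum_image p (fun ω => (X ω, W ω))
        (fun z => q z.2 z.1 * law p W z.2 / law p (fun ω => (X ω, W ω)) z)
    rw [e1]
    have e2 : ∀ z ∈ univ.image (fun ω => (X ω, W ω)), law p (fun ω => (X ω, W ω)) z *
          (q z.2 z.1 * law p W z.2 / law p (fun ω => (X ω, W ω)) z) ≤
          q z.2 z.1 * law p W z.2 := by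
      intro z _
      by_cases h0 : law p (fun ω => (X ω, W ω)) z = 0
      · rw [h0, zero_mul]
        exact mul_nonneg (hq0 _ _) (law_nonneg hp _ _)
      · rw [mul_div_cancel₀ _ h0]
    refine (Finset.sum_le_sum e2).trans ?_
    have e3 : ∑ z ∈ univ.image (fun ω => (X ω, W ω)), q z.2 z.1 * law p W z.2 ≤
        ∑ z ∈ (univ.image X) ×ˢ (univ.image W), q z.2 z.1 * law p W z.2 := by
      refine Finset.sum_le_sum_of_subset_of_nonneg ?_ ?_
      · intro z hz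
        obtain ⟨ω, _, rfl⟩ := Finset.mem_image.mp hz
        exact Finset.mem_product.mpr ⟨Finset.mem_image_of_mem _ (Finset.mem_univ _),
          Finset.mem_image_of_mem _ (Finset.mem_univ _)⟩
      · intro z _ _
        exact mul_nonneg (hq0 _ _) (law_nonneg hp _ _)
    refine e3.trans ?_
    rw [Finset.sum_product_right]
    have e4 : ∀ w ∈ univ.image W, ∑ x ∈ univ.image X, q w x * law p W w ≤ law p W w := by
      intro w hw
      rw [← Finset.sum_mul]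
      rcases (law_nonneg hp W w).eq_or_lt with h0 | h0
      · rw [← h0, mul_zero]
      · obtain ⟨ω, hω, rfl⟩ : ∃ ω, 0 < p ω ∧ W ω = w := by
          by_contra hcon
          push Not at hcon
          have : law p W w = 0 := by
            unfold law
            refine Finset.sum_eq_zero fun ω _ => ?_
            split_ifs with h
            · exact le_antisymm (not_lt.mp fun h' => hcon ω h' h) (hp ω)
            · rfl
          rw [this] at h0
          exact lt_irrefl _ h0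
        have := mul_le_mul_of_nonneg_right (hsum ω hω (univ.image X)) h0.le
        rwa [one_mul] at this
    refine (Finset.sum_le_sum e4).trans ?_
    rw [sum_law, h1]
  have hlog : ∀ ω, p ω * (-Real.log (PX ω / PW ω)) ≤
      p ω * (-Real.log (q (W ω) (X ω))) + (p ω * (q (W ω) (X ω) * PW ω / PX ω) - p ω) := by
    intro ω
    rcases (hp ω).eq_or_lt with h0 | h0
    · simp [← h0]
    · have a1 : 0 < PX ω := law_pos hp _ h0
      have a2 : 0 < PW ω := law_pos hp _ h0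
      have a3 := hq ω h0
      have h4 := Real.log_le_sub_one_of_pos (x := q (W ω) (X ω) * PW ω / PX ω) (by positivity)
      rw [Real.log_div (by positivity) a1.ne', Real.log_mul a3.ne' a2.ne'] at h4
      rw [Real.log_div a1.ne' a2.ne']
      have := mul_le_mul_of_nonneg_left h4 h0.le
      linarith [this]
  have hfin := Finset.sum_le_sum (s := Finset.univ) fun ω _ => hlog ω
  rw [Finset.sum_add_distrib, Finset.sum_sub_distrib, h1] at hfin
  unfold Ex
  linarith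

/-- Counting bound: if, given `W = w`, the variable `X` takes values in `F w`. -/
theorem CH_le_card {p : Ω → ℝ} (hp : ∀ ω, 0 ≤ p ω) (h1 : ∑ ω, p ω = 1) (X : Ω → S) (W : Ω → T)
    (F : T → Finset S) (hF : ∀ ω, 0 < p ω → X ω ∈ F (W ω)) :
    CH p X W ≤ Ex p (fun ω => Real.log ((F (W ω)).card)) := by
  classical
  have h := CH_le_cross hp h1 X W (fun w x => if x ∈ F w then ((F w).card : ℝ)⁻¹ else 0)
    (by
      intro ω hω
      rw [if_pos (hF ω hω)]
      have : 0 < (F (W ω)).card := Finset.card_pos.mpr ⟨_, hF ω hω⟩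
      positivity)
    (by intro w x; split_ifs <;> positivity)
    (by
      intro ω hω G
      have hc : 0 < (F (W ω)).card := Finset.card_pos.mpr ⟨_, hF ω hω⟩
      have hc' : (0 : ℝ) < (F (W ω)).card := by exact_mod_cast hc
      rw [← Finset.sum_filter, Finset.sum_const, nsmul_eq_mul, ← div_eq_mul_inv,
        div_le_one hc']
      exact_mod_cast Finset.card_le_card fun x hx => (Finset.mem_filter.mp hx).2)
  refine h.trans (Ex_mono hp fun ω hω => ?_)
  rw [if_pos (hF ω hω), Real.log_inv, neg_neg]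

/-- Counting bound for integer vectors: conditionally on `W` the coordinates vary by at most
`L (W ω)`. -/
theorem CH_le_vec {d : ℕ} {p : Ω → ℝ} (hp : ∀ ω, 0 ≤ p ω) (h1 : ∑ ω, p ω = 1)
    (X : Ω → Fin d → ℤ) (W : Ω → T) (L : Ω → ℝ)
    (hX : ∀ ω ω', 0 < p ω → 0 < p ω' → W ω = W ω' → ∀ k, |((X ω k - X ω' k : ℤ) : ℝ)| ≤ L ω) :
    CH p X W ≤ d * Ex p (fun ω => Real.log (2 * L ω + 1)) := by
  classical
  -- reference point and radius attached to a value of `W`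
  have hex : ∀ w : T, (∃ ω, 0 < p ω ∧ W ω = w) → ∃ ω, 0 < p ω ∧ W ω = w := fun w h => h
  set ref : T → Option Ω := fun w =>
    if h : ∃ ω, 0 < p ω ∧ W ω = w then
      some ((Finset.exists_min_image (Finset.univ.filter fun ω => 0 < p ω ∧ W ω = w) L
        ⟨h.choose, Finset.mem_filter.mpr ⟨Finset.mem_univ _, h.choose_spec⟩⟩).choose)
    else none with href
  have hrefs : ∀ ω, 0 < p ω → ∃ ω₀, ref (W ω) = some ω₀ ∧ 0 < p ω₀ ∧ W ω₀ = W ω ∧ L ω₀ ≤ L ω := by
    intro ω hω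
    have h : ∃ ω', 0 < p ω' ∧ W ω' = W ω := ⟨ω, hω, rfl⟩
    have hs := (Finset.exists_min_image (Finset.univ.filter fun ω' => 0 < p ω' ∧ W ω' = W ω) L
        ⟨h.choose, Finset.mem_filter.mpr ⟨Finset.mem_univ _, h.choose_spec⟩⟩).choose_spec
    refine ⟨_, dif_pos h, (Finset.mem_filter.mp hs.1).2.1, (Finset.mem_filter.mp hs.1).2.2, ?_⟩
    exact hs.2 ω (Finset.mem_filter.mpr ⟨Finset.mem_univ _, hω, rfl⟩)
  set F : T → Finset (Fin d → ℤ) := fun w =>
    match ref w with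
    | none => ∅
    | some ω₀ => Fintype.piFinset fun k => Finset.Icc (X ω₀ k - ⌊L ω₀⌋) (X ω₀ k + ⌊L ω₀⌋) with hF
  have hmem : ∀ ω, 0 < p ω → X ω ∈ F (W ω) := by
    intro ω hω
    obtain ⟨ω₀, e1, e2, e3, e4⟩ := hrefs ω hω
    simp only [hF, e1]
    rw [Fintype.mem_piFinset]
    intro k
    have h2 := hX ω₀ ω e2 hω e3 k
    rw [abs_le] at h2
    have h3 : (X ω k - X ω₀ k : ℤ) ≤ ⌊L ω₀⌋ := Int.le_floor.mpr (by push_cast at h2 ⊢; linarith)
    have h4 : (X ω₀ k - X ω k : ℤ) ≤ ⌊L ω₀⌋ := Int.le_floor.mpr (by push_cast at h2 ⊢; linarith)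
    rw [Finset.mem_Icc]
    constructor <;> linarith
  refine (CH_le_card hp h1 X W F hmem).trans ?_
  rw [← Ex_smul]
  refine Ex_mono hp fun ω hω => ?_
  obtain ⟨ω₀, e1, e2, e3, e4⟩ := hrefs ω hω
  have hL0 : 0 ≤ L ω₀ ∨ d = 0 := by
    rcases Nat.eq_zero_or_pos d with h | h
    · right; exact h
    · left
      exact (abs_nonneg _).trans (hX ω₀ ω₀ e2 e2 rfl ⟨0, h⟩)
  have hcard : ((F (W ω)).card : ℝ) ≤ (2 * L ω + 1) ^ d := by
    simp only [hF, e1]
    rw [Fintype.card_piFinset]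
    push_cast
    rcases hL0 with hL0 | hd
    · have h5 : ∀ k : Fin d, ((Finset.Icc (X ω₀ k - ⌊L ω₀⌋) (X ω₀ k + ⌊L ω₀⌋)).card : ℝ) ≤
          2 * L ω + 1 := by
        intro k
        rw [Int.card_Icc]
        have h6 : 0 ≤ ⌊L ω₀⌋ := Int.floor_nonneg.mpr hL0
        have h7 : ((X ω₀ k + ⌊L ω₀⌋ + 1 - (X ω₀ k - ⌊L ω₀⌋)).toNat : ℤ) = 2 * ⌊L ω₀⌋ + 1 := by
          rw [Int.toNat_of_nonneg (by linarith)]
          ring
        have h8 : ((X ω₀ k + ⌊L ω₀⌋ + 1 - (X ω₀ k - ⌊L ω₀⌋)).toNat : ℝ) = 2 * ⌊L ω₀⌋ + 1 := by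
          exact_mod_cast h7
        rw [h8]
        have h9 := Int.floor_le (L ω₀)
        linarith
      calc ∏ k : Fin d, ((Finset.Icc (X ω₀ k - ⌊L ω₀⌋) (X ω₀ k + ⌊L ω₀⌋)).card : ℝ) ≤
          ∏ _k : Fin d, (2 * L ω + 1) := Finset.prod_le_prod (fun _ _ => by positivity)
            fun k _ => h5 k
        _ = (2 * L ω + 1) ^ d := by simp
    · subst hd
      simp
  have hpos : (0 : ℝ) < (F (W ω)).card := by
    exact_mod_cast Finset.card_pos.mpr ⟨_, hmem ω hω⟩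
  calc Real.log ((F (W ω)).card) ≤ Real.log ((2 * L ω + 1) ^ d) := Real.log_le_log hpos hcard
    _ = d * Real.log (2 * L ω + 1) := Real.log_pow _ _

/-- Counting bound for integers. -/
theorem CH_le_int {p : Ω → ℝ} (hp : ∀ ω, 0 ≤ p ω) (h1 : ∑ ω, p ω = 1)
    (X : Ω → ℤ) (W : Ω → T) (L : Ω → ℝ)
    (hX : ∀ ω ω', 0 < p ω → 0 < p ω' → W ω = W ω' → |((X ω - X ω' : ℤ) : ℝ)| ≤ L ω) :
    CH p X W ≤ Ex p (fun ω => Real.log (2 * L ω + 1)) := by
  have h := CH_le_vec hp h1 (fun ω (_ : Fin 1) => X ω) W L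
    (fun ω ω' a b c _ => hX ω ω' a b c)
  have h2 : CH p X W = CH p (fun ω (_ : Fin 1) => X ω) W := by
    refine CH_congr hp ?_ ?_ (fun _ _ _ _ h => h) (fun _ _ _ _ h => h)
    · intro ω ω' _ _ hh
      funext k
      exact (Prod.ext_iff.mp hh).1
    · intro ω ω' _ _ hh
      exact congrFun (Prod.ext_iff.mp hh).1 0
  rw [h2]
  simpa using h

end Pool.Agent.H32.Dense
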