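import Pool.Agent.H32.Dense.Derived

/-!
# The inequalities for a pair of crossing lines
-/

set_option autoImplicit false

namespace Pool.Agent.H32.Dense

open Finset Real
open Pool.Agent.H49.Ent

section Gen

variable {Ω : Type*} [Fintype Ω] {S T U V : Type*}

/-- Bayes formula. -/
theorem CH_bayes {p : Ω → ℝ} (hp : ∀ ω, 0 ≤ p ω) (X : Ω → S) (Y : Ω → T) (W : Ω → U) :
    CH p X (fun ω => (Y ω, W ω)) = CH p X W + CH p Y (fun ω => (X ω, W ω)) - CH p Y W := by
  have c1 := CH_chain hp X Y W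
  have c2 := CH_chain hp Y X W
  have c3 : CH p (fun w => (X w, Y w)) W = CH p (fun w => (Y w, X w)) W := by
    refine CH_congr hp ?_ ?_ ?_ ?_ <;>
    · intro w w' _ _ e
      try simp only [Prod.mk.injEq] at e ⊢
      tauto
  linarith

lemma log_le_of_pow {x : ℝ} {n : ℕ} (hx : 0 < x) (h : x ≤ 2.7 ^ n) : Real.log x ≤ n := by
  rw [Real.log_le_iff_le_exp hx]
  have := Real.exp_one_gt_d9
  calc x ≤ (2.7) ^ n := h
    _ ≤ (Real.exp 1) ^ n := by gcongr; linarith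
    _ = Real.exp n := by rw [← Real.exp_nat_mul]; norm_num

lemma rd_close {d : ℕ} {x y : Fin d → ℝ} (h : rd x = rd y) (k : Fin d) : |x k - y k| ≤ 1 :=
  (Int.abs_sub_lt_one_of_floor_eq_floor (congrFun h k)).le

lemma floor_sub_le_pair (x y : ℝ) : |((⌊x⌋ - ⌊y⌋ : ℤ) : ℝ)| ≤ |x - y| + 1 := by
  have h1 := Int.floor_le x
  have h2 := Int.lt_floor_add_one x
  have h3 := Int.floor_le y
  have h4 := Int.lt_floor_add_one y
  have h5 := neg_abs_le (x - y)
  have h6 := le_abs_self (x - y)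
  push_cast
  rw [abs_le]
  constructor <;> linarith

/-- From a bound for `(c / M) (a - b)` to a bound for `a - b`. -/
lemma gap_le {M : ℕ} (hM : 0 < M) {c : ℝ} {a b : ℤ} (ha : |a| ≤ M) (hb : |b| ≤ M)
    (h : |c / M * (a - b)| ≤ 2) : |((a - b : ℤ) : ℝ)| ≤ 2 * (M / max |c| 1) := by
  have hM0 : (0 : ℝ) < M := by exact_mod_cast hM
  have ha' : |(a : ℝ)| ≤ M := by exact_mod_cast ha
  have hb' : |(b : ℝ)| ≤ M := by exact_mod_cast hb
  push_cast
  rcases le_total |c| 1 with h1 | h1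
  · rw [max_eq_right h1, div_one]
    calc |(a : ℝ) - b| ≤ |(a : ℝ)| + |(b : ℝ)| := abs_sub _ _
      _ ≤ 2 * M := by linarith
  · rw [max_eq_left h1]
    have hc : 0 < |c| := by linarith
    rw [abs_mul, abs_div, Nat.abs_cast] at h
    have : 2 * ((M : ℝ) / |c|) = 2 / (|c| / M) := by field_simp
    rw [this, le_div_iff₀ (by positivity)]
    linarith

lemma log_gap {y : ℝ} (hy : 0 ≤ y) : Real.log (2 * (2 * y) + 1) ≤ 2 + Real.log (1 + y) := by
  calc Real.log (2 * (2 * y) + 1) ≤ Real.log (4 * (1 + y)) := by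
        apply Real.log_le_log (by positivity)
        linarith
    _ = Real.log 4 + Real.log (1 + y) := Real.log_mul (by norm_num) (by positivity)
    _ ≤ _ := by
        have : Real.log 4 ≤ (2 : ℕ) := log_le_of_pow (by norm_num) (by norm_num)
        push_cast at this
        linarith

lemma log_gap' {y : ℝ} (hy : 1 ≤ y) : Real.log (2 * (2 * y) + 1) ≤ 2 + Real.log y := by
  calc Real.log (2 * (2 * y) + 1) ≤ Real.log (5 * y) := by
        apply Real.log_le_log (by positivity)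
        linarith
    _ = Real.log 5 + Real.log y := Real.log_mul (by norm_num) (by positivity)
    _ ≤ _ := by
        have : Real.log 5 ≤ (2 : ℕ) := log_le_of_pow (by norm_num) (by norm_num)
        push_cast at this
        linarith

end Gen

/-- The positions of a line satisfy a linear relation. -/
lemma pos_lin {d : ℕ} (M : ℕ) (u : Fin d → ℝ) (v : Fin d → ℤ) (t s τ : ℤ) (k : Fin d) :
    pos M u v s k = (1 - kap t s τ) * (pos M u v τ k + ((hat t s τ : ℝ) - τ) / M * v k) +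
      kap t s τ * pos M u v t k := by
  obtain ⟨h1, _, _, _⟩ := hat_spec t s τ
  have e2 : (hat t s τ : ℝ) - t ≠ 0 := sub_ne_zero.mpr (by exact_mod_cast h1)
  have e3 : kap t s τ * ((hat t s τ : ℝ) - t) = (hat t s τ : ℝ) - s := by
    unfold kap
    field_simp
  unfold pos
  have : (1 - kap t s τ) * (u k + (τ : ℝ) / M * v k + ((hat t s τ : ℝ) - τ) / M * v k) +
      kap t s τ * (u k + (t : ℝ) / M * v k) =
      u k + ((hat t s τ : ℝ) - kap t s τ * ((hat t s τ : ℝ) - t)) / M * v k := by ring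
  rw [this, e3]
  ring

/-- Variation of the functional, in terms of the variation of the two positions. -/
lemma var_le {κ p₀ p₀' q₀ q₀' w w' e e' b b' f v₁ v₁' M hv v₀ v₀' : ℝ}
    (hM : 0 < M) (h1 : |p₀ - p₀'| ≤ 1) (hh : |hv| ≤ 2) (hv0 : |v₀| ≤ M) (hv0' : |v₀'| ≤ M)
    (hw : |w - e| ≤ 1) (hw' : |w' - e'| ≤ 1) (hb : |b - b'| ≤ 1)
    (hf : |f| ≤ 1) (hv1 : |v₁| ≤ M) (hv1' : |v₁'| ≤ M)
    (hq : q₀ = (1 - κ) * (p₀ + hv / M * v₀) + κ * w + κ * (b - e) - f / M * v₁)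
    (hq' : q₀' = (1 - κ) * (p₀' + hv / M * v₀') + κ * w' + κ * (b' - e') - f / M * v₁') :
    |q₀ - q₀'| ≤ 7 + 8 * |κ| := by
  have e1 : q₀ - q₀' = (1 - κ) * ((p₀ - p₀') + hv / M * (v₀ - v₀')) +
      κ * ((w - e) - (w' - e') + (b - b')) - f / M * (v₁ - v₁') := by
    rw [hq, hq']; ring
  have a1 : |hv / M * (v₀ - v₀')| ≤ 4 := by
    rw [abs_mul, abs_div, abs_of_pos hM]
    have : |v₀ - v₀'| ≤ 2 * M := (abs_sub _ _).trans (by linarith)
    calc |hv| / M * |v₀ - v₀'| ≤ 2 / M * (2 * M) := by gcongr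
      _ = 4 := by field_simp; norm_num
  have a2 : |f / M * (v₁ - v₁')| ≤ 2 := by
    rw [abs_mul, abs_div, abs_of_pos hM]
    have : |v₁ - v₁'| ≤ 2 * M := (abs_sub _ _).trans (by linarith)
    calc |f| / M * |v₁ - v₁'| ≤ 1 / M * (2 * M) := by gcongr
      _ = 2 := by field_simp
  have a3 : |(p₀ - p₀') + hv / M * (v₀ - v₀')| ≤ 5 := (abs_add_le _ _).trans (by linarith)
  have a4 : |(w - e) - (w' - e') + (b - b')| ≤ 3 := by
    calc |(w - e) - (w' - e') + (b - b')| ≤ |(w - e) - (w' - e')| + |b - b'| := abs_add_le _ _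
      _ ≤ |w - e| + |w' - e'| + |b - b'| := by
        have := abs_sub (w - e) (w' - e')
        linarith
      _ ≤ 3 := by linarith
  have a5 : |1 - κ| ≤ 1 + |κ| := by
    calc |1 - κ| ≤ |(1 : ℝ)| + |κ| := abs_sub _ _
      _ = 1 + |κ| := by rw [abs_one]
  rw [e1]
  calc _ ≤ |(1 - κ) * ((p₀ - p₀') + hv / M * (v₀ - v₀')) +
      κ * ((w - e) - (w' - e') + (b - b'))| + |f / M * (v₁ - v₁')| := abs_sub _ _
    _ ≤ |(1 - κ) * ((p₀ - p₀') + hv / M * (v₀ - v₀'))| +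
      |κ * ((w - e) - (w' - e') + (b - b'))| + 2 := by
        have := abs_add_le ((1 - κ) * ((p₀ - p₀') + hv / M * (v₀ - v₀')))
          (κ * ((w - e) - (w' - e') + (b - b')))
        linarith
    _ ≤ (1 + |κ|) * 5 + |κ| * 3 + 2 := by
        rw [abs_mul, abs_mul]
        gcongr
    _ = 7 + 8 * |κ| := by ring

lemma log_var {k : ℝ} (hk : 0 ≤ k) : Real.log (2 * (8 * (1 + k)) + 1) ≤ 3 + Real.log (1 + k) := by
  calc Real.log (2 * (8 * (1 + k)) + 1) ≤ Real.log (17 * (1 + k)) := by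
        apply Real.log_le_log (by positivity)
        linarith
    _ = Real.log 17 + Real.log (1 + k) := Real.log_mul (by norm_num) (by positivity)
    _ ≤ _ := by
        have : Real.log 17 ≤ (3 : ℕ) := log_le_of_pow (by norm_num) (by norm_num)
        push_cast at this
        linarith

variable {d : ℕ} {Ω : Type} [Fintype Ω] {ζ : Type}
variable {M : ℕ} {q : Ω → ℝ} {Z : Ω → ζ} {v₀ v₁ v₂ : Ω → Fin d → ℤ} {u₀ u₁ u₂ : Ω → Fin d → ℝ}
  {t s t₁ r tr ρ c : Ω → ℤ} {L S K G D η x : ℝ}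

theorem PCfg.h_lower (h : PCfg M q Z v₀ v₁ u₀ u₁ t s t₁ r L S K G D) :
    2 * L - 3 * K - S - kapP M q Z t s t₁ r - etaP M q Z v₀ v₁ t s t₁ r ≤
      hP q Z v₀ v₁ t s t₁ r := by
  have hq := h.hq
  have b1 := CH_bayes hq (fun w => (v₀ w, v₁ w)) s (fun w => (Z w, t w))
  have b2 := CH_bayes hq (fun w => (v₀ w, v₁ w)) (cP t s t₁ r) (fun w => (Z w, t w, s w))
  have b3 := CH_time_le hq h.h1 h.hs (fun w => (Z w, t w))
  have b4 := h.cL
  have b5 := h.cs
  have e1 : CH q (fun w => (v₀ w, v₁ w)) (fun w => (s w, (Z w, t w))) =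
      CH q (fun w => (v₀ w, v₁ w)) (fun w => (Z w, t w, s w)) := by
    refine CH_congr hq ?_ ?_ ?_ ?_ <;>
    · intro w w' _ _ e
      simp only [Prod.mk.injEq] at e ⊢
      tauto
  have e2 : CH q (fun w => (v₀ w, v₁ w)) (fun w => (cP t s t₁ r w, (Z w, t w, s w))) =
      hP q Z v₀ v₁ t s t₁ r := by
    refine CH_congr hq ?_ ?_ ?_ ?_ <;>
    · intro w w' _ _ e
      simp only [Prod.mk.injEq] at e ⊢
      tauto
  unfold kapP etaP
  linarith

theorem PCfg.kap_le (h : PCfg M q Z v₀ v₁ u₀ u₁ t s t₁ r L S K G D) :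
    kapP M q Z t s t₁ r ≤ 1.01 * D + 8 := by
  have h1 := CH_le_tail h.hM h.hq h.h1 (cP t s t₁ r) (fun w => (Z w, t w, s w))
  have h2 : Ex q (fun ω => Real.log (1 + |(cP t s t₁ r ω : ℝ)| / M)) ≤ 1 + D := by
    calc Ex q (fun ω => Real.log (1 + |(cP t s t₁ r ω : ℝ)| / M)) ≤
        Ex q (fun w => 1 + Real.log (1 + |kap (t w) (s w) (t₁ w)|)) :=
          Ex_mono h.hq fun w hw => log_ct_le h.hM (h.ht w hw) (h.hr w hw)
      _ = 1 + Ex q (fun w => Real.log (1 + |kap (t w) (s w) (t₁ w)|)) := by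
          rw [Ex_add, Ex_const h.h1]
      _ ≤ 1 + D := by linarith [h.D₁]
  unfold kapP
  linarith

theorem PCfg.eta_ge (h : PCfg M q Z v₀ v₁ u₀ u₁ t s t₁ r L S K G D) :
    -kapP M q Z t s t₁ r ≤ etaP M q Z v₀ v₁ t s t₁ r := by
  have : CH q (cP t s t₁ r) (fun w => ((v₀ w, v₁ w), Z w, t w, s w)) ≤
      CH q (cP t s t₁ r) (fun w => (Z w, t w, s w)) := by
    refine CH_mono_cond h.hq ?_
    intro w w' _ _ e
    simp only [Prod.mk.injEq] at e ⊢
    tauto
  unfold kapP etaP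
  linarith

/-- `E log (1 + M / |c|)`. -/
lemma PCfg.Gc (h : PCfg M q Z v₀ v₁ u₀ u₁ t s t₁ r L S K G D) :
    Ex q (fun w => Real.log (1 + M / max |(cP t s t₁ r w : ℝ)| 1)) ≤ 1 + G + D := by
  calc Ex q (fun w => Real.log (1 + M / max |(cP t s t₁ r w : ℝ)| 1)) ≤
      Ex q (fun w => (1 + ell M (r w) (t w)) + Real.log (1 + |kap (t w) (s w) (t₁ w)|⁻¹)) :=
        Ex_mono h.hq fun w hw => log_ct h.hM (h.ht w hw) (h.hr w hw)
    _ = 1 + Ex q (fun w => ell M (r w) (t w)) +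
        Ex q (fun w => Real.log (1 + |kap (t w) (s w) (t₁ w)|⁻¹)) := by
        rw [Ex_add, Ex_add, Ex_const h.h1]
    _ ≤ 1 + G + D := by linarith [h.Grt, h.D₂]

/-- `v₁` is nearly determined by `X`. -/
lemma PCfg.v1_le {T : Type} (h : PCfg M q Z v₀ v₁ u₀ u₁ t s t₁ r L S K G D) {W : Ω → T}
    (hW : ∀ w w', 0 < q w → 0 < q w' → W w = W w' →
      s w = s w' ∧ cP t s t₁ r w = cP t s t₁ r w' ∧
      xf M (u₀ w) (v₀ w) (s w) (cP t s t₁ r w) (v₁ w) =
        xf M (u₀ w') (v₀ w') (s w') (cP t s t₁ r w') (v₁ w') ∧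
      ∀ k, |pos M (u₀ w) (v₀ w) (s w) k - pos M (u₀ w') (v₀ w') (s w') k| ≤ 1) :
    CH q v₁ W ≤ d * (G + D + 3) := by
  have h1 := CH_le_vec h.hq h.h1 v₁ W (fun w => 2 * (M / max |(cP t s t₁ r w : ℝ)| 1))
    (fun w w' a b e k => by
      obtain ⟨e1, e2, e3, e4⟩ := hW w w' a b e
      refine gap_le h.hM (h.hv₁ w a k) (h.hv₁ w' b k) ?_
      have f1 := rd_close e3 k
      have f2 := e4 k
      rw [e2] at f1 ⊢
      have : (cP t s t₁ r w' : ℝ) / M * ((v₁ w k : ℝ) - v₁ w' k) =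
          (pos M (u₀ w) (v₀ w) (s w) k + (cP t s t₁ r w' : ℝ) / M * v₁ w k -
          (pos M (u₀ w') (v₀ w') (s w') k + (cP t s t₁ r w' : ℝ) / M * v₁ w' k)) -
          (pos M (u₀ w) (v₀ w) (s w) k - pos M (u₀ w') (v₀ w') (s w') k) := by ring
      rw [this]
      refine (abs_sub _ _).trans ?_
      linarith)
  refine h1.trans ?_
  have hd : (0 : ℝ) ≤ d := Nat.cast_nonneg d
  refine mul_le_mul_of_nonneg_left ?_ hd
  calc Ex q (fun w => Real.log (2 * (2 * (M / max |(cP t s t₁ r w : ℝ)| 1)) + 1)) ≤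
      Ex q (fun w => 2 + Real.log (1 + M / max |(cP t s t₁ r w : ℝ)| 1)) :=
        Ex_mono h.hq fun w _ => log_gap (by positivity)
    _ = 2 + Ex q (fun w => Real.log (1 + M / max |(cP t s t₁ r w : ℝ)| 1)) := by
        rw [Ex_add, Ex_const h.h1]
    _ ≤ G + D + 3 := by linarith [h.Gc]

theorem PCfg.low (h : PCfg M q Z v₀ v₁ u₀ u₁ t s t₁ r L S K G D) :
    hP q Z v₀ v₁ t s t₁ r ≤ xP M q Z v₀ v₁ u₀ t s t₁ r + S + d * (2 * G + D + 5) := by
  have hq := h.hq
  have hd : (0 : ℝ) ≤ d := Nat.cast_nonneg d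
  have a1 := CH_le_add hq (fun w => (v₀ w, v₁ w))
    (fun w => xf M (u₀ w) (v₀ w) (s w) (cP t s t₁ r w) (v₁ w))
    (fun w => (Z w, (t w, s w, cP t s t₁ r w)))
  have a2 := CH_le_add hq (fun w => (v₀ w, v₁ w)) (fun w => rd (pos M (u₀ w) (v₀ w) (s w)))
    (fun w => (xf M (u₀ w) (v₀ w) (s w) (cP t s t₁ r w) (v₁ w),
      (Z w, (t w, s w, cP t s t₁ r w))))
  have a3 : CH q (fun w => rd (pos M (u₀ w) (v₀ w) (s w)))
      (fun w => (xf M (u₀ w) (v₀ w) (s w) (cP t s t₁ r w) (v₁ w),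
      (Z w, (t w, s w, cP t s t₁ r w)))) ≤ S := by
    refine le_trans (CH_mono_cond hq ?_) h.Ss
    intro w w' _ _ e
    simp only [Prod.mk.injEq] at e ⊢
    tauto
  have a4 := CH_chain hq v₀ v₁ (fun w => (rd (pos M (u₀ w) (v₀ w) (s w)),
      (xf M (u₀ w) (v₀ w) (s w) (cP t s t₁ r w) (v₁ w),
      (Z w, (t w, s w, cP t s t₁ r w)))))
  have a5 := h.v1_le (W := fun w => (rd (pos M (u₀ w) (v₀ w) (s w)),
      (xf M (u₀ w) (v₀ w) (s w) (cP t s t₁ r w) (v₁ w),
      (Z w, (t w, s w, cP t s t₁ r w))))) (by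
      intro w w' _ _ e
      simp only [Prod.mk.injEq] at e
      exact ⟨e.2.2.2.2.1, e.2.2.2.2.2, e.2.1, fun k => rd_close e.1 k⟩)
  have a6 : CH q v₀ (fun w => (v₁ w, (rd (pos M (u₀ w) (v₀ w) (s w)),
      (xf M (u₀ w) (v₀ w) (s w) (cP t s t₁ r w) (v₁ w),
      (Z w, (t w, s w, cP t s t₁ r w)))))) ≤ d * (G + 2) := by
    have h1 := CH_le_vec h.hq h.h1 v₀ (fun w => (v₁ w, (rd (pos M (u₀ w) (v₀ w) (s w)),
      (xf M (u₀ w) (v₀ w) (s w) (cP t s t₁ r w) (v₁ w),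
      (Z w, (t w, s w, cP t s t₁ r w)))))) (fun w => 2 * (M / max |(s w : ℝ) - t w| 1))
      (fun w w' a b e k => by
        simp only [Prod.mk.injEq] at e
        obtain ⟨e1, e2, e3, e4, e5, e6, e7⟩ := e
        refine gap_le h.hM (h.hv₀ w a k) (h.hv₀ w' b k) ?_
        have f1 := rd_close e2 k
        have eu := h.hu₁ w w' a b (by simp only [Prod.mk.injEq]; exact ⟨e1, e4⟩)
        have f2 : rd (pos M (u₀ w) (v₀ w) (t w)) = rd (pos M (u₀ w') (v₀ w') (t w')) := by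
          rw [h.cross w a, h.cross w' b, e1, eu, e5]
        have f3 := rd_close f2 k
        rw [e6] at f1
        rw [e5] at f3
        have : ((s w : ℝ) - t w) / M * ((v₀ w k : ℝ) - v₀ w' k) =
          (pos M (u₀ w) (v₀ w) (s w') k - pos M (u₀ w') (v₀ w') (s w') k) -
          (pos M (u₀ w) (v₀ w) (t w') k - pos M (u₀ w') (v₀ w') (t w') k) := by
          unfold pos
          rw [e5, e6]
          ring
        rw [this]
        refine (abs_sub _ _).trans ?_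
        linarith)
    refine h1.trans ?_
    refine mul_le_mul_of_nonneg_left ?_ hd
    calc Ex q (fun w => Real.log (2 * (2 * (M / max |(s w : ℝ) - t w| 1)) + 1)) ≤
        Ex q (fun w => 2 + ell M (s w) (t w)) :=
          Ex_mono h.hq fun w hw => by
            have hM1 : (1 : ℝ) ≤ M := by exact_mod_cast h.hM
            refine log_gap' ?_
            rw [one_le_div (lt_of_lt_of_le one_pos (le_max_right _ _))]
            refine max_le ?_ hM1
            have i1 : (0 : ℝ) ≤ s w := by exact_mod_cast (h.hs w hw).1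
            have i2 : (s w : ℝ) < M := by exact_mod_cast (h.hs w hw).2
            have i3 : (0 : ℝ) ≤ t w := by exact_mod_cast (h.ht w hw).1
            have i4 : (t w : ℝ) < M := by exact_mod_cast (h.ht w hw).2
            exact abs_le.mpr ⟨by linarith, by linarith⟩
      _ = 2 + Ex q (fun w => ell M (s w) (t w)) := by
          rw [Ex_add, Ex_const h.h1]
      _ ≤ G + 2 := by linarith [h.Gst]
  unfold hP xP
  linarith

theorem PCfg.ab_le (h : PCfg M q Z v₀ v₁ u₀ u₁ t s t₁ r L S K G D) :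
    abP M q Z v₀ v₁ u₀ u₁ t s t₁ r ≤ 2 * S := by
  have hq := h.hq
  have a1 := CH_subadd hq (fun w => rd (pos M (u₀ w) (v₀ w) (t₁ w)))
    (fun w => rd (pos M (u₁ w) (v₁ w) (r w))) (fun w => (Z w, t w, s w, t₁ w, r w))
  have a2 : CH q (fun w => rd (pos M (u₀ w) (v₀ w) (t₁ w)))
      (fun w => (Z w, t w, s w, t₁ w, r w)) ≤ S := by
    refine le_trans (CH_mono_cond hq ?_) h.St₁
    intro w w' _ _ e
    simp only [Prod.mk.injEq] at e ⊢
    tauto
  have a3 : CH q (fun w => rd (pos M (u₁ w) (v₁ w) (r w)))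
      (fun w => (Z w, t w, s w, t₁ w, r w)) ≤ S := by
    refine le_trans (CH_mono_cond hq ?_) h.Sr
    intro w w' _ _ e
    simp only [Prod.mk.injEq] at e ⊢
    tauto
  unfold abP
  linarith

/-- The time `r` is nearly determined by the coefficient. -/
lemma PCfg.r_le {T : Type} (h : PCfg M q Z v₀ v₁ u₀ u₁ t s t₁ r L S K G D) {W : Ω → T}
    (hW : ∀ w w', 0 < q w → 0 < q w' → W w = W w' →
      t w = t w' ∧ s w = s w' ∧ t₁ w = t₁ w' ∧ cP t s t₁ r w = cP t s t₁ r w') :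
    CH q r W ≤ D + 1 := by
  have h1 := CH_le_int h.hq h.h1 r W (fun w => |kap (t w) (s w) (t₁ w)|⁻¹)
    (fun w w' a b e => by
      obtain ⟨e1, e2, e3, e4⟩ := hW w w' a b e
      unfold cP ct at e4
      rw [← e1, ← e2, ← e3] at e4
      have := floor_eq_close (kap_pos (t w) (s w) (t₁ w)) e4
      push_cast
      convert this using 2
      ring)
  refine h1.trans ?_
  calc Ex q (fun w => Real.log (2 * |kap (t w) (s w) (t₁ w)|⁻¹ + 1)) ≤
      Ex q (fun w => 1 + Real.log (1 + |kap (t w) (s w) (t₁ w)|⁻¹)) :=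
        Ex_mono h.hq fun w _ => log_two_mul_add (by positivity)
    _ = 1 + Ex q (fun w => Real.log (1 + |kap (t w) (s w) (t₁ w)|⁻¹)) := by
        rw [Ex_add, Ex_const h.h1]
    _ ≤ D + 1 := by linarith [h.D₂]

/-- The information on the time `t₁`. -/
lemma PCfg.K_le (h : PCfg M q Z v₀ v₁ u₀ u₁ t s t₁ r L S K G D) :
    Real.log M - CH q t₁ (fun w => ((v₀ w, v₁ w), Z w, (t w, s w, cP t s t₁ r w))) ≤
      2 * K - etaP M q Z v₀ v₁ t s t₁ r + D + 1 := by
  have hq := h.hq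
  set V : Ω → (((Fin d → ℤ) × (Fin d → ℤ)) × ζ × ℤ × ℤ) :=
    fun w => ((v₀ w, v₁ w), Z w, t w, s w) with hV
  -- the pair of times
  have c1 := CH_chain hq r t₁ V
  have c2 : CH q r (fun w => (t₁ w, V w)) =
      CH q r (fun w => ((v₀ w, v₁ w), Z w, t w, s w, t₁ w)) := by
    refine CH_congr hq ?_ ?_ ?_ ?_ <;>
    · intro w w' _ _ e
      simp only [hV, Prod.mk.injEq] at e ⊢
      tauto
  have c3 := h.ct₁
  have c4 := h.cr
  -- insert the coefficient
  have d1 := CH_le_add hq (fun w => (r w, t₁ w)) (cP t s t₁ r) V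
  have d2 := CH_chain hq r t₁ (fun w => (cP t s t₁ r w, V w))
  have d3 := h.r_le (W := fun w => (t₁ w, (cP t s t₁ r w, V w))) (by
    intro w w' _ _ e
    simp only [hV, Prod.mk.injEq] at e
    tauto)
  have d4 : CH q t₁ (fun w => (cP t s t₁ r w, V w)) =
      CH q t₁ (fun w => ((v₀ w, v₁ w), Z w, (t w, s w, cP t s t₁ r w))) := by
    refine CH_congr hq ?_ ?_ ?_ ?_ <;>
    · intro w w' _ _ e
      simp only [hV, Prod.mk.injEq] at e ⊢
      tauto
  have d5 : CH q (cP t s t₁ r) V = Real.log M - etaP M q Z v₀ v₁ t s t₁ r := by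
    unfold etaP
    ring
  linarith

/-- The functional `X` is nearly determined by the positions of the two lines. -/
lemma PCfg.X_le {T : Type} (h : PCfg M q Z v₀ v₁ u₀ u₁ t s t₁ r L S K G D) {W : Ω → T}
    (hW : ∀ w w', 0 < q w → 0 < q w' → W w = W w' →
      t w = t w' ∧ s w = s w' ∧ t₁ w = t₁ w' ∧ r w = r w' ∧
      rd (pos M (u₀ w) (v₀ w) (t₁ w)) = rd (pos M (u₀ w') (v₀ w') (t₁ w')) ∧
      rd (pos M (u₁ w) (v₁ w) (r w)) = rd (pos M (u₁ w') (v₁ w') (r w'))) :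
    CH q (fun w => xf M (u₀ w) (v₀ w) (s w) (cP t s t₁ r w) (v₁ w)) W ≤ d * (D + 3) := by
  have hM0 : (0 : ℝ) < M := by exact_mod_cast h.hM
  have h1 := CH_le_vec h.hq h.h1 (fun w => xf M (u₀ w) (v₀ w) (s w) (cP t s t₁ r w) (v₁ w)) W
    (fun w => 8 * (1 + |kap (t w) (s w) (t₁ w)|))
    (fun w w' a b e k => by
      obtain ⟨e1, e2, e3, e4, e5, e6⟩ := hW w w' a b e
      have f0 := rd_close e5 k
      have f1 := rd_close e6 k
      have g0 := rd_close (h.cross w a) k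
      have g1 := rd_close (h.cross w' b) k
      have hc : cP t s t₁ r w' = cP t s t₁ r w := by
        unfold cP
        rw [e1, e2, e3, e4]
      set κ := kap (t w) (s w) (t₁ w) with hκ
      set c := cP t s t₁ r w with hcd
      have hct := ct_spec (t w) (s w) (t₁ w) (r w)
      have hcf : (c : ℝ) = κ * ((r w : ℝ) - t w) - (κ * ((r w : ℝ) - t w) - c) := by ring
      set f : ℝ := κ * ((r w : ℝ) - t w) - c with hf
      have hf1 : |f| ≤ 1 := by
        have i1 : (c : ℝ) ≤ κ * ((r w : ℝ) - t w) := hct.1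
        have i2 : κ * ((r w : ℝ) - t w) < c + 1 := hct.2
        rw [abs_le]
        constructor <;> linarith
      have hh : |(hat (t w) (s w) (t₁ w) : ℝ) - t₁ w| ≤ 2 := by
        obtain ⟨_, _, i3, i4⟩ := hat_spec (t w) (s w) (t₁ w)
        have i3' : (t₁ w : ℝ) ≤ hat (t w) (s w) (t₁ w) := by exact_mod_cast i3
        have i4' : (hat (t w) (s w) (t₁ w) : ℝ) ≤ t₁ w + 2 := by exact_mod_cast i4
        exact abs_le.mpr ⟨by linarith, by linarith⟩
      have p0 := pos_lin M (u₀ w) (v₀ w) (t w) (s w) (t₁ w) k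
      have p1 := pos_lin M (u₀ w') (v₀ w') (t w) (s w) (t₁ w) k
      rw [← e1] at g1
      rw [← e3] at f0
      rw [← e4] at f1
      have key := var_le (κ := κ)
        (p₀ := pos M (u₀ w) (v₀ w) (t₁ w) k) (p₀' := pos M (u₀ w') (v₀ w') (t₁ w) k)
        (q₀ := pos M (u₀ w) (v₀ w) (s w) k + (c : ℝ) / M * v₁ w k)
        (q₀' := pos M (u₀ w') (v₀ w') (s w) k + (c : ℝ) / M * v₁ w' k)
        (w := pos M (u₀ w) (v₀ w) (t w) k) (w' := pos M (u₀ w') (v₀ w') (t w) k)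
        (e := pos M (u₁ w) (v₁ w) (t w) k) (e' := pos M (u₁ w') (v₁ w') (t w) k)
        (b := pos M (u₁ w) (v₁ w) (r w) k) (b' := pos M (u₁ w') (v₁ w') (r w) k)
        (f := f) (v₁ := v₁ w k) (v₁' := v₁ w' k) (M := M)
        (hv := (hat (t w) (s w) (t₁ w) : ℝ) - t₁ w) (v₀ := v₀ w k) (v₀' := v₀ w' k)
        hM0 f0 hh (by exact_mod_cast h.hv₀ w a k) (by exact_mod_cast h.hv₀ w' b k) g0 g1 f1 hf1
        (by exact_mod_cast h.hv₁ w a k) (by exact_mod_cast h.hv₁ w' b k)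
        (by
          rw [p0, ← hκ]
          unfold pos
          rw [hcf]
          ring)
        (by
          rw [p1, ← hκ]
          unfold pos
          rw [hcf]
          ring)
      have fin := floor_sub_le_pair (pos M (u₀ w) (v₀ w) (s w) k + (c : ℝ) / M * v₁ w k)
        (pos M (u₀ w') (v₀ w') (s w) k + (c : ℝ) / M * v₁ w' k)
      have e7 : xf M (u₀ w) (v₀ w) (s w) c (v₁ w) k =
          ⌊pos M (u₀ w) (v₀ w) (s w) k + (c : ℝ) / M * v₁ w k⌋ := rfl
      have e8 : xf M (u₀ w') (v₀ w') (s w') (cP t s t₁ r w') (v₁ w') k =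
          ⌊pos M (u₀ w') (v₀ w') (s w) k + (c : ℝ) / M * v₁ w' k⌋ := by
        rw [hc, ← e2]
        rfl
      rw [e7, e8]
      refine fin.trans ?_
      linarith)
  refine h1.trans ?_
  have hd : (0 : ℝ) ≤ d := Nat.cast_nonneg d
  refine mul_le_mul_of_nonneg_left ?_ hd
  calc Ex q (fun w => Real.log (2 * (8 * (1 + |kap (t w) (s w) (t₁ w)|)) + 1)) ≤
      Ex q (fun w => 3 + Real.log (1 + |kap (t w) (s w) (t₁ w)|)) :=
        Ex_mono h.hq fun w _ => log_var (abs_nonneg _)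
    _ = 3 + Ex q (fun w => Real.log (1 + |kap (t w) (s w) (t₁ w)|)) := by
        rw [Ex_add, Ex_const h.h1]
    _ ≤ D + 3 := by linarith [h.D₁]

theorem PCfg.III (h : PCfg M q Z v₀ v₁ u₀ u₁ t s t₁ r L S K G D) {a lam B : ℝ}
    (hA : AKD d a lam B) (ha : 0 ≤ a) (hl : 0 ≤ lam) :
    hP q Z v₀ v₁ t s t₁ r + (a - 1) * xP M q Z v₀ v₁ u₀ t s t₁ r ≤
      a * abP M q Z v₀ v₁ u₀ u₁ t s t₁ r + d * (G + D + 3) + a * (D + 1) + a * d * (D + 3) +
        (a + lam) * (2 * K - etaP M q Z v₀ v₁ t s t₁ r + D + 1) + B := by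
  have hq := h.hq
  have main := derived (M := M) (q := q) (Z := Z) (T := fun w => (t w, s w, cP t s t₁ r w))
    (Y := fun w => xf M (u₀ w) (v₀ w) (s w) (cP t s t₁ r w) (v₁ w))
    (W := fun w => (v₀ w, v₁ w)) (v := v₀) (u := u₀) (τ := t₁) hA ha hl
    ⟨h.hM, h.hq, h.h1, h.hv₀, by
      intro w w' a b e
      refine h.hu₀ w w' a b ?_
      simp only [Prod.mk.injEq] at e ⊢
      tauto, h.ht₁⟩
    (by
      intro w w' a b e
      simp only [Prod.mk.injEq] at e ⊢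
      tauto)
    (by
      intro w w' a b e
      simp only [Prod.mk.injEq] at e ⊢
      obtain ⟨⟨e1, e2⟩, e3, e4, e5, e6⟩ := e
      have eu := h.hu₀ w w' a b (by simp only [Prod.mk.injEq]; exact ⟨e1, e3⟩)
      rw [e1, e2, e5, e6, eu])
  -- the term with the slices
  set V : Ω → ζ × (ℤ × ℤ × ℤ) × ℤ := fun w => (Z w, (t w, s w, cP t s t₁ r w), t₁ w) with hV
  set A : Ω → Fin d → ℤ := fun w => rd (pos M (u₀ w) (v₀ w) (t₁ w)) with hAd
  set Bq : Ω → Fin d → ℤ := fun w => rd (pos M (u₁ w) (v₁ w) (r w)) with hBd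
  set X : Ω → Fin d → ℤ := fun w => xf M (u₀ w) (v₀ w) (s w) (cP t s t₁ r w) (v₁ w) with hX
  have a1 := CH_le_add hq (fun w => (A w, X w)) r V
  have a2 := CH_le_add hq (fun w => (A w, X w)) (fun w => (A w, Bq w)) (fun w => (r w, V w))
  have a3 : CH q r V ≤ D + 1 := h.r_le (by
    intro w w' _ _ e
    simp only [hV, Prod.mk.injEq] at e
    tauto)
  have a4 : CH q (fun w => (A w, Bq w)) (fun w => (r w, V w)) ≤
      abP M q Z v₀ v₁ u₀ u₁ t s t₁ r := by
    refine CH_mono_cond hq ?_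
    intro w w' _ _ e
    simp only [hV, Prod.mk.injEq] at e ⊢
    tauto
  have a5 : CH q (fun w => (A w, X w)) (fun w => ((A w, Bq w), (r w, V w))) ≤
      CH q X (fun w => ((A w, Bq w), (r w, V w))) := by
    refine CH_mono_left hq ?_
    intro w w' _ _ e
    simp only [Prod.mk.injEq] at e ⊢
    tauto
  have a6 : CH q X (fun w => ((A w, Bq w), (r w, V w))) ≤ d * (D + 3) := h.X_le (by
    intro w w' _ _ e
    simp only [hV, hAd, hBd, Prod.mk.injEq] at e
    tauto)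
  -- the remaining term
  have a7 : CH q (fun w => (v₀ w, v₁ w)) (fun w => (v₀ w, Z w, (t w, s w, cP t s t₁ r w), X w)) ≤
      CH q v₁ (fun w => (v₀ w, Z w, (t w, s w, cP t s t₁ r w), X w)) := by
    refine CH_mono_left hq ?_
    intro w w' _ _ e
    simp only [Prod.mk.injEq] at e ⊢
    tauto
  have a8 := h.v1_le (W := fun w => (v₀ w, Z w, (t w, s w, cP t s t₁ r w), X w)) (by
    intro w w' a b e
    simp only [Prod.mk.injEq] at e
    obtain ⟨e1, e2, ⟨e3, e4, e5⟩, e6⟩ := e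
    have eu := h.hu₀ w w' a b (by simp only [Prod.mk.injEq]; exact ⟨e1, e2⟩)
    refine ⟨e4, e5, e6, fun k => ?_⟩
    rw [e1, e4, eu]
    simp)
  have a9 := h.K_le
  have k1 := mul_le_mul_of_nonneg_left (a1.trans (add_le_add a3 (a2.trans (add_le_add a4
    (a5.trans a6))))) ha
  have k2 := mul_le_mul_of_nonneg_left a9 (add_nonneg ha hl)
  unfold hP xP
  have k3 : a * (D + 1 + (abP M q Z v₀ v₁ u₀ u₁ t s t₁ r + d * (D + 3))) =
      a * abP M q Z v₀ v₁ u₀ u₁ t s t₁ r + a * (D + 1) + a * d * (D + 3) := by ring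
  rw [k3] at k1
  linarith

end Pool.Agent.H32.Dense
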