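import Mathlib
import Pool.Agent.H32.Dense.EntX

/-!
# Lines with dense sets of times: definitions

Unit of length: the width of the tubes. Times are integers `0 ≤ t < M`. A line is a pair `(u, v)`,
`u : Fin d → ℝ`, `v : Fin d → ℤ` with `|v k| ≤ M`; its position at time `t` is `u + (t / M) v`.
-/

set_option autoImplicit false

namespace Pool.Agent.H32.Dense

open Finset Real
open Pool.Agent.H49.Ent

/-- Rounding of a real vector. -/
noncomputable def rd {d : ℕ} (x : Fin d → ℝ) : Fin d → ℤ := fun k => ⌊x k⌋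

/-- Position of the line `(u, v)` at time `t` (the unit of time being `1 / M`). -/
noncomputable def pos {d : ℕ} (M : ℕ) (u : Fin d → ℝ) (v : Fin d → ℤ) (t : ℤ) : Fin d → ℝ :=
  fun k => u k + t / M * v k

/-- `log (M / |x - y|)`. -/
noncomputable def ell (M : ℕ) (x y : ℤ) : ℝ := Real.log (M / max |(x : ℝ) - y| 1)

/-- The least integer `≥ τ` different from `t` and `s`. -/
def hat (t s τ : ℤ) : ℤ :=
  if τ ≠ t ∧ τ ≠ s then τ else if τ + 1 ≠ t ∧ τ + 1 ≠ s then τ + 1 else τ + 2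

/-- The ratio `(τ - s) / (τ - t)`, never degenerate. -/
noncomputable def kap (t s τ : ℤ) : ℝ := ((hat t s τ : ℝ) - s) / ((hat t s τ : ℝ) - t)

/-- The coefficient `c`, rounded. -/
noncomputable def ct (t s τ r : ℤ) : ℤ := ⌊kap t s τ * ((r : ℝ) - t)⌋

/-- The functional `l₀(s) + (c / M) v₁`, rounded. -/
noncomputable def xf {d : ℕ} (M : ℕ) (u₀ : Fin d → ℝ) (v₀ : Fin d → ℤ) (s c : ℤ)
    (v₁ : Fin d → ℤ) : Fin d → ℤ :=
  rd fun k => pos M u₀ v₀ s k + (c : ℝ) / M * v₁ k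

/-- A random line with a random time: `Z` is a variable on which everything is conditioned. -/
structure IsFam {d : ℕ} {Ω : Type} [Fintype Ω] {ζ : Type} (M : ℕ) (p : Ω → ℝ) (Z : Ω → ζ)
    (v : Ω → Fin d → ℤ) (u : Ω → Fin d → ℝ) (τ : Ω → ℤ) : Prop where
  hM : 0 < M
  hp : ∀ ω, 0 ≤ p ω
  h1 : ∑ ω, p ω = 1
  hv : ∀ ω, 0 < p ω → ∀ k, |v ω k| ≤ M
  hu : Det p (fun ω => (v ω, Z ω)) u
  hτ : ∀ ω, 0 < p ω → 0 ≤ τ ω ∧ τ ω < M

/-- The entropy of the slice at the random time. -/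
noncomputable def Sf {d : ℕ} {Ω : Type} [Fintype Ω] {ζ : Type} (M : ℕ) (p : Ω → ℝ) (Z : Ω → ζ)
    (v : Ω → Fin d → ℤ) (u : Ω → Fin d → ℝ) (τ : Ω → ℤ) : ℝ :=
  CH p (fun ω => rd (pos M (u ω) (v ω) (τ ω))) (fun ω => (Z ω, τ ω))

/-- The information of the time given `b`. -/
noncomputable def Kf {Ω : Type*} [Fintype Ω] {β : Type*} (M : ℕ) (p : Ω → ℝ) (b : Ω → β)
    (τ : Ω → ℤ) : ℝ := Real.log M - CH p τ b

/-- Two copies, conditionally independent given `b`. -/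
noncomputable def dbl {Ω : Type*} [Fintype Ω] {β : Type*} (p : Ω → ℝ) (b : Ω → β) :
    Ω × Ω → ℝ := glue p p b b

/-- Three copies, conditionally independent given `b`. -/
noncomputable def tri {Ω : Type*} [Fintype Ω] {β : Type*} (p : Ω → ℝ) (b : Ω → β) :
    (Ω × Ω) × Ω → ℝ := glue (dbl p b) p (fun w => b w.1) b

/-- Logarithmic energy of the times given `b`. -/
noncomputable def Gf {Ω : Type*} [Fintype Ω] {β : Type*} (M : ℕ) (p : Ω → ℝ) (b : Ω → β)
    (τ : Ω → ℤ) : ℝ := Ex (dbl p b) (fun w => ell M (τ w.1) (τ w.2))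

/-- Mean logarithm of the ratio of two distances. -/
noncomputable def Df {Ω : Type*} [Fintype Ω] {β : Type*} (p : Ω → ℝ) (b : Ω → β)
    (τ : Ω → ℤ) : ℝ :=
  Ex (tri p b) (fun w => Real.log (1 + |kap (τ w.1.1) (τ w.1.2) (τ w.2)|))

/-- The arithmetic Kakeya inequality for random lines with random times, exponent `a`. -/
def AKD (d : ℕ) (a lam B : ℝ) : Prop :=
  ∀ (M : ℕ) (Ω : Type) [Fintype Ω] (ζ : Type) (p : Ω → ℝ) (Z : Ω → ζ) (v : Ω → Fin d → ℤ)
    (u : Ω → Fin d → ℝ) (τ : Ω → ℤ), IsFam M p Z v u τ →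
    CH p v Z ≤ a * Sf M p Z v u τ + lam * Kf M p (fun ω => (v ω, Z ω)) τ + B

end Pool.Agent.H32.Dense
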