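import Pool.Agent.H32.Dense.Marg
import Pool.Agent.H32.Dense.Defs

/-!
# The configurations of crossing lines with independent times
-/

set_option autoImplicit false

namespace Pool.Agent.H32.Dense

open Finset Real
open Pool.Agent.H49.Ent

section Copies

variable {Ω : Type*} [Fintype Ω] {β S T U V : Type*} {p : Ω → ℝ} {b : Ω → β}

lemma dbl_nonneg (hp : ∀ ω, 0 ≤ p ω) (w : Ω × Ω) : 0 ≤ dbl p b w := glue_nonneg hp hp w

lemma dbl_fst (hp : ∀ ω, 0 ≤ p ω) : Marg (dbl p b) p (fun w => w.1) :=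
  marg_fst hp (fun _ => rfl)

lemma dbl_snd (hp : ∀ ω, 0 ≤ p ω) : Marg (dbl p b) p (fun w => w.2) :=
  marg_snd hp (fun _ => rfl)

lemma dbl_law (hp : ∀ ω, 0 ≤ p ω) (z : β) :
    law (dbl p b) (fun w => b w.1) z = law p b z := (dbl_fst hp).law b z

lemma dbl_eq {w : Ω × Ω} (hp : ∀ ω, 0 ≤ p ω) (h : 0 < dbl p b w) : b w.1 = b w.2 :=
  ((glue_pos_iff hp hp w).mp h).2.2

/-- The law of two copies is symmetric. -/
lemma dbl_swap (p : Ω → ℝ) (b : Ω → β) (x y : Ω) : dbl p b (x, y) = dbl p b (y, x) := by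
  unfold dbl glue
  by_cases h : b x = b y
  · simp only [h, if_true]
    ring
  · simp only [h, if_false, Ne.symm h]

lemma dbl_symm (p : Ω → ℝ) (b : Ω → β) : Marg (dbl p b) (dbl p b) (fun w => (w.2, w.1)) := by
  classical
  rintro ⟨x, y⟩
  rw [Finset.sum_eq_single (y, x)]
  · simp [dbl_swap p b x y]
  · rintro ⟨x', y'⟩ _ h
    rw [if_neg]
    simp only [Prod.mk.injEq, ne_eq] at h ⊢
    tauto
  · intro h
    exact absurd (Finset.mem_univ _) h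

lemma tri_nonneg (hp : ∀ ω, 0 ≤ p ω) (w : (Ω × Ω) × Ω) : 0 ≤ tri p b w :=
  glue_nonneg (dbl_nonneg hp) hp w

lemma tri_fst (hp : ∀ ω, 0 ≤ p ω) : Marg (tri p b) (dbl p b) (fun w => w.1) :=
  marg_fst (dbl_nonneg hp) (dbl_law hp)

lemma tri_1 (hp : ∀ ω, 0 ≤ p ω) : Marg (tri p b) p (fun w => w.1.1) :=
  (tri_fst hp).comp (dbl_fst hp)

lemma tri_2 (hp : ∀ ω, 0 ≤ p ω) : Marg (tri p b) p (fun w => w.1.2) :=
  (tri_fst hp).comp (dbl_snd hp)

lemma tri_3 (hp : ∀ ω, 0 ≤ p ω) : Marg (tri p b) p (fun w => w.2) :=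
  marg_snd hp (dbl_law hp)

lemma tri_eq_form (hp : ∀ ω, 0 ≤ p ω) (x y z : Ω) :
    tri p b ((x, y), z) = (open Classical in if b x = b y ∧ b x = b z then
      p x * p y * p z / (law p b (b x)) ^ 2 else 0) := by
  classical
  have h0 : tri p b ((x, y), z) = if b x = b z then dbl p b (x, y) * p z / law p b (b x) else 0 := by
    unfold tri glue
    simp only [dbl_law hp]
  have h1 : dbl p b (x, y) = if b x = b y then p x * p y / law p b (b x) else 0 := rfl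
  rw [h0, h1]
  by_cases h1 : b x = b y
  · by_cases h2 : b x = b z
    · rw [if_pos h2, if_pos h1, if_pos ⟨h1, h2⟩]
      rcases (law_nonneg hp b (b x)).eq_or_lt with h0 | h0
      · rw [← h0]; simp
      · field_simp
    · rw [if_neg h2, if_neg (fun h => h2 h.2)]
  · rw [if_neg (c := b x = b y ∧ b x = b z) (fun h => h1 h.1)]
    simp [h1]

lemma tri_eq12 (hp : ∀ ω, 0 ≤ p ω) {w : (Ω × Ω) × Ω} (h : 0 < tri p b w) : b w.1.1 = b w.1.2 :=
  dbl_eq hp ((tri_fst hp).pos (tri_nonneg hp) h)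

lemma tri_eq13 (hp : ∀ ω, 0 ≤ p ω) {w : (Ω × Ω) × Ω} (h : 0 < tri p b w) : b w.1.1 = b w.2 :=
  ((glue_pos_iff (dbl_nonneg hp) hp w).mp h).2.2

lemma marg_of_equiv {Ω' : Type*} [Fintype Ω'] {q : Ω' → ℝ} {r : Ω → ℝ} (e : Ω' ≃ Ω)
    (h : ∀ w, q w = r (e w)) : Marg q r (fun w => e w) := by
  classical
  intro ω
  rw [Finset.sum_eq_single (e.symm ω)]
  · simp [h]
  · intro w _ hw
    rw [if_neg]
    intro h'
    exact hw (by rw [← h', e.symm_apply_apply])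
  · intro h
    exact absurd (Finset.mem_univ _) h

/-- Swap of the first two copies. -/
lemma tri_swap12 (hp : ∀ ω, 0 ≤ p ω) :
    Marg (tri p b) (tri p b) (fun w => ((w.1.2, w.1.1), w.2)) := by
  classical
  refine marg_of_equiv ((Equiv.prodComm Ω Ω).prodCongr (Equiv.refl Ω)) ?_
  rintro ⟨⟨x, y⟩, z⟩
  simp only [Equiv.prodCongr_apply, Prod.map_apply, Equiv.prodComm_apply, Prod.swap_prod_mk,
    Equiv.refl_apply]
  rw [tri_eq_form hp, tri_eq_form hp]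
  by_cases h : b x = b y
  · simp only [h]
    congr 1
    ring
  · rw [if_neg (fun h' => h h'.1), if_neg (fun h' => h h'.1.symm)]

/-- Cyclic permutation of the copies. -/
lemma tri_cycle (hp : ∀ ω, 0 ≤ p ω) :
    Marg (tri p b) (tri p b) (fun w => ((w.1.2, w.2), w.1.1)) := by
  classical
  refine marg_of_equiv (⟨fun w => ((w.1.2, w.2), w.1.1), fun w => ((w.2, w.1.1), w.1.2),
    fun w => rfl, fun w => rfl⟩ : (Ω × Ω) × Ω ≃ (Ω × Ω) × Ω) ?_
  rintro ⟨⟨x, y⟩, z⟩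
  simp only [Equiv.coe_fn_mk]
  rw [tri_eq_form hp, tri_eq_form hp]
  by_cases h : b x = b y
  · by_cases h' : b x = b z
    · rw [if_pos ⟨h, h'⟩, if_pos ⟨h ▸ h', h.symm⟩, h]
      congr 1
      ring
    · rw [if_neg (fun hh => h' hh.2), if_neg (fun hh => h' (h.trans hh.1))]
  · rw [if_neg (fun hh => h hh.1), if_neg (fun hh => h hh.2.symm)]

/-- The third copy is independent of the first two given `b`. -/
lemma CH_tri_3 (hp : ∀ ω, 0 ≤ p ω) (X : Ω → S) (W : Ω × Ω → V) :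
    CH (tri p b) (fun w => X w.2) (fun w => (b w.2, W w.1)) = CH p X b :=
  CH_glue_snd (dbl_nonneg hp) hp (dbl_law hp) X W (fun _ _ _ _ h => h)

lemma CH_dbl_2 (hp : ∀ ω, 0 ≤ p ω) (X : Ω → S) (W : Ω → V) :
    CH (dbl p b) (fun w => X w.2) (fun w => (b w.2, W w.1)) = CH p X b :=
  CH_glue_snd hp hp (fun _ => rfl) X W (fun _ _ _ _ h => h)

lemma CH_dbl_1 (hp : ∀ ω, 0 ≤ p ω) (X : Ω → S) (W : Ω → V) :
    CH (dbl p b) (fun w => X w.1) (fun w => (b w.1, W w.2)) = CH p X b :=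
  CH_glue_fst hp hp (fun _ => rfl) X W (fun _ _ _ _ h => h)

end Copies

/-! ### The variable `a`: conditioning, time and rounded position -/

variable {d : ℕ} {Ω : Type} [Fintype Ω] {ζ : Type}

/-- Conditioning, time, rounded position. -/
noncomputable def av (M : ℕ) (Z : Ω → ζ) (v : Ω → Fin d → ℤ) (u : Ω → Fin d → ℝ) (τ : Ω → ℤ)
    (ω : Ω) : (ζ × ℤ) × (Fin d → ℤ) := ((Z ω, τ ω), rd (pos M (u ω) (v ω) (τ ω)))

/-- The variable determining the line. -/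
def bv (Z : Ω → ζ) (v : Ω → Fin d → ℤ) (ω : Ω) : (Fin d → ℤ) × ζ := (v ω, Z ω)

/-- Two lines crossing at the time `t = τ w.1.1.1 = τ w.2.1`; further times `τ w.1.1.2` and
`τ w.1.2` of the first line, `τ w.2.2` of the second. -/
noncomputable def pP (M : ℕ) (p : Ω → ℝ) (Z : Ω → ζ) (v : Ω → Fin d → ℤ) (u : Ω → Fin d → ℝ)
    (τ : Ω → ℤ) : ((Ω × Ω) × Ω) × (Ω × Ω) → ℝ :=
  glue (tri p (bv Z v)) (dbl p (bv Z v)) (fun w => av M Z v u τ w.1.1)
    (fun w => av M Z v u τ w.1)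

/-- A third line crossing the first one at the time `s = τ w.1.1.1.2 = τ w.2.1.1`. -/
noncomputable def pC (M : ℕ) (p : Ω → ℝ) (Z : Ω → ζ) (v : Ω → Fin d → ℤ) (u : Ω → Fin d → ℝ)
    (τ : Ω → ℤ) : (((Ω × Ω) × Ω) × (Ω × Ω)) × ((Ω × Ω) × Ω) → ℝ :=
  glue (pP M p Z v u τ) (tri p (bv Z v)) (fun w => av M Z v u τ w.1.1.2)
    (fun w => av M Z v u τ w.1.1)

variable {M : ℕ} {p : Ω → ℝ} {Z : Ω → ζ} {v : Ω → Fin d → ℤ} {u : Ω → Fin d → ℝ} {τ : Ω → ℤ}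

lemma IsFam.av_det (h : IsFam M p Z v u τ) : Det p (fun ω => (bv Z v ω, τ ω)) (av M Z v u τ) := by
  intro ω ω' a b e
  simp only [bv, Prod.mk.injEq] at e
  have hu := h.hu ω ω' a b (by simp only [Prod.mk.injEq]; exact e.1)
  unfold av
  rw [e.1.2, e.2, e.1.1, hu]

lemma lawP (hp : ∀ ω, 0 ≤ p ω) (z : (ζ × ℤ) × (Fin d → ℤ)) :
    law (tri p (bv Z v)) (fun w => av M Z v u τ w.1.1) z =
      law (dbl p (bv Z v)) (fun w => av M Z v u τ w.1) z := by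
  rw [(tri_1 hp).law, (dbl_fst hp).law]

lemma pP_nonneg (hp : ∀ ω, 0 ≤ p ω) (w : ((Ω × Ω) × Ω) × (Ω × Ω)) : 0 ≤ pP M p Z v u τ w :=
  glue_nonneg (tri_nonneg hp) (dbl_nonneg hp) w

lemma pP_fst (hp : ∀ ω, 0 ≤ p ω) : Marg (pP M p Z v u τ) (tri p (bv Z v)) (fun w => w.1) :=
  marg_fst (tri_nonneg hp) (lawP hp)

lemma pP_snd (hp : ∀ ω, 0 ≤ p ω) : Marg (pP M p Z v u τ) (dbl p (bv Z v)) (fun w => w.2) :=
  marg_snd (dbl_nonneg hp) (lawP hp)

lemma lawC (hp : ∀ ω, 0 ≤ p ω) (z : (ζ × ℤ) × (Fin d → ℤ)) :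
    law (pP M p Z v u τ) (fun w => av M Z v u τ w.1.1.2) z =
      law (tri p (bv Z v)) (fun w => av M Z v u τ w.1.1) z := by
  rw [((pP_fst hp).comp (tri_2 hp)).law, (tri_1 hp).law]

lemma pC_nonneg (hp : ∀ ω, 0 ≤ p ω) (w : (((Ω × Ω) × Ω) × (Ω × Ω)) × ((Ω × Ω) × Ω)) :
    0 ≤ pC M p Z v u τ w :=
  glue_nonneg (pP_nonneg hp) (tri_nonneg hp) w

lemma pC_fst (hp : ∀ ω, 0 ≤ p ω) :
    Marg (pC M p Z v u τ) (pP M p Z v u τ) (fun w => w.1) :=
  marg_fst (pP_nonneg hp) (lawC hp)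

lemma pC_snd (hp : ∀ ω, 0 ≤ p ω) :
    Marg (pC M p Z v u τ) (tri p (bv Z v)) (fun w => w.2) :=
  marg_snd (tri_nonneg hp) (lawC hp)

/-- The first line and the third line, which cross at the time `s`. -/
lemma pC_02 (hp : ∀ ω, 0 ≤ p ω) :
    Marg (pC M p Z v u τ) (pP M p Z v u τ)
      (fun w => (((w.1.1.1.2, w.1.1.2), w.1.1.1.1), w.2.1)) := by
  have h1 : Marg (pP M p Z v u τ) (tri p (bv Z v)) (fun w => ((w.1.1.2, w.1.2), w.1.1.1)) :=
    (pP_fst hp).comp (tri_cycle hp)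
  exact Marg.glue (Z₁ := fun w : (Ω × Ω) × Ω => av M Z v u τ w.1.1)
    (Z₂ := fun w : Ω × Ω => av M Z v u τ w.1) h1 (tri_fst hp)

end Pool.Agent.H32.Dense
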