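import Pool.Agent.H32.Dense.EntX

/-!
# Marginals and conditional independence
-/

set_option autoImplicit false

namespace Pool.Agent.H32.Dense

open Finset Real
open Pool.Agent.H49.Ent

variable {Ω Ω' Ω'' : Type*} [Fintype Ω] [Fintype Ω'] [Fintype Ω''] {S T U V W : Type*}

open Classical in
/-- `p` is the image of `q` under `pr`. -/
def Marg (q : Ω' → ℝ) (p : Ω → ℝ) (pr : Ω' → Ω) : Prop :=
  ∀ ω, ∑ ω', (if pr ω' = ω then q ω' else 0) = p ω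

omit [Fintype Ω] in
lemma Marg.ex [Fintype Ω] {q : Ω' → ℝ} {p : Ω → ℝ} {pr : Ω' → Ω} (h : Marg q p pr) (f : Ω → ℝ) :
    Ex q (fun w => f (pr w)) = Ex p f := by
  classical
  unfold Ex
  have : ∀ ω, p ω * f ω = ∑ ω', if pr ω' = ω then q ω' * f (pr ω') else 0 := by
    intro ω
    rw [← h ω, Finset.sum_mul]
    refine Finset.sum_congr rfl fun ω' _ => ?_
    by_cases h' : pr ω' = ω
    · simp [h']
    · simp [h']
  simp_rw [this]
  rw [Finset.sum_comm]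
  refine Finset.sum_congr rfl fun ω' _ => ?_
  simp

lemma Marg.id (p : Ω → ℝ) : Marg p p (fun ω => ω) := by
  classical
  intro ω
  simp

lemma Marg.comp {q : Ω'' → ℝ} {r : Ω' → ℝ} {p : Ω → ℝ} {pr : Ω'' → Ω'} {pr' : Ω' → Ω}
    (h : Marg q r pr) (h' : Marg r p pr') : Marg q p (fun w => pr' (pr w)) := by
  classical
  intro ω
  have h1 := h.ex (fun w => if pr' w = ω then 1 else 0)
  have h2 := h' ω
  unfold Ex at h1
  rw [← h2]
  have e1 : ∀ w, q w * (if pr' (pr w) = ω then (1 : ℝ) else 0) = if pr' (pr w) = ω then q w else 0 := by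
    intro w; split_ifs <;> simp
  have e2 : ∀ w, r w * (if pr' w = ω then (1 : ℝ) else 0) = if pr' w = ω then r w else 0 := by
    intro w; split_ifs <;> simp
  simp_rw [e1, e2] at h1
  exact h1

lemma Marg.H {q : Ω' → ℝ} {p : Ω → ℝ} {pr : Ω' → Ω} (h : Marg q p pr) (X : Ω → S) :
    H q (fun w => X (pr w)) = H p X :=
  H_eq_of_marginal pr (fun ω => by
    have := h ω
    convert this) X

lemma Marg.CH {q : Ω' → ℝ} {p : Ω → ℝ} {pr : Ω' → Ω} (h : Marg q p pr) (X : Ω → S) (Y : Ω → T) :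
    CH q (fun w => X (pr w)) (fun w => Y (pr w)) = CH p X Y := by
  unfold Pool.Agent.H49.Ent.CH
  rw [h.H Y, h.H (fun ω => (X ω, Y ω))]

lemma Marg.law {q : Ω' → ℝ} {p : Ω → ℝ} {pr : Ω' → Ω} (h : Marg q p pr) (X : Ω → S) (x : S) :
    law q (fun w => X (pr w)) x = law p X x := by
  classical
  have h1 := h.ex (fun w => if X w = x then 1 else 0)
  unfold Ex at h1
  unfold Pool.Agent.H49.Ent.law
  simpa using h1

lemma Marg.pos {q : Ω' → ℝ} {p : Ω → ℝ} {pr : Ω' → Ω} (h : Marg q p pr) (hq : ∀ w, 0 ≤ q w)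
    {w : Ω'} (hw : 0 < q w) : 0 < p (pr w) := by
  classical
  rw [← h (pr w)]
  refine lt_of_lt_of_le hw ?_
  have := Finset.single_le_sum (f := fun ω' => if pr ω' = pr w then q ω' else 0)
    (fun i _ => by split_ifs; exact hq i; exact le_rfl) (Finset.mem_univ w)
  simpa using this

lemma Marg.det {q : Ω' → ℝ} {p : Ω → ℝ} {pr : Ω' → Ω} (h : Marg q p pr) (hq : ∀ w, 0 ≤ q w)
    {X : Ω → S} {Y : Ω → T} (hd : Det p X Y) :
    Det q (fun w => X (pr w)) (fun w => Y (pr w)) :=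
  fun w w' a b e => hd _ _ (h.pos hq a) (h.pos hq b) e

lemma Marg.sum {q : Ω' → ℝ} {p : Ω → ℝ} {pr : Ω' → Ω} (h : Marg q p pr) :
    ∑ w, q w = ∑ ω, p ω := by
  have := h.ex (fun _ => 1)
  unfold Ex at this
  simpa using this

section Glue

variable {Ω₁ Ω₂ : Type*} [Fintype Ω₁] [Fintype Ω₂]
variable {p₁ : Ω₁ → ℝ} {p₂ : Ω₂ → ℝ} {Z₁ : Ω₁ → T} {Z₂ : Ω₂ → T}

lemma marg_fst (h₁ : ∀ ω, 0 ≤ p₁ ω) (hZ : ∀ z, law p₁ Z₁ z = law p₂ Z₂ z) :
    Marg (glue p₁ p₂ Z₁ Z₂) p₁ (fun w => w.1) := by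
  classical
  intro ω
  rw [Fintype.sum_prod_type, Finset.sum_eq_single ω]
  · simpa using glue_fst h₁ hZ ω
  · intro b _ hb; simp [hb]
  · intro h; exact absurd (Finset.mem_univ _) h

lemma marg_snd (h₂ : ∀ ω, 0 ≤ p₂ ω) (hZ : ∀ z, law p₁ Z₁ z = law p₂ Z₂ z) :
    Marg (glue p₁ p₂ Z₁ Z₂) p₂ (fun w => w.2) := by
  classical
  intro ω
  rw [Fintype.sum_prod_type, Finset.sum_comm, Finset.sum_eq_single ω]
  · simpa using glue_snd h₂ hZ ω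
  · intro b _ hb; simp [hb]
  · intro h; exact absurd (Finset.mem_univ _) h

/-- Images of gluings. -/
lemma Marg.glue {Ω₁' Ω₂' : Type*} [Fintype Ω₁'] [Fintype Ω₂'] {q₁ : Ω₁' → ℝ} {q₂ : Ω₂' → ℝ}
    {pr₁ : Ω₁' → Ω₁} {pr₂ : Ω₂' → Ω₂} (h₁ : Marg q₁ p₁ pr₁) (h₂ : Marg q₂ p₂ pr₂) :
    Marg (Pool.Agent.H49.Ent.glue q₁ q₂ (fun w => Z₁ (pr₁ w)) (fun w => Z₂ (pr₂ w)))
      (Pool.Agent.H49.Ent.glue p₁ p₂ Z₁ Z₂) (fun w => (pr₁ w.1, pr₂ w.2)) := by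
  classical
  rintro ⟨x, y⟩
  unfold Pool.Agent.H49.Ent.glue
  simp only [h₁.law Z₁, Prod.mk.injEq]
  rw [← h₁ x, ← h₂ y, Finset.sum_mul_sum, Fintype.sum_prod_type]
  by_cases hz : Z₁ x = Z₂ y
  · rw [if_pos hz, Finset.sum_div]
    refine Finset.sum_congr rfl fun i _ => ?_
    rw [Finset.sum_div]
    refine Finset.sum_congr rfl fun j _ => ?_
    by_cases h1 : pr₁ i = x
    · by_cases h2 : pr₂ j = y
      · simp [h1, h2, hz]
      · simp [h2]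
    · simp [h1]
  · rw [if_neg hz]
    refine Finset.sum_eq_zero fun i _ => Finset.sum_eq_zero fun j _ => ?_
    by_cases h1 : pr₁ i = x
    · by_cases h2 : pr₂ j = y
      · simp [h1, h2, hz]
      · simp [h2]
    · simp [h1]

/-- Conditional independence. -/
theorem CH_glue_snd (h₁ : ∀ ω, 0 ≤ p₁ ω) (h₂ : ∀ ω, 0 ≤ p₂ ω)
    (hZ : ∀ z, law p₁ Z₁ z = law p₂ Z₂ z) (X : Ω₂ → S) {Y : Ω₂ → U} (W : Ω₁ → V)
    (hY : Det p₂ Y Z₂) :
    CH (glue p₁ p₂ Z₁ Z₂) (fun w => X w.2) (fun w => (Y w.2, W w.1)) = CH p₂ X Y := by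
  have hg := glue_nonneg (Z₁ := Z₁) (Z₂ := Z₂) h₁ h₂
  have hd : ∀ w w', 0 < glue p₁ p₂ Z₁ Z₂ w → 0 < glue p₁ p₂ Z₁ Z₂ w' → Y w.2 = Y w'.2 →
      Z₁ w.1 = Z₁ w'.1 := by
    intro w w' a b e
    obtain ⟨_, a2, a3⟩ := (glue_pos_iff h₁ h₂ w).mp a
    obtain ⟨_, b2, b3⟩ := (glue_pos_iff h₁ h₂ w').mp b
    rw [a3, b3]
    exact hY _ _ a2 b2 e
  have e1 : H (glue p₁ p₂ Z₁ Z₂) (fun w => (Y w.2, W w.1)) =
      H p₁ (fun ω => (W ω, Z₁ ω)) + H p₂ Y - H p₁ Z₁ := by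
    rw [← H_glue_pair h₁ h₂ hZ (X := fun ω => (W ω, Z₁ ω)) (Y := Y)
      (fun _ _ _ _ e => (Prod.ext_iff.mp e).2) hY]
    refine H_congr hg ?_ ?_
    · intro w w' a b e
      simp only [Prod.mk.injEq] at e ⊢
      have := hd w w' a b
      tauto
    · intro w w' a b e
      simp only [Prod.mk.injEq] at e ⊢
      have := hd w w' a b
      tauto
  have e2 : H (glue p₁ p₂ Z₁ Z₂) (fun w => (X w.2, (Y w.2, W w.1))) =
      H p₁ (fun ω => (W ω, Z₁ ω)) + H p₂ (fun ω => (X ω, Y ω)) - H p₁ Z₁ := by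
    rw [← H_glue_pair h₁ h₂ hZ (X := fun ω => (W ω, Z₁ ω)) (Y := fun ω => (X ω, Y ω))
      (fun _ _ _ _ e => (Prod.ext_iff.mp e).2)
      (fun ω ω' a b e => hY ω ω' a b (Prod.ext_iff.mp e).2)]
    refine H_congr hg ?_ ?_
    · intro w w' a b e
      simp only [Prod.mk.injEq] at e ⊢
      have := hd w w' a b
      tauto
    · intro w w' a b e
      simp only [Prod.mk.injEq] at e ⊢
      have := hd w w' a b
      tauto
  unfold CH
  rw [e1, e2]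
  ring

/-- Conditional independence. -/
theorem CH_glue_fst (h₁ : ∀ ω, 0 ≤ p₁ ω) (h₂ : ∀ ω, 0 ≤ p₂ ω)
    (hZ : ∀ z, law p₁ Z₁ z = law p₂ Z₂ z) (X : Ω₁ → S) {Y : Ω₁ → U} (W : Ω₂ → V)
    (hY : Det p₁ Y Z₁) :
    CH (glue p₁ p₂ Z₁ Z₂) (fun w => X w.1) (fun w => (Y w.1, W w.2)) = CH p₁ X Y := by
  have hg := glue_nonneg (Z₁ := Z₁) (Z₂ := Z₂) h₁ h₂
  have hd : ∀ w w', 0 < glue p₁ p₂ Z₁ Z₂ w → 0 < glue p₁ p₂ Z₁ Z₂ w' → Y w.1 = Y w'.1 →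
      Z₂ w.2 = Z₂ w'.2 := by
    intro w w' a b e
    obtain ⟨a1, _, a3⟩ := (glue_pos_iff h₁ h₂ w).mp a
    obtain ⟨b1, _, b3⟩ := (glue_pos_iff h₁ h₂ w').mp b
    rw [← a3, ← b3]
    exact hY _ _ a1 b1 e
  have e1 : H (glue p₁ p₂ Z₁ Z₂) (fun w => (Y w.1, W w.2)) =
      H p₁ Y + H p₂ (fun ω => (W ω, Z₂ ω)) - H p₁ Z₁ := by
    rw [← H_glue_pair h₁ h₂ hZ (X := Y) (Y := fun ω => (W ω, Z₂ ω)) hY
      (fun _ _ _ _ e => (Prod.ext_iff.mp e).2)]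
    refine H_congr hg ?_ ?_
    · intro w w' a b e
      simp only [Prod.mk.injEq] at e ⊢
      have := hd w w' a b
      tauto
    · intro w w' a b e
      simp only [Prod.mk.injEq] at e ⊢
      have := hd w w' a b
      tauto
  have e2 : H (glue p₁ p₂ Z₁ Z₂) (fun w => (X w.1, (Y w.1, W w.2))) =
      H p₁ (fun ω => (X ω, Y ω)) + H p₂ (fun ω => (W ω, Z₂ ω)) - H p₁ Z₁ := by
    rw [← H_glue_pair h₁ h₂ hZ (X := fun ω => (X ω, Y ω)) (Y := fun ω => (W ω, Z₂ ω))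
      (fun ω ω' a b e => hY ω ω' a b (Prod.ext_iff.mp e).2)
      (fun _ _ _ _ e => (Prod.ext_iff.mp e).2)]
    refine H_congr hg ?_ ?_
    · intro w w' a b e
      simp only [Prod.mk.injEq] at e ⊢
      have := hd w w' a b
      tauto
    · intro w w' a b e
      simp only [Prod.mk.injEq] at e ⊢
      have := hd w w' a b
      tauto
  unfold CH
  rw [e1, e2]
  ring

end Glue

end Pool.Agent.H32.Dense
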