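import Pool.Agent.H32.Dense.Pair

/-!
# Conditioning on the value of a variable
-/

set_option autoImplicit false

namespace Pool.Agent.H32.Dense

open Finset Real
open Pool.Agent.H49.Ent

variable {Ω : Type*} [Fintype Ω] {S T U V : Type*}

theorem CH_split [DecidableEq U] {p : Ω → ℝ} (hp : ∀ ω, 0 ≤ p ω) (X : Ω → S) (W : Ω → T)
    (J : Ω → U) : CH p X (fun ω => (W ω, J ω)) =
      ∑ j ∈ univ.image J, law p J j * CH (cond p J j) X W := by
  have h1 : CH p X (fun ω => (W ω, J ω)) = CH p (fun ω => (X ω, W ω)) J - CH p W J := by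
    have e : H p (fun ω => (X ω, (W ω, J ω))) = H p (fun ω => ((X ω, W ω), J ω)) := by
      refine H_congr hp ?_ ?_ <;>
      · intro w w' _ _ e
        simp only [Prod.mk.injEq] at e ⊢
        tauto
    unfold CH
    rw [e]
    ring
  rw [h1, CH_eq_sum hp, CH_eq_sum hp, ← Finset.sum_sub_distrib]
  refine Finset.sum_congr rfl fun j _ => ?_
  unfold CH
  ring

theorem Ex_split [DecidableEq U] {p : Ω → ℝ} (hp : ∀ ω, 0 ≤ p ω) (f : Ω → ℝ)
    (J : Ω → U) : Ex p f = ∑ j ∈ univ.image J, law p J j * Ex (cond p J j) f := by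
  unfold Ex
  simp_rw [Finset.mul_sum]
  rw [Finset.sum_comm]
  refine Finset.sum_congr rfl fun ω _ => ?_
  rw [Finset.sum_eq_single (J ω)]
  · unfold Pool.Agent.H49.Ent.cond
    rw [if_pos rfl]
    rcases (hp ω).eq_or_lt with h0 | h0
    · simp [← h0]
    · have := law_pos hp J h0
      field_simp
  · intro j _ hj
    unfold Pool.Agent.H49.Ent.cond
    rw [if_neg (Ne.symm hj)]
    ring
  · intro h
    exact absurd (Finset.mem_image_of_mem _ (Finset.mem_univ ω)) h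

theorem sum_law_one [DecidableEq U] {p : Ω → ℝ} (h1 : ∑ ω, p ω = 1)
    (J : Ω → U) : ∑ j ∈ univ.image J, law p J j = 1 := by
  rw [sum_law, h1]

lemma IsFam.cond {d : ℕ} {Ω : Type} [Fintype Ω] {ζ : Type} {M : ℕ} {p : Ω → ℝ} {Z : Ω → ζ}
    {v : Ω → Fin d → ℤ} {u : Ω → Fin d → ℝ} {τ : Ω → ℤ} (h : IsFam M p Z v u τ) (J : Ω → U)
    {j : U} (hj : law p J j ≠ 0) : IsFam M (Pool.Agent.H49.Ent.cond p J j) Z v u τ where
  hM := h.hM
  hp := cond_nonneg h.hp J j
  h1 := sum_cond p J hj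
  hv := fun ω hω => h.hv ω ((cond_pos_iff h.hp J j ω).mp hω).1
  hu := fun ω ω' a b e => h.hu ω ω' ((cond_pos_iff h.hp J j ω).mp a).1
    ((cond_pos_iff h.hp J j ω').mp b).1 e
  hτ := fun ω hω => h.hτ ω ((cond_pos_iff h.hp J j ω).mp hω).1

/-- `H(τ | b)` as a mean logarithm. -/
lemma CH_eq_mean {p : Ω → ℝ} (hp : ∀ ω, 0 ≤ p ω) (X : Ω → S) (W : Ω → T) :
    CH p X W = Ex p (fun ω => -Real.log (law p (fun ω => (W ω, X ω)) (W ω, X ω) /
      law p W (W ω))) := by
  rw [CH_eq_neg_sum hp]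
  congr 1
  funext ω
  have : law p (fun ω => (X ω, W ω)) (X ω, W ω) = law p (fun ω => (W ω, X ω)) (W ω, X ω) := by
    classical
    unfold law
    refine Finset.sum_congr rfl fun ω' _ => ?_
    simp only [Prod.mk.injEq, and_comm]
  rw [this]

end Pool.Agent.H32.Dense
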