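import Pool.Agent.H32.Dense.EntX

/-!
# Entropy of integer variables with heavy tails
-/

set_option autoImplicit false

namespace Pool.Agent.H32.Dense

open Finset Real
open Pool.Agent.H49.Ent

variable {Ω : Type*} [Fintype Ω] {T : Type*}

/-- The entropy of a time is at most `log M`. -/
theorem CH_time_le {M : ℕ} {p : Ω → ℝ} (hp : ∀ ω, 0 ≤ p ω) (h1 : ∑ ω, p ω = 1)
    {τ : Ω → ℤ} (hτ : ∀ ω, 0 < p ω → 0 ≤ τ ω ∧ τ ω < M) (W : Ω → T) :
    CH p τ W ≤ Real.log M := by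
  have h := CH_le_card hp h1 τ W (fun _ => Finset.Ico 0 (M : ℤ)) (fun ω hω => by
    rw [Finset.mem_Ico]
    exact hτ ω hω)
  refine h.trans (le_of_eq ?_)
  rw [Ex_const h1, Int.card_Ico]
  simp

lemma rpow_step {x h : ℝ} (hh : 0 < h) (hx : h < x) :
    (1 / 100) * h * x ^ (-(101 / 100) : ℝ) ≤ (x - h) ^ (-(1 / 100) : ℝ) - x ^ (-(1 / 100) : ℝ) := by
  have hx0 : 0 < x := by linarith
  have hy : 0 < (x - h) / x := div_pos (by linarith) hx0
  have e1 : (x - h) ^ (-(1 / 100) : ℝ) = x ^ (-(1 / 100) : ℝ) * ((x - h) / x) ^ (-(1 / 100) : ℝ) := by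
    rw [← Real.mul_rpow hx0.le hy.le]
    congr 1
    field_simp
  have e2 : 1 + (1 / 100) * (h / x) ≤ ((x - h) / x) ^ (-(1 / 100) : ℝ) := by
    rw [Real.rpow_def_of_pos hy]
    have l1 := Real.log_le_sub_one_of_pos hy
    have l2 := Real.add_one_le_exp (Real.log ((x - h) / x) * -(1 / 100))
    have l3 : (x - h) / x - 1 = -(h / x) := by field_simp; ring
    rw [l3] at l1
    nlinarith
  have e3 : x ^ (-(101 / 100) : ℝ) = x ^ (-(1 / 100) : ℝ) / x := by
    have e0 : (-(101 / 100) : ℝ) = -(1 / 100) - 1 := by norm_num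
    rw [e0, Real.rpow_sub_one hx0.ne']
  have hpos : 0 < x ^ (-(1 / 100) : ℝ) := Real.rpow_pos_of_pos hx0 _
  rw [e1, e3]
  have := mul_le_mul_of_nonneg_left e2 hpos.le
  have e4 : (1 / 100) * h * (x ^ (-(1 / 100) : ℝ) / x) =
      x ^ (-(1 / 100) : ℝ) * ((1 / 100) * (h / x)) := by ring
  rw [e4]
  linarith

lemma sum_tail {M : ℕ} (hM : 0 < M) (n : ℕ) :
    ∑ k ∈ Finset.range n, (1 + (k : ℝ) / M) ^ (-(101 / 100) : ℝ) ≤ 101 * M := by
  have hM' : (1 : ℝ) ≤ M := by exact_mod_cast hM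
  have hM0 : (0 : ℝ) < M := by linarith
  have key : ∀ n : ℕ, ∑ k ∈ Finset.range (n + 1), (1 + (k : ℝ) / M) ^ (-(101 / 100) : ℝ) ≤
      1 + 100 * M * (1 - (1 + (n : ℝ) / M) ^ (-(1 / 100) : ℝ)) := by
    intro n
    induction n with
    | zero => simp
    | succ n ih =>
      rw [Finset.sum_range_succ]
      have h := rpow_step (x := 1 + ((n + 1 : ℕ) : ℝ) / M) (h := 1 / M) (by positivity) (by
        push_cast
        have : 0 ≤ (n : ℝ) / M := by positivity
        rw [add_div]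
        linarith)
      have e1 : 1 + ((n + 1 : ℕ) : ℝ) / M - 1 / M = 1 + (n : ℝ) / M := by
        push_cast
        ring
      rw [e1] at h
      have h' := mul_le_mul_of_nonneg_left h (by positivity : (0 : ℝ) ≤ 100 * M)
      have e2 : 100 * (M : ℝ) * (1 / 100 * (1 / M) * (1 + ((n + 1 : ℕ) : ℝ) / M) ^ (-(101 / 100) : ℝ)) =
          (1 + ((n + 1 : ℕ) : ℝ) / M) ^ (-(101 / 100) : ℝ) := by
        field_simp
      rw [e2] at h'
      linarith
  rcases n with _ | n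
  · simp
  · refine (key n).trans ?_
    have : 0 ≤ (1 + (n : ℝ) / M) ^ (-(1 / 100) : ℝ) := by positivity
    nlinarith

lemma sum_tail_int {M : ℕ} (hM : 0 < M) (F : Finset ℤ) :
    ∑ x ∈ F, (1 + |(x : ℝ)| / M) ^ (-(101 / 100) : ℝ) ≤ 202 * M := by
  classical
  have key : ∀ G : Finset ℤ, Set.InjOn Int.natAbs (G : Set ℤ) →
      ∑ x ∈ G, (1 + |(x : ℝ)| / M) ^ (-(101 / 100) : ℝ) ≤ 101 * M := by
    intro G hG
    have e1 : ∑ x ∈ G, (1 + |(x : ℝ)| / M) ^ (-(101 / 100) : ℝ) =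
        ∑ k ∈ G.image Int.natAbs, (1 + (k : ℝ) / M) ^ (-(101 / 100) : ℝ) := by
      rw [Finset.sum_image hG]
      refine Finset.sum_congr rfl fun x _ => ?_
      congr 3
      rw [Nat.cast_natAbs]
      simp
    obtain ⟨n, hn⟩ : ∃ n, G.image Int.natAbs ⊆ Finset.range n := by
      refine ⟨(G.image Int.natAbs).sup (fun k => k) + 1, fun k hk => ?_⟩
      rw [Finset.mem_range]
      exact Nat.lt_succ_of_le (Finset.le_sup (f := fun k => k) hk)
    rw [e1]
    exact (Finset.sum_le_sum_of_subset_of_nonneg hn (fun _ _ _ => by positivity)).trans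
      (sum_tail hM n)
  have h1 := key (F.filter fun x => 0 ≤ x) (by
    intro x hx y hy h
    simp only [coe_filter, Set.mem_ofPred_eq] at hx hy
    omega)
  have h2 := key (F.filter fun x => ¬ 0 ≤ x) (by
    intro x hx y hy h
    simp only [coe_filter, Set.mem_ofPred_eq] at hx hy
    omega)
  rw [← Finset.sum_filter_add_sum_filter_not F (fun x => 0 ≤ x)]
  linarith

/-- Heavy tails. -/
theorem CH_le_tail {M : ℕ} (hM : 0 < M) {p : Ω → ℝ} (hp : ∀ ω, 0 ≤ p ω) (h1 : ∑ ω, p ω = 1)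
    (X : Ω → ℤ) (W : Ω → T) :
    CH p X W ≤ Real.log M + 1.01 * Ex p (fun ω => Real.log (1 + |(X ω : ℝ)| / M)) + 6 := by
  have hM' : (1 : ℝ) ≤ M := by exact_mod_cast hM
  have hM0 : (0 : ℝ) < M := by linarith
  have h := CH_le_cross hp h1 X W
    (fun _ x => (202 * (M : ℝ))⁻¹ * (1 + |(x : ℝ)| / M) ^ (-(101 / 100) : ℝ))
    (fun ω _ => by positivity) (fun _ _ => by positivity)
    (fun ω _ F => by
      rw [← Finset.mul_sum, inv_mul_le_iff₀ (by positivity), mul_one]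
      exact sum_tail_int hM F)
  refine h.trans ?_
  have e1 : ∀ ω, -Real.log ((202 * (M : ℝ))⁻¹ * (1 + |(X ω : ℝ)| / M) ^ (-(101 / 100) : ℝ)) =
      (Real.log 202 + Real.log M) + 1.01 * Real.log (1 + |(X ω : ℝ)| / M) := by
    intro ω
    rw [Real.log_mul (by positivity) (by positivity), Real.log_inv,
      Real.log_mul (by norm_num) hM0.ne', Real.log_rpow (by positivity)]
    ring
  simp_rw [e1]
  rw [Ex_add, Ex_const h1, Ex_smul]
  have h6 : Real.log 202 ≤ 6 := by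
    rw [Real.log_le_iff_le_exp (by norm_num)]
    have := Real.exp_one_gt_d9
    calc (202 : ℝ) ≤ (2.7) ^ 6 := by norm_num
      _ ≤ (Real.exp 1) ^ 6 := by gcongr; linarith
      _ = Real.exp 6 := by rw [← Real.exp_nat_mul]; norm_num
  linarith

end Pool.Agent.H32.Dense
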