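import Pool.Agent.H32.Dense.Defs
import Pool.Agent.H53.Kak.Norm

/-!
# Interfaces: from the entropy inequality with random times to the inequality for tubes
-/

set_option autoImplicit false

namespace Pool.Agent.H32.Dense

open Finset Real MeasureTheory
open Pool.Agent.H49.Ent
open Pool.Agent.H53.Kak

/-- The entropy inequality with an additional term, the logarithmic energy of the times. -/
def AKG (d : ℕ) (a lam B₀ B₁ : ℝ) : Prop :=
  ∀ (M : ℕ) (Ω : Type) [Fintype Ω] (ζ : Type) (p : Ω → ℝ) (Z : Ω → ζ) (v : Ω → Fin d → ℤ)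
    (u : Ω → Fin d → ℝ) (τ : Ω → ℤ), IsFam M p Z v u τ →
    CH p v Z ≤ a * Sf M p Z v u τ + lam * Kf M p (fun ω => (v ω, Z ω)) τ + B₀ +
      B₁ * Gf M p (fun ω => (v ω, Z ω)) τ

/-- The counting form: `N` lines with distinct `v`, each with a set `A i` of times of density at
least `κ` and bounded logarithmic energy; at every time `j` the lines with `j ∈ A i` have at most
`R` positions. -/
def DenseBound (d : ℕ) (a lam : ℝ) : Prop :=
  ∀ G₀ : ℝ, ∃ C : ℝ, 0 < C ∧ ∀ (M N : ℕ) (u : Fin N → Fin d → ℝ) (v : Fin N → Fin d → ℤ)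
    (A : Fin N → Finset ℤ) (κ R : ℝ), 0 < M → 0 < κ → Function.Injective v →
    (∀ i k, |v i k| ≤ M) → (∀ i, A i ⊆ Finset.Ico 0 (M : ℤ)) → (∀ i, κ * M ≤ (A i).card) →
    (∀ i, ∀ x ∈ A i, ∑ y ∈ A i, ell M x y ≤ G₀ * (A i).card) →
    (∀ j : ℤ, (((univ.filter fun i => j ∈ A i).image fun i => rd (pos M (u i) (v i) j)).card : ℝ)
      ≤ R) →
    (N : ℝ) ≤ C * κ ^ (-lam) * R ^ a

/-- The discrete form of the inequality with density, with a small loss: `N` lines with distinct `v`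
on the grid of `2 ^ m` times, each with a set `A i` of times of density at least `κ`. -/
def DenseCount (d : ℕ) (a : ℝ) : Prop :=
  ∀ ε : ℝ, 0 < ε → ∃ c : ℝ, 0 < c ∧ ∀ (m N : ℕ) (u : Fin N → Fin d → ℝ) (v : Fin N → Fin d → ℤ)
    (A : Fin N → Finset ℤ) (κ : ℝ), 0 < κ → Function.Injective v →
    (∀ i k, |v i k| ≤ 2 ^ m) → (∀ i, A i ⊆ Finset.Ico 0 (2 ^ m : ℤ)) →
    (∀ i, κ * 2 ^ m ≤ (A i).card) →
    c * ((2 : ℝ) ^ m) ^ (-ε) * (2 ^ m * κ ^ (1 + d / a) * (N : ℝ) ^ (1 / a)) ≤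
      ∑ j ∈ Finset.Ico 0 (2 ^ m : ℤ),
        (((univ.filter fun i => j ∈ A i).image fun i => rd (pos (2 ^ m) (u i) (v i) j)).card : ℝ)

/-- The restricted form of the inequality for tubes, with a small loss. -/
def Restricted (d : ℕ) (a : ℝ) : Prop :=
  ∀ ε : ℝ, 0 < ε → ∃ c : ℝ, 0 < c ∧ ∀ δ : ℝ, 0 < δ → δ < 1 → ∀ (ι : Type) (S : Finset ι)
    (x₀ e : ι → E d), Fam δ e S → ∀ (X : Set (E d)), MeasurableSet X → ∀ lam : ℝ, 0 < lam →
    lam ≤ 1 →
    (∀ i ∈ S, ENNReal.ofReal (lam * δ ^ d) ≤ volume (X ∩ tube δ (x₀ i) (e i))) →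
    ENNReal.ofReal (c * δ ^ ε * (lam ^ (1 + d / a) * δ ^ d * (S.card : ℝ) ^ (1 / a))) ≤ volume X

end Pool.Agent.H32.Dense
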