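import Pool.Agent.H32.Dense.Pair
import Pool.Agent.H32.Dense.Iface

/-!
# Sign and size of the quantities attached to a family
-/

set_option autoImplicit false

namespace Pool.Agent.H32.Dense

open Finset Real
open Pool.Agent.H49.Ent

variable {d : ℕ} {Ω : Type} [Fintype Ω] {ζ : Type} {M : ℕ} {p : Ω → ℝ} {Z : Ω → ζ}
  {v : Ω → Fin d → ℤ} {u : Ω → Fin d → ℝ} {τ : Ω → ℤ}

lemma Kf_nonneg (h : IsFam M p Z v u τ) : 0 ≤ Kf M p (bv Z v) τ := by
  have := CH_time_le h.hp h.h1 h.hτ (bv Z v)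
  unfold Kf
  linarith

lemma Gf_nonneg (h : IsFam M p Z v u τ) : 0 ≤ Gf M p (bv Z v) τ := by
  refine Ex_nonneg (dbl_nonneg h.hp) fun w hw => ?_
  exact ell_nonneg h.hM (h.hτ _ ((dbl_fst h.hp).pos (dbl_nonneg h.hp) hw))
    (h.hτ _ ((dbl_snd h.hp).pos (dbl_nonneg h.hp) hw))

lemma Df_nonneg (h : IsFam M p Z v u τ) : 0 ≤ Df p (bv Z v) τ := by
  refine Ex_nonneg (tri_nonneg h.hp) fun w _ => ?_
  exact Real.log_nonneg (by linarith [abs_nonneg (kap (τ w.1.1) (τ w.1.2) (τ w.2))])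

/-- `δ ≤ G + 3`. -/
lemma Df_le (h : IsFam M p Z v u τ) : Df p (bv Z v) τ ≤ Gf M p (bv Z v) τ + 3 := by
  have hM1 : (1 : ℝ) ≤ M := by exact_mod_cast h.hM
  have h13 : Marg (tri p (bv Z v)) (dbl p (bv Z v)) (fun w => (w.1.1, w.2)) := by
    have h1 := (tri_cycle h.hp (b := bv Z v)).comp (tri_fst h.hp)
    have h2 := (tri_cycle h.hp (b := bv Z v)).comp h1
    have h3 := h2.comp (dbl_symm p (bv Z v))
    exact h3
  have h1 : Df p (bv Z v) τ ≤ Ex (tri p (bv Z v)) (fun w => ell M (τ w.1.1) (τ w.2) + 3) := by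
    refine Ex_mono (tri_nonneg h.hp) fun w hw => ?_
    have r1 := h.hτ _ ((tri_1 h.hp).pos (tri_nonneg h.hp) hw)
    have r2 := h.hτ _ ((tri_2 h.hp).pos (tri_nonneg h.hp) hw)
    have r3 := h.hτ _ ((tri_3 h.hp).pos (tri_nonneg h.hp) hw)
    have hk := kap_le (τ w.1.1) (τ w.1.2) (τ w.2)
    have i1 : (0 : ℝ) ≤ τ w.1.2 := by exact_mod_cast r2.1
    have i2 : (τ w.1.2 : ℝ) < M := by exact_mod_cast r2.2
    have i3 : (0 : ℝ) ≤ τ w.2 := by exact_mod_cast r3.1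
    have i4 : (τ w.2 : ℝ) < M := by exact_mod_cast r3.2
    have i5 : (0 : ℝ) ≤ τ w.1.1 := by exact_mod_cast r1.1
    have i6 : (τ w.1.1 : ℝ) < M := by exact_mod_cast r1.2
    have j1 : max |(τ w.2 : ℝ) - τ w.1.2| 1 ≤ M :=
      max_le (abs_le.mpr ⟨by linarith, by linarith⟩) hM1
    have j2 : max |(τ w.2 : ℝ) - τ w.1.1| 1 ≤ M :=
      max_le (abs_le.mpr ⟨by linarith, by linarith⟩) hM1
    have j3 : (0 : ℝ) < max |(τ w.2 : ℝ) - τ w.1.1| 1 := lt_of_lt_of_le one_pos (le_max_right _ _)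
    have j4 : 1 ≤ (M : ℝ) / max |(τ w.2 : ℝ) - τ w.1.1| 1 := by
      rw [one_le_div j3]; exact j2
    have j5 : |kap (τ w.1.1) (τ w.1.2) (τ w.2)| ≤ 9 * (M / max |(τ w.2 : ℝ) - τ w.1.1| 1) := by
      refine hk.trans ?_
      gcongr
    have j6 : 1 + |kap (τ w.1.1) (τ w.1.2) (τ w.2)| ≤
        10 * (M / max |(τ w.2 : ℝ) - τ w.1.1| 1) := by linarith
    calc Real.log (1 + |kap (τ w.1.1) (τ w.1.2) (τ w.2)|) ≤
        Real.log (10 * (M / max |(τ w.2 : ℝ) - τ w.1.1| 1)) := by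
          apply Real.log_le_log _ j6
          positivity
      _ = Real.log 10 + Real.log (M / max |(τ w.2 : ℝ) - τ w.1.1| 1) :=
          Real.log_mul (by norm_num) (by positivity)
      _ ≤ 3 + ell M (τ w.1.1) (τ w.2) := by
          have : Real.log 10 ≤ (3 : ℕ) := log_le_of_pow (by norm_num) (by norm_num)
          push_cast at this
          rw [ell_symm]
          unfold ell
          linarith
      _ = _ := by ring
  refine h1.trans ?_
  rw [Ex_add, Ex_const]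
  · have := h13.ex (fun w => ell M (τ w.1) (τ w.2))
    unfold Gf
    simp only at this
    rw [this]
  · rw [(tri_1 h.hp).sum]
    exact h.h1

end Pool.Agent.H32.Dense
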