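import Pool.Agent.H32.Dense.Conf

/-!
# Elementary facts on times and rounded coefficients
-/

set_option autoImplicit false

namespace Pool.Agent.H32.Dense

open Finset Real
open Pool.Agent.H49.Ent

/-! ### The time `hat t s τ` -/

lemma hat_spec (t s τ : ℤ) : hat t s τ ≠ t ∧ hat t s τ ≠ s ∧ τ ≤ hat t s τ ∧ hat t s τ ≤ τ + 2 := by
  unfold hat
  split_ifs with h1 h2 <;> refine ⟨?_, ?_, ?_, ?_⟩ <;> omega

lemma hat_swap (t s τ : ℤ) : hat t s τ = hat s t τ := by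
  unfold hat
  split_ifs <;> omega

lemma kap_swap (t s τ : ℤ) : kap s t τ = (kap t s τ)⁻¹ := by
  unfold kap
  rw [hat_swap s t τ, inv_div]

lemma kap_ne (t s τ : ℤ) : kap t s τ ≠ 0 := by
  obtain ⟨h1, h2, _, _⟩ := hat_spec t s τ
  have e1 : (hat t s τ : ℝ) - s ≠ 0 := sub_ne_zero.mpr (by exact_mod_cast h2)
  have e2 : (hat t s τ : ℝ) - t ≠ 0 := sub_ne_zero.mpr (by exact_mod_cast h1)
  exact div_ne_zero e1 e2

lemma kap_pos (t s τ : ℤ) : 0 < |kap t s τ| := abs_pos.mpr (kap_ne t s τ)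

/-- `|κ| ≤ 9 max(|τ-s|,1) / max(|τ-t|,1)`. -/
lemma kap_le (t s τ : ℤ) :
    |kap t s τ| ≤ 9 * (max |(τ : ℝ) - s| 1 / max |(τ : ℝ) - t| 1) := by
  obtain ⟨h1, h2, h3, h4⟩ := hat_spec t s τ
  have e2 : (1 : ℝ) ≤ |(hat t s τ : ℝ) - t| := by
    have : (1 : ℤ) ≤ |hat t s τ - t| := Int.one_le_abs (sub_ne_zero.mpr h1)
    exact_mod_cast this
  have h3' : (τ : ℝ) ≤ hat t s τ := by exact_mod_cast h3
  have h4' : (hat t s τ : ℝ) ≤ τ + 2 := by exact_mod_cast h4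
  have e3 : |(hat t s τ : ℝ) - s| ≤ 3 * max |(τ : ℝ) - s| 1 := by
    have i1 : |(hat t s τ : ℝ) - s| ≤ |(τ : ℝ) - s| + 2 := by
      calc |(hat t s τ : ℝ) - s| = |((τ : ℝ) - s) + (hat t s τ - τ)| := by congr 1; ring
        _ ≤ |(τ : ℝ) - s| + |(hat t s τ : ℝ) - τ| := abs_add_le _ _
        _ ≤ |(τ : ℝ) - s| + 2 := by
          have : |(hat t s τ : ℝ) - τ| ≤ 2 := abs_le.mpr ⟨by linarith, by linarith⟩
          linarith
    have i2 := le_max_left |(τ : ℝ) - s| 1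
    have i3 := le_max_right |(τ : ℝ) - s| 1
    linarith
  have e4 : max |(τ : ℝ) - t| 1 ≤ 3 * |(hat t s τ : ℝ) - t| := by
    refine max_le ?_ (by linarith)
    calc |(τ : ℝ) - t| = |((hat t s τ : ℝ) - t) + (τ - hat t s τ)| := by congr 1; ring
      _ ≤ |(hat t s τ : ℝ) - t| + |(τ : ℝ) - hat t s τ| := abs_add_le _ _
      _ ≤ |(hat t s τ : ℝ) - t| + 2 := by
        have : |(τ : ℝ) - hat t s τ| ≤ 2 := abs_le.mpr ⟨by linarith, by linarith⟩
        linarith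
      _ ≤ 3 * |(hat t s τ : ℝ) - t| := by linarith
  have e5 : (0 : ℝ) < max |(τ : ℝ) - t| 1 := lt_of_lt_of_le one_pos (le_max_right _ _)
  have e6 : (0 : ℝ) < |(hat t s τ : ℝ) - t| := by linarith
  unfold kap
  rw [abs_div, div_le_iff₀ e6]
  calc |(hat t s τ : ℝ) - s| ≤ 3 * max |(τ : ℝ) - s| 1 := e3
    _ = 9 * (max |(τ : ℝ) - s| 1 / max |(τ : ℝ) - t| 1) * (max |(τ : ℝ) - t| 1 / 3) := by
      field_simp
      norm_num
    _ ≤ 9 * (max |(τ : ℝ) - s| 1 / max |(τ : ℝ) - t| 1) * |(hat t s τ : ℝ) - t| := by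
      have : max |(τ : ℝ) - t| 1 / 3 ≤ |(hat t s τ : ℝ) - t| := by linarith
      have i4 : (0 : ℝ) < max |(τ : ℝ) - s| 1 := lt_of_lt_of_le one_pos (le_max_right _ _)
      gcongr

/-! ### Logarithmic distance -/

lemma ell_nonneg {M : ℕ} (hM : 0 < M) {x y : ℤ} (hx : 0 ≤ x ∧ x < M) (hy : 0 ≤ y ∧ y < M) :
    0 ≤ ell M x y := by
  unfold ell
  apply Real.log_nonneg
  have hM' : (1 : ℝ) ≤ M := by exact_mod_cast hM
  have e : max |(x : ℝ) - y| 1 ≤ M := by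
    refine max_le ?_ hM'
    have h1 : (0 : ℝ) ≤ x := by exact_mod_cast hx.1
    have h2 : (x : ℝ) < M := by exact_mod_cast hx.2
    have h3 : (0 : ℝ) ≤ y := by exact_mod_cast hy.1
    have h4 : (y : ℝ) < M := by exact_mod_cast hy.2
    exact abs_le.mpr ⟨by linarith, by linarith⟩
  rw [one_le_div (lt_of_lt_of_le one_pos (le_max_right _ _))]
  exact e

lemma ell_symm (M : ℕ) (x y : ℤ) : ell M x y = ell M y x := by
  unfold ell
  rw [abs_sub_comm]

/-! ### The rounded coefficient -/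

lemma ct_spec (t s τ r : ℤ) :
    (ct t s τ r : ℝ) ≤ kap t s τ * ((r : ℝ) - t) ∧ kap t s τ * ((r : ℝ) - t) < ct t s τ r + 1 :=
  ⟨Int.floor_le _, Int.lt_floor_add_one _⟩

lemma abs_floor_le (x : ℝ) : |(⌊x⌋ : ℝ)| ≤ |x| + 1 := by
  have h1 := Int.floor_le x
  have h2 := Int.lt_floor_add_one x
  rw [abs_le]
  constructor
  · have := neg_abs_le x
    linarith
  · have := le_abs_self x
    linarith

lemma le_max_abs_floor (x : ℝ) : |x| / 2 ≤ max |(⌊x⌋ : ℝ)| 1 := by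
  have h1 := Int.floor_le x
  have h2 := Int.lt_floor_add_one x
  have h3 : |x| ≤ |(⌊x⌋ : ℝ)| + 1 := by
    rw [abs_le]
    constructor
    · have := neg_abs_le (⌊x⌋ : ℝ)
      linarith
    · have := le_abs_self (⌊x⌋ : ℝ)
      linarith
  have h4 := le_max_left |(⌊x⌋ : ℝ)| 1
  have h5 := le_max_right |(⌊x⌋ : ℝ)| 1
  linarith

lemma floor_mul_aux {M κ : ℝ} (hM : 0 ≤ M) (hκ : 0 < |κ|) {x : ℤ} (hx : x ≠ 0) :
    M / max |(⌊κ * (x : ℝ)⌋ : ℝ)| 1 ≤ 2 * (M / max |(x : ℝ)| 1) * |κ|⁻¹ := by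
  have h1 := le_max_abs_floor (κ * (x : ℝ))
  have h2 : (1 : ℝ) ≤ |(x : ℝ)| := by
    have : (1 : ℤ) ≤ |x| := Int.one_le_abs hx
    exact_mod_cast this
  rw [abs_mul] at h1
  rw [max_eq_left h2]
  have h3 : 0 < |κ| * |(x : ℝ)| := by positivity
  calc M / max |(⌊κ * (x : ℝ)⌋ : ℝ)| 1 ≤ M / (|κ| * |(x : ℝ)| / 2) := by gcongr
    _ = 2 * (M / |(x : ℝ)|) * |κ|⁻¹ := by field_simp

lemma floor_mul_bound {M κ : ℝ} (hM : 0 ≤ M) (hκ : 0 < |κ|) (x : ℤ) :
    1 + M / max |(⌊κ * (x : ℝ)⌋ : ℝ)| 1 ≤ 2 * (1 + M / max |(x : ℝ)| 1) * (1 + |κ|⁻¹) := by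
  have hk : 0 < |κ|⁻¹ := inv_pos.mpr hκ
  have h0 : 0 ≤ M / max |(x : ℝ)| 1 := by positivity
  rcases eq_or_ne x 0 with hx | hx
  · subst hx
    simp only [Int.cast_zero, mul_zero, Int.floor_zero, abs_zero]
    have : max (0 : ℝ) 1 = 1 := max_eq_right zero_le_one
    rw [this, div_one]
    nlinarith [mul_nonneg hM hk.le]
  · have := floor_mul_aux hM hκ hx
    nlinarith [mul_nonneg h0 hk.le]

lemma floor_mul_bound' {M κ : ℝ} (hM : 1 ≤ M) (hκ : 0 < |κ|) {x : ℤ} (hx : |(x : ℝ)| ≤ M) :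
    1 + M / max |(⌊κ * (x : ℝ)⌋ : ℝ)| 1 ≤ 2 * (M / max |(x : ℝ)| 1) * (1 + |κ|⁻¹) := by
  have hk : 0 < |κ|⁻¹ := inv_pos.mpr hκ
  have h0 : 1 ≤ M / max |(x : ℝ)| 1 := by
    rw [one_le_div (lt_of_lt_of_le one_pos (le_max_right _ _))]
    exact max_le hx hM
  rcases eq_or_ne x 0 with hx | hx
  · subst hx
    simp only [Int.cast_zero, mul_zero, Int.floor_zero, abs_zero]
    have : max (0 : ℝ) 1 = 1 := max_eq_right zero_le_one
    rw [this, div_one]
    nlinarith [mul_nonneg (zero_le_one.trans hM) hk.le]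
  · have := floor_mul_aux (zero_le_one.trans hM) hκ hx
    nlinarith [mul_nonneg (zero_le_one.trans h0) hk.le]

lemma log_two_le_one : Real.log 2 ≤ 1 := by
  have := Real.log_two_lt_d9
  linarith

/-- The rounded coefficient is not much smaller than `M`, on the logarithmic scale. -/
lemma log_ct {M : ℕ} (hM : 0 < M) {t s τ r : ℤ} (ht : 0 ≤ t ∧ t < M) (hr : 0 ≤ r ∧ r < M) :
    Real.log (1 + M / max |(ct t s τ r : ℝ)| 1) ≤
      1 + ell M r t + Real.log (1 + |kap t s τ|⁻¹) := by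
  have hκ := kap_pos t s τ
  have hM' : (1 : ℝ) ≤ M := by exact_mod_cast hM
  have hx : |((r - t : ℤ) : ℝ)| ≤ M := by
    have h1 : (0 : ℝ) ≤ t := by exact_mod_cast ht.1
    have h2 : (t : ℝ) < M := by exact_mod_cast ht.2
    have h3 : (0 : ℝ) ≤ r := by exact_mod_cast hr.1
    have h4 : (r : ℝ) < M := by exact_mod_cast hr.2
    push_cast
    exact abs_le.mpr ⟨by linarith, by linarith⟩
  have h := floor_mul_bound' hM' hκ hx
  push_cast at h
  have hk : 0 < |kap t s τ|⁻¹ := inv_pos.mpr hκ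
  have hp1 : (0 : ℝ) < max |(r : ℝ) - t| 1 := lt_of_lt_of_le one_pos (le_max_right _ _)
  have hp2 : (0 : ℝ) < M / max |(r : ℝ) - t| 1 := by positivity
  unfold ell
  calc Real.log (1 + M / max |(ct t s τ r : ℝ)| 1)
      ≤ Real.log (2 * (M / max |(r : ℝ) - t| 1) * (1 + |kap t s τ|⁻¹)) := by
        apply Real.log_le_log _ h
        positivity
    _ = Real.log 2 + Real.log (M / max |(r : ℝ) - t| 1) + Real.log (1 + |kap t s τ|⁻¹) := by
        rw [Real.log_mul (by positivity) (by positivity), Real.log_mul (by norm_num) hp2.ne']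
    _ ≤ _ := by
        have := log_two_le_one
        linarith

lemma log_floor_mul {M : ℕ} {κ : ℝ} (hκ : 0 < |κ|) (c : ℤ) :
    Real.log (1 + M / max |(⌊κ * (c : ℝ)⌋ : ℝ)| 1) ≤
      1 + Real.log (1 + M / max |(c : ℝ)| 1) + Real.log (1 + |κ|⁻¹) := by
  have h := floor_mul_bound (M := M) (Nat.cast_nonneg M) hκ c
  have hk : 0 < |κ|⁻¹ := inv_pos.mpr hκ
  calc Real.log (1 + M / max |(⌊κ * (c : ℝ)⌋ : ℝ)| 1)
      ≤ Real.log (2 * (1 + M / max |(c : ℝ)| 1) * (1 + |κ|⁻¹)) := by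
        apply Real.log_le_log _ h
        positivity
    _ = Real.log 2 + Real.log (1 + M / max |(c : ℝ)| 1) + Real.log (1 + |κ|⁻¹) := by
        rw [Real.log_mul (by positivity) (by positivity),
          Real.log_mul (by norm_num) (by positivity)]
    _ ≤ _ := by
        have := log_two_le_one
        linarith

/-- The rounded coefficient is not much larger than `M`, on the logarithmic scale. -/
lemma log_ct_le {M : ℕ} (hM : 0 < M) {t s τ r : ℤ} (ht : 0 ≤ t ∧ t < M) (hr : 0 ≤ r ∧ r < M) :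
    Real.log (1 + |(ct t s τ r : ℝ)| / M) ≤ 1 + Real.log (1 + |kap t s τ|) := by
  have hM' : (1 : ℝ) ≤ M := by exact_mod_cast hM
  have hM0 : (0 : ℝ) < M := by linarith
  have hx : |(r : ℝ) - t| ≤ M := by
    have h1 : (0 : ℝ) ≤ t := by exact_mod_cast ht.1
    have h2 : (t : ℝ) < M := by exact_mod_cast ht.2
    have h3 : (0 : ℝ) ≤ r := by exact_mod_cast hr.1
    have h4 : (r : ℝ) < M := by exact_mod_cast hr.2
    exact abs_le.mpr ⟨by linarith, by linarith⟩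
  have h := abs_floor_le (kap t s τ * ((r : ℝ) - t))
  rw [abs_mul] at h
  have hk := kap_pos t s τ
  have h2 : |(ct t s τ r : ℝ)| / M ≤ |kap t s τ| + 1 := by
    rw [div_le_iff₀ hM0]
    calc |(ct t s τ r : ℝ)| ≤ |kap t s τ| * |(r : ℝ) - t| + 1 := h
      _ ≤ |kap t s τ| * M + 1 * M := by gcongr; linarith
      _ = (|kap t s τ| + 1) * M := by ring
  calc Real.log (1 + |(ct t s τ r : ℝ)| / M) ≤ Real.log (2 * (1 + |kap t s τ|)) := by
        apply Real.log_le_log (by positivity)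
        linarith
    _ = Real.log 2 + Real.log (1 + |kap t s τ|) := Real.log_mul (by norm_num) (by positivity)
    _ ≤ _ := by
        have := log_two_le_one
        linarith

lemma log_floor_mul_le {M : ℕ} (hM : 0 < M) (κ : ℝ) (c : ℤ) :
    Real.log (1 + |(⌊κ * (c : ℝ)⌋ : ℝ)| / M) ≤
      1 + Real.log (1 + |κ|) + Real.log (1 + |(c : ℝ)| / M) := by
  have hM' : (1 : ℝ) ≤ M := by exact_mod_cast hM
  have hM0 : (0 : ℝ) < M := by linarith
  have h := abs_floor_le (κ * (c : ℝ))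
  rw [abs_mul] at h
  have h2 : |(⌊κ * (c : ℝ)⌋ : ℝ)| / M ≤ |κ| * (|(c : ℝ)| / M) + 1 := by
    rw [div_le_iff₀ hM0]
    calc |(⌊κ * (c : ℝ)⌋ : ℝ)| ≤ |κ| * |(c : ℝ)| + 1 := h
      _ ≤ |κ| * |(c : ℝ)| + 1 * M := by linarith
      _ = (|κ| * (|(c : ℝ)| / M) + 1) * M := by field_simp
  have h3 : 0 ≤ |(c : ℝ)| / M := by positivity
  calc Real.log (1 + |(⌊κ * (c : ℝ)⌋ : ℝ)| / M) ≤
        Real.log (2 * (1 + |κ|) * (1 + |(c : ℝ)| / M)) := by
        apply Real.log_le_log (by positivity)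
        nlinarith [mul_nonneg (abs_nonneg κ) h3, abs_nonneg κ]
    _ = Real.log 2 + Real.log (1 + |κ|) + Real.log (1 + |(c : ℝ)| / M) := by
        rw [Real.log_mul (by positivity) (by positivity),
          Real.log_mul (by norm_num) (by positivity)]
    _ ≤ _ := by
        have := log_two_le_one
        linarith

/-- Two integers with the same rounded multiple are close. -/
lemma floor_eq_close {κ : ℝ} (hκ : 0 < |κ|) {x x' : ℝ} (h : ⌊κ * x⌋ = ⌊κ * x'⌋) :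
    |x - x'| ≤ |κ|⁻¹ := by
  have h1 := Int.abs_sub_lt_one_of_floor_eq_floor h
  have h2 : κ * x - κ * x' = κ * (x - x') := by ring
  rw [h2, abs_mul] at h1
  rw [← one_div, le_div_iff₀ hκ]
  linarith

/-- `log (2 κ⁻¹ + 1) ≤ 1 + log (1 + κ⁻¹)`. -/
lemma log_two_mul_add {y : ℝ} (hy : 0 ≤ y) : Real.log (2 * y + 1) ≤ 1 + Real.log (1 + y) := by
  calc Real.log (2 * y + 1) ≤ Real.log (2 * (1 + y)) := by
        apply Real.log_le_log (by positivity)
        linarith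
    _ = Real.log 2 + Real.log (1 + y) := Real.log_mul (by norm_num) (by positivity)
    _ ≤ _ := by
        have := log_two_le_one
        linarith

end Pool.Agent.H32.Dense
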