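import Pool.Agent.H32.Dense.Energy
import Pool.Agent.H36.Dense.L3
import Pool.Agent.H32.Dense.Split

/-!
# Localisation: from `AKG` to `AKD`
-/

set_option autoImplicit false

namespace Pool.Agent.H32.Dense

open Finset Real
open Pool.Agent.H49.Ent

/-- The localised inequality, before the choice of the parameters. -/
theorem local_sum {d : ℕ} {a lam B₀ B₁ : ℝ} (h : AKG d a lam B₀ B₁) (ha : 0 ≤ a) (hl : 0 ≤ lam)
    (hB : 0 ≤ B₁) {e e₁ : ℝ} (he : 0 < e) (he₁ : 0 < e₁) : ∃ C : ℝ, 0 ≤ C ∧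
    ∀ (M : ℕ) (Ω : Type) [Fintype Ω] (ζ : Type) (p : Ω → ℝ) (Z : Ω → ζ) (v : Ω → Fin d → ℤ)
      (u : Ω → Fin d → ℝ) (τ : Ω → ℤ), IsFam M p Z v u τ → ∃ w Kf' : ℝ, 0 ≤ w ∧ 0 ≤ Kf' ∧
      w * (Real.log 2 - e - e₁) + Kf' ≤ Kf M p (bv Z v) τ + C ∧
      CH p v Z ≤ a * Sf M p Z v u τ + lam * Kf' +
        w * ((d + 1) * Real.log 2 + e₁ + B₁ * (2 / e) * e₁) + C := by
  obtain ⟨C₁, hC₁⟩ := stop_energy he
  set c₁ : ℝ := -Real.log (1 - Real.exp (-e₁)) with hc₁
  refine ⟨|C₁| * (B₁ * (2 / e)) + |c₁| * (1 + B₁ * (2 / e)) + a * (2 * d) + |B₀| +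
    (d + 1) * Real.log 3, by positivity, ?_⟩
  intro M Ω _ ζ p Z v u τ hf
  classical
  have hp := hf.hp
  have h1 := hf.h1
  -- the power of two
  obtain ⟨m, hm1, hm2⟩ : ∃ m : ℕ, M ≤ 2 ^ m ∧ 2 ^ m ≤ 2 * M := by
    refine ⟨Nat.clog 2 M, Nat.le_pow_clog (by norm_num) M, ?_⟩
    rcases Nat.lt_or_ge 1 M with hM | hM
    · have hc := Nat.pow_pred_clog_lt_self (b := 2) (by norm_num) hM
      have hpos : 0 < Nat.clog 2 M := Nat.clog_pos (by norm_num) hM
      have : 2 ^ (Nat.clog 2 M) = 2 * 2 ^ (Nat.clog 2 M).pred := by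
        rw [← pow_succ']
        congr 1
        exact (Nat.succ_pred_eq_of_pos hpos).symm
      omega
    · have : M = 1 := le_antisymm hM hf.hM
      subst this
      simp
  have hτ' : ∀ ω, 0 < p ω → 0 ≤ τ ω ∧ τ ω < 2 ^ m := by
    intro ω hω
    obtain ⟨i1, i2⟩ := hf.hτ ω hω
    refine ⟨i1, lt_of_lt_of_le i2 ?_⟩
    exact_mod_cast hm1
  obtain ⟨J, hJ⟩ := exists_stop m e p (bv Z v) τ
  set w : ℝ := Ex p (fun ω => (J ω : ℝ)) with hw
  have hw0 : 0 ≤ w := Ex_nonneg hp fun ω _ => Nat.cast_nonneg _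
  set Q : Ω → ℤ := fun ω => τ ω / 2 ^ (m - J ω) with hQ
  set E₁ : ℝ := CH p (fun ω => (J ω, Q ω)) (bv Z v) with hE₁
  have hE0 : 0 ≤ E₁ := CH_nonneg hp _ _
  have s1 := stop_entropy he₁ hp h1 hτ' hJ
  have s2 := stop_mass he hp h1 hτ' hJ
  have s3 := code_entropy Z he₁ hp h1 hτ' hJ.le
  -- the decomposition of the entropy of the time
  set b' : Ω → (((Fin d → ℤ) × ζ) × ℤ) := fun ω => (bv Z v ω, Q ω) with hb'
  have t1 : CH p τ (bv Z v) = E₁ + CH p τ (fun ω => (b' ω, J ω)) := by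
    have c1 := CH_bayes hp τ (fun ω => (J ω, Q ω)) (bv Z v)
    have c2 : CH p (fun ω => (J ω, Q ω)) (fun ω => (τ ω, bv Z v ω)) = 0 := by
      refine CH_eq_zero hp ?_
      intro ω ω' _ _ e
      simp only [Prod.mk.injEq] at e
      have := hJ.det ω ω' e.2 e.1
      simp only [hQ, this, e.1]
    have c3 : CH p τ (fun ω => ((J ω, Q ω), bv Z v ω)) = CH p τ (fun ω => (b' ω, J ω)) := by
      refine CH_congr hp ?_ ?_ ?_ ?_ <;>
      · intro w w' _ _ e
        simp only [hb', Prod.mk.injEq] at e ⊢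
        tauto
    linarith
  set KL : ℝ := Ex p (fun ω => Real.log (2 ^ (m - J ω))) - CH p τ (fun ω => (b' ω, J ω)) with hKL
  -- logarithms
  have hlog2 : 0 < Real.log 2 := Real.log_pos (by norm_num)
  have t2 : Ex p (fun ω => Real.log (2 ^ (m - J ω))) = m * Real.log 2 - w * Real.log 2 := by
    have : ∀ ω, Real.log (2 ^ (m - J ω)) = m * Real.log 2 + (-Real.log 2) * (J ω : ℝ) := by
      intro ω
      rw [Real.log_pow, Nat.cast_sub (hJ.le ω)]
      ring
    simp_rw [this]
    rw [Ex_add, Ex_const h1, Ex_smul]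
    ring
  have hM0 : (0 : ℝ) < M := by exact_mod_cast hf.hM
  have t3 : m * Real.log 2 ≤ Real.log 2 + Real.log M := by
    rw [← Real.log_pow, ← Real.log_mul (by norm_num) hM0.ne']
    apply Real.log_le_log (by positivity)
    exact_mod_cast hm2
  have hlog3 : Real.log 2 ≤ Real.log 3 := Real.log_le_log (by norm_num) (by norm_num)
  -- per level
  set g : ℕ → ℝ := fun j => law p J j with hg
  have hg0 : ∀ j, 0 ≤ g j := fun j => law_nonneg hp J j
  set b'' : ℕ → Ω → (((Fin d → ℤ) × ζ) × ℤ) := fun j ω => (bv Z v ω, τ ω / 2 ^ (m - j)) with hb''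
  have hcb : ∀ j, CH (cond p J j) τ b' = CH (cond p J j) τ (b'' j) := by
    intro j
    refine CH_congr (cond_nonneg hp J j) ?_ ?_ ?_ ?_
    · intro w w' a b e; exact (Prod.ext_iff.mp e).1
    · intro w w' a b e; exact (Prod.ext_iff.mp e).1
    · intro w w' a b e
      have ja := ((cond_pos_iff hp J j w).mp a).2
      have jb := ((cond_pos_iff hp J j w').mp b).2
      simpa only [hb', hb'', hQ, ja, jb] using e
    · intro w w' a b e
      have ja := ((cond_pos_iff hp J j w).mp a).2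
      have jb := ((cond_pos_iff hp J j w').mp b).2
      simpa only [hb', hb'', hQ, ja, jb] using e
  have hcv : ∀ j, CH (cond p J j) v (fun ω => (Z ω, Q ω)) =
      CH (cond p J j) v (fun ω => (Z ω, τ ω / 2 ^ (m - j))) := by
    intro j
    refine CH_congr (cond_nonneg hp J j) ?_ ?_ ?_ ?_
    · intro w w' a b e; exact (Prod.ext_iff.mp e).1
    · intro w w' a b e; exact (Prod.ext_iff.mp e).1
    · intro w w' a b e
      have ja := ((cond_pos_iff hp J j w).mp a).2
      have jb := ((cond_pos_iff hp J j w').mp b).2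
      simpa only [hQ, ja, jb] using e
    · intro w w' a b e
      have ja := ((cond_pos_iff hp J j w).mp a).2
      have jb := ((cond_pos_iff hp J j w').mp b).2
      simpa only [hQ, ja, jb] using e
  -- the entropy of the time inside the intervals
  have hKLj : ∀ j, g j ≠ 0 → CH (cond p J j) τ (b'' j) ≤ Real.log (2 ^ (m - j)) := by
    intro j hj
    have hc := CH_le_card (cond_nonneg hp J j) (sum_cond p J hj) τ (b'' j)
      (fun z => Finset.Ico (z.2 * 2 ^ (m - j)) (z.2 * 2 ^ (m - j) + 2 ^ (m - j))) (by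
        intro ω _
        simp only [hb'']
        rw [Finset.mem_Ico]
        have h2 : (0 : ℤ) < 2 ^ (m - j) := by positivity
        have i1 := Int.emod_add_mul_ediv (τ ω) (2 ^ (m - j))
        have i2 := Int.emod_nonneg (τ ω) h2.ne'
        have i3 := Int.emod_lt_of_pos (τ ω) h2
        constructor <;> linarith)
    refine hc.trans (le_of_eq ?_)
    rw [show (fun ω => Real.log ((Finset.Ico ((b'' j ω).2 * 2 ^ (m - j))
      ((b'' j ω).2 * 2 ^ (m - j) + 2 ^ (m - j))).card : ℝ)) =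
      fun _ => Real.log (2 ^ (m - j)) from by
        funext ω
        rw [Int.card_Ico, add_sub_cancel_left]
        norm_cast]
    exact Ex_const (sum_cond p J hj) _
  have t4 : KL = ∑ j ∈ univ.image J, g j * (Real.log (2 ^ (m - j)) -
      CH (cond p J j) τ (b'' j)) := by
    rw [hKL, CH_split hp τ b' J, Ex_split hp _ J, ← Finset.sum_sub_distrib]
    refine Finset.sum_congr rfl fun j _ => ?_
    rw [mul_sub, hcb j]
    congr 1
    by_cases hj : g j = 0
    · simp only [hg] at hj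
      rw [hj]
      simp [hg, hj]
    · congr 1
      have : Ex (cond p J j) (fun ω => Real.log (2 ^ (m - J ω))) =
          Ex (cond p J j) (fun _ => Real.log (2 ^ (m - j))) := by
        refine le_antisymm ?_ ?_
        · refine Ex_mono (cond_nonneg hp J j) fun ω hω => ?_
          rw [((cond_pos_iff hp J j ω).mp hω).2]
        · refine Ex_mono (cond_nonneg hp J j) fun ω hω => ?_
          rw [((cond_pos_iff hp J j ω).mp hω).2]
      rw [this, Ex_const (sum_cond p J hj)]
  have hKL0 : 0 ≤ KL := by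
    rw [t4]
    refine Finset.sum_nonneg fun j _ => ?_
    by_cases hj : g j = 0
    · rw [hj, zero_mul]
    · exact mul_nonneg (hg0 j) (by linarith [hKLj j hj])
  -- the energies
  set Gj : ℕ → ℝ := fun j => Gf (2 ^ (m - j)) (cond p J j) (b'' j) (fun ω => τ ω % 2 ^ (m - j))
    with hGj
  have t5 : ∑ j ∈ univ.image J, g j * Gj j ≤ (2 / e) * (|C₁| + |c₁| + e₁ * w) := by
    have r1 : ∀ j ∈ univ.image J, g j * ((e / 2) * Gj j) ≤ g j * (|C₁| +
        Ex (cond p J j) (fun ω => -Real.log (mass m p (bv Z v) τ (bv Z v ω) m (τ ω)) +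
          Real.log (mass m p (bv Z v) τ (bv Z v ω) (J ω) (τ ω))) - CH (cond p J j) τ b') := by
      intro j hj
      by_cases hj0 : g j = 0
      · rw [hj0, zero_mul, zero_mul]
      · refine mul_le_mul_of_nonneg_left ?_ (hg0 j)
        have hjm : j ≤ m := by
          obtain ⟨ω, _, rfl⟩ := Finset.mem_image.mp hj
          exact hJ.le ω
        have := hC₁ Ω _ m p (bv Z v) τ J hp h1 hτ' hJ j hjm hj0
        rw [hcb j]
        have e1 : Ex (cond p J j) (fun ω => -Real.log (mass m p (bv Z v) τ (bv Z v ω) m (τ ω)) +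
            Real.log (mass m p (bv Z v) τ (bv Z v ω) j (τ ω))) =
            Ex (cond p J j) (fun ω => -Real.log (mass m p (bv Z v) τ (bv Z v ω) m (τ ω)) +
            Real.log (mass m p (bv Z v) τ (bv Z v ω) (J ω) (τ ω))) := by
          refine le_antisymm ?_ ?_
          · refine Ex_mono (cond_nonneg hp J j) fun ω hω => ?_
            rw [((cond_pos_iff hp J j ω).mp hω).2]
          · refine Ex_mono (cond_nonneg hp J j) fun ω hω => ?_
            rw [((cond_pos_iff hp J j ω).mp hω).2]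
        rw [← e1]
        have := le_abs_self C₁
        linarith
    have r2 := Finset.sum_le_sum r1
    have r3 : ∑ j ∈ univ.image J, g j * ((e / 2) * Gj j) =
        (e / 2) * ∑ j ∈ univ.image J, g j * Gj j := by
      rw [Finset.mul_sum]
      exact Finset.sum_congr rfl fun j _ => by ring
    have r4 : ∑ j ∈ univ.image J, g j * (|C₁| +
        Ex (cond p J j) (fun ω => -Real.log (mass m p (bv Z v) τ (bv Z v ω) m (τ ω)) +
          Real.log (mass m p (bv Z v) τ (bv Z v ω) (J ω) (τ ω))) - CH (cond p J j) τ b') =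
        |C₁| + Ex p (fun ω => -Real.log (mass m p (bv Z v) τ (bv Z v ω) m (τ ω)) +
          Real.log (mass m p (bv Z v) τ (bv Z v ω) (J ω) (τ ω))) -
          CH p τ (fun ω => (b' ω, J ω)) := by
      rw [CH_split hp τ b' J, Ex_split hp _ J]
      simp_rw [mul_sub, mul_add]
      rw [Finset.sum_sub_distrib, Finset.sum_add_distrib, ← Finset.sum_mul,
        sum_law_one h1 J, one_mul]
    have r5 : Ex p (fun ω => -Real.log (mass m p (bv Z v) τ (bv Z v ω) m (τ ω))) =
        CH p τ (bv Z v) := by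
      rw [CH_eq_mean hp]
      unfold mass
      simp only [Nat.sub_self, pow_zero, Int.ediv_one]
    have r6 : Ex p (fun ω => -Real.log (mass m p (bv Z v) τ (bv Z v ω) m (τ ω)) +
          Real.log (mass m p (bv Z v) τ (bv Z v ω) (J ω) (τ ω))) =
        CH p τ (bv Z v) -
          Ex p (fun ω => -Real.log (mass m p (bv Z v) τ (bv Z v ω) (J ω) (τ ω))) := by
      rw [← r5, ← Ex_sub]
      congr 1
      funext ω
      ring
    rw [r3, r4, r6] at r2
    have r7 := le_abs_self c₁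
    have r8 : (e / 2) * ∑ j ∈ univ.image J, g j * Gj j ≤ |C₁| + |c₁| + e₁ * w := by linarith
    have r9 : ∑ j ∈ univ.image J, g j * Gj j =
        (2 / e) * ((e / 2) * ∑ j ∈ univ.image J, g j * Gj j) := by
      field_simp
    rw [r9]
    exact mul_le_mul_of_nonneg_left r8 (by positivity)
  -- the slices
  have t6 : ∑ j ∈ univ.image J, g j * Sf M (cond p J j) Z v u τ ≤ Sf M p Z v u τ := by
    unfold Sf
    rw [← CH_split hp (fun ω => rd (pos M (u ω) (v ω) (τ ω))) (fun ω => (Z ω, τ ω)) J]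
    refine CH_mono_cond hp ?_
    intro w w' _ _ e
    simp only [Prod.mk.injEq] at e ⊢
    tauto
  -- the logarithms
  have t7 : ∑ j ∈ univ.image J, g j * Real.log (M / 2 ^ (m - j) + 2) ≤
      Real.log 3 + w * Real.log 2 := by
    have r1 : ∀ j ∈ univ.image J, g j * Real.log (M / 2 ^ (m - j) + 2) ≤
        g j * (Real.log 3 + j * Real.log 2) := by
      intro j hj
      have hjm : j ≤ m := by
        obtain ⟨ω, _, rfl⟩ := Finset.mem_image.mp hj
        exact hJ.le ω
      refine mul_le_mul_of_nonneg_left ?_ (hg0 j)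
      rw [← Real.log_pow, ← Real.log_mul (by norm_num) (by positivity)]
      apply Real.log_le_log (by positivity)
      have i1 : (M : ℝ) ≤ 2 ^ m := by exact_mod_cast hm1
      have i2 : (2 : ℝ) ^ m = 2 ^ j * 2 ^ (m - j) := by
        rw [← pow_add]; congr 1; omega
      have i3 : (M : ℝ) / 2 ^ (m - j) ≤ 2 ^ j := by
        rw [div_le_iff₀ (by positivity), ← i2]
        exact i1
      have i4 : (1 : ℝ) ≤ 2 ^ j := one_le_pow₀ (by norm_num)
      linarith
    refine (Finset.sum_le_sum r1).trans ?_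
    simp_rw [mul_add]
    rw [Finset.sum_add_distrib, ← Finset.sum_mul, sum_law_one h1 J, one_mul]
    have r2 : ∑ j ∈ univ.image J, g j * (j * Real.log 2) = w * Real.log 2 := by
      rw [hw, Ex_split hp _ J, Finset.sum_mul]
      refine Finset.sum_congr rfl fun j _ => ?_
      by_cases hj0 : g j = 0
      · simp only [hg] at hj0
        simp [hg, hj0]
      · have : Ex (cond p J j) (fun ω => (J ω : ℝ)) = Ex (cond p J j) (fun _ => (j : ℝ)) := by
          refine le_antisymm ?_ ?_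
          · refine Ex_mono (cond_nonneg hp J j) fun ω hω => ?_
            rw [((cond_pos_iff hp J j ω).mp hω).2]
          · refine Ex_mono (cond_nonneg hp J j) fun ω hω => ?_
            rw [((cond_pos_iff hp J j ω).mp hω).2]
        rw [this, Ex_const (sum_cond p J hj0)]
        ring
    rw [r2]
  -- the local inequalities
  have t8 : CH p v (fun ω => ((Z ω, Q ω), J ω)) ≤
      ∑ j ∈ univ.image J, g j * (a * (Sf M (cond p J j) Z v u τ + 2 * d) +
        lam * (Real.log (2 ^ (m - j)) - CH (cond p J j) τ (b'' j)) + B₀ + B₁ * Gj j +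
        d * Real.log (M / 2 ^ (m - j) + 2)) := by
    rw [CH_split hp v (fun ω => (Z ω, Q ω)) J]
    refine Finset.sum_le_sum fun j _ => ?_
    by_cases hj0 : g j = 0
    · simp only [hg] at hj0
      simp [hg, hj0]
    · refine mul_le_mul_of_nonneg_left ?_ (hg0 j)
      rw [hcv j]
      exact local_step h ha hm1 (hf.cond J hj0)
  have t9 : ∑ j ∈ univ.image J, g j * (a * (Sf M (cond p J j) Z v u τ + 2 * d) +
        lam * (Real.log (2 ^ (m - j)) - CH (cond p J j) τ (b'' j)) + B₀ + B₁ * Gj j +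
        d * Real.log (M / 2 ^ (m - j) + 2)) =
      a * ∑ j ∈ univ.image J, g j * Sf M (cond p J j) Z v u τ + a * (2 * d) +
      lam * KL + B₀ + B₁ * ∑ j ∈ univ.image J, g j * Gj j +
      d * ∑ j ∈ univ.image J, g j * Real.log (M / 2 ^ (m - j) + 2) := by
    rw [t4]
    have hs := sum_law_one h1 J
    have e1 : ∀ j, g j * (a * (Sf M (cond p J j) Z v u τ + 2 * d) +
        lam * (Real.log (2 ^ (m - j)) - CH (cond p J j) τ (b'' j)) + B₀ + B₁ * Gj j +
        d * Real.log (M / 2 ^ (m - j) + 2)) =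
        a * (g j * Sf M (cond p J j) Z v u τ) + g j * (a * (2 * d)) +
        lam * (g j * (Real.log (2 ^ (m - j)) - CH (cond p J j) τ (b'' j))) + g j * B₀ +
        B₁ * (g j * Gj j) + d * (g j * Real.log (M / 2 ^ (m - j) + 2)) := by
      intro j; ring
    simp_rw [e1]
    simp only [Finset.sum_add_distrib, ← Finset.mul_sum, ← Finset.sum_mul]
    rw [hs]
    ring
  rw [t9] at t8
  -- removing the interval
  have t10 : CH p v Z ≤ CH p v (fun ω => ((Z ω, Q ω), J ω)) +
      CH p (fun ω => (J ω, Q ω)) Z := by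
    have c1 := CH_le_add hp v (fun ω => (J ω, Q ω)) Z
    have c2 : CH p v (fun ω => ((J ω, Q ω), Z ω)) = CH p v (fun ω => ((Z ω, Q ω), J ω)) := by
      refine CH_congr hp ?_ ?_ ?_ ?_ <;>
      · intro w w' _ _ e
        simp only [Prod.mk.injEq] at e ⊢
        tauto
    linarith
  refine ⟨w, KL, hw0, hKL0, ?_, ?_⟩
  · have k1 := le_abs_self c₁
    have k2 : 0 ≤ |C₁| * (B₁ * (2 / e)) := by positivity
    have k3 : 0 ≤ |c₁| * (B₁ * (2 / e)) := by positivity
    have k4 : 0 ≤ a * (2 * d) := by positivity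
    have k5 : 0 ≤ d * Real.log 3 := by positivity
    have k6 := abs_nonneg B₀
    unfold Kf
    linarith
  · have k1 := le_abs_self c₁
    have k2 := le_abs_self B₀
    have k3 := mul_le_mul_of_nonneg_left t6 ha
    have k4 := mul_le_mul_of_nonneg_left t5 hB
    have k5 := mul_le_mul_of_nonneg_left t7 (Nat.cast_nonneg (α := ℝ) d)
    have k6 : 0 ≤ Real.log 3 := by linarith
    have e1 : B₁ * (2 / e * (|C₁| + |c₁| + e₁ * w)) =
        |C₁| * (B₁ * (2 / e)) + |c₁| * (B₁ * (2 / e)) + w * (B₁ * (2 / e) * e₁) := by ring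
    rw [e1] at k4
    have s3' : CH p (fun ω => (J ω, Q ω)) Z ≤ (Real.log 2 + e₁) * w + c₁ := by
      have : CH p (fun ω => (J ω, Q ω)) Z ≤ (Real.log 2 + e₁) * w - Real.log (1 - Real.exp (-e₁)) :=
        s3
      rw [hc₁]
      linarith
    linarith

/-- Localisation. -/
theorem akd_of_akg {d : ℕ} {a lam B₀ B₁ : ℝ} (h : AKG d a lam B₀ B₁) (ha : 0 ≤ a) (hl : 0 ≤ lam)
    (hB : 0 ≤ B₁) {ε : ℝ} (hε : 0 < ε) : ∃ B, AKD d a (max lam ((1 + ε) * (d + 1))) B := by
  have hlog2 : 0 < Real.log 2 := Real.log_pos (by norm_num)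
  have hd : (0 : ℝ) ≤ d := Nat.cast_nonneg d
  obtain ⟨e, he, he2⟩ : ∃ e : ℝ, 0 < e ∧ (1 + ε) * e = ε * Real.log 2 / 4 := by
    refine ⟨ε * Real.log 2 / 4 / (1 + ε), by positivity, ?_⟩
    field_simp
  obtain ⟨e₁, he₁, he₁e, he₁2⟩ : ∃ e₁ : ℝ, 0 < e₁ ∧ e₁ ≤ e ∧
      (1 + B₁ * (2 / e)) * e₁ ≤ ε * Real.log 2 / 2 := by
    refine ⟨min e (ε * Real.log 2 / 2 / (1 + B₁ * (2 / e))), lt_min he (by positivity),
      min_le_left _ _, ?_⟩
    have hpos : 0 < 1 + B₁ * (2 / e) := by positivity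
    calc (1 + B₁ * (2 / e)) * min e (ε * Real.log 2 / 2 / (1 + B₁ * (2 / e))) ≤
        (1 + B₁ * (2 / e)) * (ε * Real.log 2 / 2 / (1 + B₁ * (2 / e))) := by
          gcongr
          exact min_le_right _ _
      _ = ε * Real.log 2 / 2 := by field_simp
  obtain ⟨C, hC0, hC⟩ := local_sum h ha hl hB he he₁
  set Λ : ℝ := max lam ((1 + ε) * (d + 1)) with hΛ
  have hΛ1 : lam ≤ Λ := le_max_left _ _
  have hΛ2 : (1 + ε) * (d + 1) ≤ Λ := le_max_right _ _
  have hΛ0 : 0 ≤ Λ := hl.trans hΛ1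
  refine ⟨Λ * C + C, ?_⟩
  intro M Ω _ ζ p Z v u τ hf
  obtain ⟨w, KL, hw, hKL, r1, r2⟩ := hC M Ω ζ p Z v u τ hf
  -- the coefficient of `w`
  have k0 : 0 ≤ Real.log 2 - e - e₁ := by
    have : e ≤ Real.log 2 / 4 := by
      have h3 : (1 + ε) * e ≤ (1 + ε) * (Real.log 2 / 4) := by
        rw [he2]
        nlinarith
      exact le_of_mul_le_mul_left h3 (by positivity)
    linarith
  have k1 : (d + 1) * Real.log 2 + e₁ + B₁ * (2 / e) * e₁ ≤ Λ * (Real.log 2 - e - e₁) := by
    have i1 : (1 + ε) * (d + 1) * (Real.log 2 - e - e₁) ≤ Λ * (Real.log 2 - e - e₁) :=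
      mul_le_mul_of_nonneg_right hΛ2 k0
    have i2 : (1 + ε) * (e + e₁) ≤ ε * Real.log 2 / 2 := by
      have : (1 + ε) * e₁ ≤ (1 + ε) * e := by gcongr
      linarith
    have i3 : (d + 1) * ((1 + ε) * (e + e₁)) ≤ (d + 1) * (ε * Real.log 2 / 2) := by gcongr
    have i4 : ε * Real.log 2 / 2 ≤ (d + 1) * (ε * Real.log 2 / 2) := by
      have : 0 ≤ ε * Real.log 2 / 2 := by positivity
      nlinarith
    nlinarith
  have k2 := mul_le_mul_of_nonneg_left k1 hw
  have k3 := mul_le_mul_of_nonneg_left r1 hΛ0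
  have k4 := mul_le_mul_of_nonneg_right hΛ1 hKL
  have e5 : Kf M p (fun ω => (v ω, Z ω)) τ = Kf M p (bv Z v) τ := rfl
  rw [e5]
  nlinarith

end Pool.Agent.H32.Dense
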