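import Mathlib

/-!
# The linear algebra of the general step
-/

set_option autoImplicit false

namespace Pool.Agent.H32.Dense

lemma div_aux {a P X Y S K R : ℝ} (hP : P ≠ 0) :
    a * P * (X / P * S + Y / P * K + R) = a * (X * S) + a * (Y * K) + a * P * R := by
  field_simp

lemma arithG {a d G D K L S x y m ab h hC κ η κ₂ η₂ lam B : ℝ} (ha : 1 ≤ a) (ha2 : a ≤ 2)
    (hd : 0 ≤ d) (hl : 0 ≤ lam) (hG : 0 ≤ G) (hD : 0 ≤ D) (hDG : D ≤ G + 3)
    (h1 : 2 * L - 3 * K - S - κ - η ≤ h) (h2 : κ ≤ 1.01 * D + 8) (h3 : -κ ≤ η)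
    (h5 : ab ≤ 2 * S) (h5' : ab ≤ m)
    (h6 : h + (a - 1) * x ≤ a * ab + d * (G + D + 3) + a * (D + 1) +
      a * d * (D + 3) + (a + lam) * (2 * K - η + D + 1) + B)
    (h7 : 3 * L - 2 * S - 5 * K - κ₂ - η₂ ≤ hC) (h8 : κ₂ ≤ 2.02 * D + 9) (h9 : -κ₂ ≤ η₂)
    (h10 : hC + (a - 1) * y ≤ a * (S + x + (D + 1) + d * (D + 3)) +
      (a + lam) * (K + η - η₂ + D + 1) + B + d * (2 * G + 2 * D + 6))
    (h11 : m + L - 2 * S - K - κ₂ - η₂ - d * (G + 2 * D + 4) ≤ y) :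
    L ≤ (3 * a ^ 2 + 2 * a - 2) / (a ^ 2 + 3 * a - 2) * S +
      (4 * a ^ 2 + 5 * a - 4 + (3 * a - 1) * lam) / (a ^ 2 + 3 * a - 2) * K +
      (1000 * (1 + d + lam) + 10 * |B|) + 1000 * (1 + d + lam) * G := by
  have hP : 0 < a ^ 2 + 3 * a - 2 := by nlinarith
  have ha0 : 0 < a := by linarith
  have hb : 0 ≤ a - 1 := by linarith
  -- main combination
  have m1 := mul_le_mul_of_nonneg_left h1 (sq_nonneg a)
  have m6 := mul_le_mul_of_nonneg_left h6 (sq_nonneg a)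
  have m5 := mul_le_mul_of_nonneg_left h5 (by nlinarith : (0 : ℝ) ≤ (2 * a - 1) * a)
  have m5' := mul_le_mul_of_nonneg_left h5' (by positivity : (0 : ℝ) ≤ (a - 1) ^ 2 * a)
  have m7 := mul_le_mul_of_nonneg_left h7 (by positivity : (0 : ℝ) ≤ a * (a - 1))
  have m10 := mul_le_mul_of_nonneg_left h10 (by positivity : (0 : ℝ) ≤ a * (a - 1))
  have m11 := mul_le_mul_of_nonneg_left h11 (by positivity : (0 : ℝ) ≤ a * (a - 1) ^ 2)
  have m3 : a * lam * (-η) ≤ a * lam * κ := by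
    have := mul_le_mul_of_nonneg_left h3 (by positivity : (0 : ℝ) ≤ a * lam)
    linarith
  have m9 : a * (a - 1) * lam * (-η₂) ≤ a * (a - 1) * lam * κ₂ := by
    have := mul_le_mul_of_nonneg_left h9 (by positivity : (0 : ℝ) ≤ a * (a - 1) * lam)
    linarith
  -- total
  have tot : a * ((a ^ 2 + 3 * a - 2) * L) ≤ a * ((3 * a ^ 2 + 2 * a - 2) * S) +
      a * ((4 * a ^ 2 + 5 * a - 4 + (3 * a - 1) * lam) * K) +
      (a ^ 2 * κ + a * (a - 1) * κ₂ + a * (a - 1) ^ 2 * κ₂ + a * lam * κ + a * (a - 1) * lam * κ₂ +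
      a ^ 2 * (d * (G + D + 3) + a * (D + 1) + a * d * (D + 3) + (a + lam) * (D + 1) + B) +
      a * (a - 1) * (a * ((D + 1) + d * (D + 3)) + (a + lam) * (D + 1) + B +
        d * (2 * G + 2 * D + 6)) + a * (a - 1) ^ 2 * (d * (G + 2 * D + 4))) := by
    linarith [m1, m6, m5, m5', m7, m10, m11, m3, m9]
  clear m1 m6 m5 m5' m7 m10 m11 m3 m9 h1 h3 h5 h5' h6 h7 h9 h10 h11
  -- bounds of the coefficients
  have c1 : a ^ 2 ≤ 4 := by nlinarith
  have c2 : a * (a - 1) ≤ 2 := by nlinarith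
  have c3 : a * (a - 1) ^ 2 ≤ 2 := by
    have : (a - 1) ^ 2 ≤ 1 := by nlinarith
    nlinarith [sq_nonneg (a - 1)]
  have c4 : 0 ≤ a * (a - 1) := by positivity
  have c5 : 0 ≤ a * (a - 1) ^ 2 := by positivity
  have hk1 : 0 ≤ 1.01 * D + 8 := by positivity
  have hk2 : 0 ≤ 2.02 * D + 9 := by positivity
  have hB : 0 ≤ |B| := abs_nonneg B
  have hB' := le_abs_self B
  have e1 : a ^ 2 * κ ≤ 4 * (1.01 * D + 8) :=
    (mul_le_mul_of_nonneg_left h2 (sq_nonneg a)).trans (mul_le_mul_of_nonneg_right c1 hk1)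
  have e2 : a * (a - 1) * κ₂ ≤ 2 * (2.02 * D + 9) :=
    (mul_le_mul_of_nonneg_left h8 c4).trans (mul_le_mul_of_nonneg_right c2 hk2)
  have e3 : a * (a - 1) ^ 2 * κ₂ ≤ 2 * (2.02 * D + 9) :=
    (mul_le_mul_of_nonneg_left h8 c5).trans (mul_le_mul_of_nonneg_right c3 hk2)
  have e4 : a * lam * κ ≤ 2 * (lam * (1.01 * D + 8)) := by
    have i1 : lam * κ ≤ lam * (1.01 * D + 8) := mul_le_mul_of_nonneg_left h2 hl
    have i2 : 0 ≤ lam * (1.01 * D + 8) := mul_nonneg hl hk1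
    calc a * lam * κ = a * (lam * κ) := by ring
      _ ≤ a * (lam * (1.01 * D + 8)) := mul_le_mul_of_nonneg_left i1 ha0.le
      _ ≤ 2 * (lam * (1.01 * D + 8)) := mul_le_mul_of_nonneg_right ha2 i2
  have e5 : a * (a - 1) * lam * κ₂ ≤ 2 * (lam * (2.02 * D + 9)) := by
    have i1 : lam * κ₂ ≤ lam * (2.02 * D + 9) := mul_le_mul_of_nonneg_left h8 hl
    have i2 : 0 ≤ lam * (2.02 * D + 9) := mul_nonneg hl hk2
    calc a * (a - 1) * lam * κ₂ = a * (a - 1) * (lam * κ₂) := by ring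
      _ ≤ a * (a - 1) * (lam * (2.02 * D + 9)) := mul_le_mul_of_nonneg_left i1 c4
      _ ≤ 2 * (lam * (2.02 * D + 9)) := mul_le_mul_of_nonneg_right c2 i2
  have p1 : 0 ≤ d * (D + 3) := by positivity
  have p2 : 0 ≤ lam * (D + 1) := by positivity
  have p3 : 0 ≤ d * (G + D + 3) := by positivity
  have f1 : a * d * (D + 3) ≤ 2 * (d * (D + 3)) := by
    rw [mul_assoc]; exact mul_le_mul_of_nonneg_right ha2 p1
  have f2 : a * (D + 1) ≤ 2 * (D + 1) := mul_le_mul_of_nonneg_right ha2 (by positivity)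
  have f3 : (a + lam) * (D + 1) ≤ 2 * (D + 1) + lam * (D + 1) := by
    rw [add_mul]; linarith
  have f4 : a * ((D + 1) + d * (D + 3)) ≤ 2 * ((D + 1) + d * (D + 3)) :=
    mul_le_mul_of_nonneg_right ha2 (by positivity)
  have e6 : a ^ 2 * (d * (G + D + 3) + a * (D + 1) + a * d * (D + 3) + (a + lam) * (D + 1) + B) ≤
      4 * (d * (G + D + 3) + 2 * (D + 1) + 2 * (d * (D + 3)) + (2 * (D + 1) + lam * (D + 1)) +
        |B|) :=
    (mul_le_mul_of_nonneg_left (by linarith) (sq_nonneg a)).trans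
      (mul_le_mul_of_nonneg_right c1 (by positivity))
  have e7 : a * (a - 1) * (a * ((D + 1) + d * (D + 3)) + (a + lam) * (D + 1) + B +
        d * (2 * G + 2 * D + 6)) ≤
      2 * (2 * ((D + 1) + d * (D + 3)) + (2 * (D + 1) + lam * (D + 1)) + |B| +
        d * (2 * G + 2 * D + 6)) :=
    (mul_le_mul_of_nonneg_left (by linarith) c4).trans
      (mul_le_mul_of_nonneg_right c2 (by positivity))
  have e8 : a * (a - 1) ^ 2 * (d * (G + 2 * D + 4)) ≤ 2 * (d * (G + 2 * D + 4)) :=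
    mul_le_mul_of_nonneg_right c3 (by positivity)
  have q1 : d * D ≤ d * (G + 3) := mul_le_mul_of_nonneg_left hDG hd
  have q2 : lam * D ≤ lam * (G + 3) := mul_le_mul_of_nonneg_left hDG hl
  have q3 : 0 ≤ d * G := mul_nonneg hd hG
  have q4 : 0 ≤ lam * G := mul_nonneg hl hG
  set R : ℝ := (1000 * (1 + d + lam) + 10 * |B|) + 1000 * (1 + d + lam) * G with hR
  have hR0 : 0 ≤ R := by rw [hR]; positivity
  have tot2 : a * ((a ^ 2 + 3 * a - 2) * L) ≤ a * ((3 * a ^ 2 + 2 * a - 2) * S) +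
      a * ((4 * a ^ 2 + 5 * a - 4 + (3 * a - 1) * lam) * K) + 2 * R := by
    refine tot.trans ?_
    have : 4 * (1.01 * D + 8) + 2 * (2.02 * D + 9) + 2 * (2.02 * D + 9) +
        2 * (lam * (1.01 * D + 8)) + 2 * (lam * (2.02 * D + 9)) +
        4 * (d * (G + D + 3) + 2 * (D + 1) + 2 * (d * (D + 3)) + (2 * (D + 1) + lam * (D + 1)) +
        |B|) + 2 * (2 * ((D + 1) + d * (D + 3)) + (2 * (D + 1) + lam * (D + 1)) + |B| +
        d * (2 * G + 2 * D + 6)) + 2 * (d * (G + 2 * D + 4)) ≤ 2 * R := by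
      rw [hR]
      linarith
    linarith
  have c6 : 2 ≤ a * (a ^ 2 + 3 * a - 2) := by nlinarith
  have c7 : 2 * R ≤ a * (a ^ 2 + 3 * a - 2) * R := mul_le_mul_of_nonneg_right c6 hR0
  have tot3 : a * (a ^ 2 + 3 * a - 2) * L ≤ a * (a ^ 2 + 3 * a - 2) *
      ((3 * a ^ 2 + 2 * a - 2) / (a ^ 2 + 3 * a - 2) * S +
      (4 * a ^ 2 + 5 * a - 4 + (3 * a - 1) * lam) / (a ^ 2 + 3 * a - 2) * K + R) := by
    rw [div_aux hP.ne']
    linarith
  have fin := le_of_mul_le_mul_left tot3 (by positivity)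
  rw [hR] at fin
  linarith

end Pool.Agent.H32.Dense
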