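import Pool.Agent.H32.Dense.Times
import Pool.Agent.H32.Dense.Tail

/-!
# Abstract configurations: the facts used in the analysis
-/

set_option autoImplicit false

namespace Pool.Agent.H32.Dense

open Finset Real
open Pool.Agent.H49.Ent

variable {d : ℕ} {Ω : Type} [Fintype Ω] {ζ : Type}

/-- Two lines crossing at the time `t`; further times `s`, `t₁` of the first line, `r` of the
second line. -/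
structure PCfg (M : ℕ) (q : Ω → ℝ) (Z : Ω → ζ) (v₀ v₁ : Ω → Fin d → ℤ) (u₀ u₁ : Ω → Fin d → ℝ)
    (t s t₁ r : Ω → ℤ) (L S K G D : ℝ) : Prop where
  hM : 0 < M
  hq : ∀ w, 0 ≤ q w
  h1 : ∑ w, q w = 1
  hv₀ : ∀ w, 0 < q w → ∀ k, |v₀ w k| ≤ M
  hv₁ : ∀ w, 0 < q w → ∀ k, |v₁ w k| ≤ M
  hu₀ : Det q (fun w => (v₀ w, Z w)) u₀
  hu₁ : Det q (fun w => (v₁ w, Z w)) u₁
  ht : ∀ w, 0 < q w → 0 ≤ t w ∧ t w < M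
  hs : ∀ w, 0 < q w → 0 ≤ s w ∧ s w < M
  ht₁ : ∀ w, 0 < q w → 0 ≤ t₁ w ∧ t₁ w < M
  hr : ∀ w, 0 < q w → 0 ≤ r w ∧ r w < M
  cross : ∀ w, 0 < q w → rd (pos M (u₀ w) (v₀ w) (t w)) = rd (pos M (u₁ w) (v₁ w) (t w))
  cL : 2 * (L - K) - S ≤ CH q (fun w => (v₀ w, v₁ w)) (fun w => (Z w, t w))
  cs : Real.log M - K ≤ CH q s (fun w => ((v₀ w, v₁ w), Z w, t w))
  ct₁ : Real.log M - K ≤ CH q t₁ (fun w => ((v₀ w, v₁ w), Z w, t w, s w))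
  cr : Real.log M - K ≤ CH q r (fun w => ((v₀ w, v₁ w), Z w, t w, s w, t₁ w))
  Ss : CH q (fun w => rd (pos M (u₀ w) (v₀ w) (s w))) (fun w => (Z w, s w)) ≤ S
  St₁ : CH q (fun w => rd (pos M (u₀ w) (v₀ w) (t₁ w))) (fun w => (Z w, t₁ w)) ≤ S
  Sr : CH q (fun w => rd (pos M (u₁ w) (v₁ w) (r w))) (fun w => (Z w, r w)) ≤ S
  Gst : Ex q (fun w => ell M (s w) (t w)) ≤ G
  Grt : Ex q (fun w => ell M (r w) (t w)) ≤ G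
  D₁ : Ex q (fun w => Real.log (1 + |kap (t w) (s w) (t₁ w)|)) ≤ D
  D₂ : Ex q (fun w => Real.log (1 + |kap (t w) (s w) (t₁ w)|⁻¹)) ≤ D

/-- The rounded coefficient of a pair. -/
noncomputable def cP (t s t₁ r : Ω → ℤ) (w : Ω) : ℤ := ct (t w) (s w) (t₁ w) (r w)

/-- `H(v₀, v₁ | Z, θ)`, `θ = (t, s, c)`. -/
noncomputable def hP (q : Ω → ℝ) (Z : Ω → ζ) (v₀ v₁ : Ω → Fin d → ℤ) (t s t₁ r : Ω → ℤ) : ℝ :=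
  CH q (fun w => (v₀ w, v₁ w)) (fun w => (Z w, (t w, s w, cP t s t₁ r w)))

/-- `H(X | Z, θ)`, `X = l₀(s) + (c / M) v₁` rounded. -/
noncomputable def xP (M : ℕ) (q : Ω → ℝ) (Z : Ω → ζ) (v₀ v₁ : Ω → Fin d → ℤ)
    (u₀ : Ω → Fin d → ℝ) (t s t₁ r : Ω → ℤ) : ℝ :=
  CH q (fun w => xf M (u₀ w) (v₀ w) (s w) (cP t s t₁ r w) (v₁ w))
    (fun w => (Z w, (t w, s w, cP t s t₁ r w)))

/-- `log M - H(c | v₀, v₁, Z, t, s)`. -/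
noncomputable def etaP (M : ℕ) (q : Ω → ℝ) (Z : Ω → ζ) (v₀ v₁ : Ω → Fin d → ℤ)
    (t s t₁ r : Ω → ℤ) : ℝ :=
  Real.log M - CH q (cP t s t₁ r) (fun w => ((v₀ w, v₁ w), Z w, t w, s w))

/-- `H(c | Z, t, s) - log M`. -/
noncomputable def kapP (M : ℕ) (q : Ω → ℝ) (Z : Ω → ζ) (t s t₁ r : Ω → ℤ) : ℝ :=
  CH q (cP t s t₁ r) (fun w => (Z w, t w, s w)) - Real.log M

/-- `H(l₀(t₁), l₁(r) | Z, t, s, t₁, r)`. -/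
noncomputable def abP (M : ℕ) (q : Ω → ℝ) (Z : Ω → ζ) (v₀ v₁ : Ω → Fin d → ℤ)
    (u₀ u₁ : Ω → Fin d → ℝ) (t s t₁ r : Ω → ℤ) : ℝ :=
  CH q (fun w => (rd (pos M (u₀ w) (v₀ w) (t₁ w)), rd (pos M (u₁ w) (v₁ w) (r w))))
    (fun w => (Z w, t w, s w, t₁ w, r w))

/-- Three lines: the lines 0, 1 cross at the time `t`, the lines 0, 2 cross at the time `s`;
`tr`, `ρ` are further times of the line 2 and `c` is the coefficient of the pair 0, 1. -/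
structure CCfg (M : ℕ) (q : Ω → ℝ) (Z : Ω → ζ) (v₀ v₁ v₂ : Ω → Fin d → ℤ)
    (u₀ u₁ u₂ : Ω → Fin d → ℝ) (t s tr ρ c : Ω → ℤ) (L S K G D η x : ℝ) : Prop where
  hM : 0 < M
  hq : ∀ w, 0 ≤ q w
  h1 : ∑ w, q w = 1
  hv₀ : ∀ w, 0 < q w → ∀ k, |v₀ w k| ≤ M
  hv₁ : ∀ w, 0 < q w → ∀ k, |v₁ w k| ≤ M
  hv₂ : ∀ w, 0 < q w → ∀ k, |v₂ w k| ≤ M
  hu₀ : Det q (fun w => (v₀ w, Z w)) u₀
  hu₁ : Det q (fun w => (v₁ w, Z w)) u₁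
  hu₂ : Det q (fun w => (v₂ w, Z w)) u₂
  ht : ∀ w, 0 < q w → 0 ≤ t w ∧ t w < M
  hs : ∀ w, 0 < q w → 0 ≤ s w ∧ s w < M
  htr : ∀ w, 0 < q w → 0 ≤ tr w ∧ tr w < M
  hρ : ∀ w, 0 < q w → 0 ≤ ρ w ∧ ρ w < M
  cross01 : ∀ w, 0 < q w → rd (pos M (u₀ w) (v₀ w) (t w)) = rd (pos M (u₁ w) (v₁ w) (t w))
  cross02 : ∀ w, 0 < q w → rd (pos M (u₀ w) (v₀ w) (s w)) = rd (pos M (u₂ w) (v₂ w) (s w))
  /-- `H(v₀, v₁, v₂ | Z, t, s)` -/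
  cL : 3 * L - 4 * K - 2 * S ≤ CH q (fun w => (v₀ w, v₁ w, v₂ w)) (fun w => (Z w, t w, s w))
  ctr : Real.log M - K ≤ CH q tr (fun w => ((v₀ w, v₁ w, v₂ w), Z w, t w, s w))
  /-- the coefficient is independent of the data of the third line -/
  cc : Real.log M - η ≤ CH q c (fun w => (ρ w, (v₀ w, v₁ w, v₂ w), Z w, t w, s w, tr w))
  cρ : Real.log M - K ≤ CH q ρ (fun w => (c w, (v₀ w, v₁ w, v₂ w), Z w, t w, s w, tr w))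
  cv₁ : L - K - S ≤ CH q v₁ (fun w => ((rd (pos M (u₀ w) (v₀ w) (t w)),
    rd (pos M (u₂ w) (v₂ w) (tr w))), Z w, t w, s w, tr w))
  Sρ : CH q (fun w => rd (pos M (u₂ w) (v₂ w) (ρ w))) (fun w => (Z w, ρ w)) ≤ S
  Str : CH q (fun w => rd (pos M (u₂ w) (v₂ w) (tr w))) (fun w => (Z w, tr w)) ≤ S
  hx : CH q (fun w => xf M (u₀ w) (v₀ w) (s w) (c w) (v₁ w)) (fun w => (Z w, (t w, s w, c w))) ≤ x
  Gst : Ex q (fun w => ell M (s w) (t w)) ≤ G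
  Gc : Ex q (fun w => Real.log (1 + M / max |(c w : ℝ)| 1)) ≤ G + D + 1
  Dc : Ex q (fun w => Real.log (1 + |(c w : ℝ)| / M)) ≤ D + 1
  D₁ : Ex q (fun w => Real.log (1 + |kap (s w) (tr w) (ρ w)|)) ≤ D
  D₂ : Ex q (fun w => Real.log (1 + |kap (s w) (tr w) (ρ w)|⁻¹)) ≤ D

/-- The second rounded coefficient. -/
noncomputable def cC (s tr ρ c : Ω → ℤ) (w : Ω) : ℤ := ⌊kap (s w) (tr w) (ρ w) * (c w : ℝ)⌋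

/-- `H(v₀, v₁, v₂ | Z, θ₂)`, `θ₂ = (t, s, tr, c₂)`. -/
noncomputable def hC (q : Ω → ℝ) (Z : Ω → ζ) (v₀ v₁ v₂ : Ω → Fin d → ℤ)
    (t s tr ρ c : Ω → ℤ) : ℝ :=
  CH q (fun w => (v₀ w, v₁ w, v₂ w)) (fun w => (Z w, (t w, s w, tr w, cC s tr ρ c w)))

/-- `H(Y | Z, θ₂)`, `Y = l₂(tr) + (c₂ / M) v₁` rounded. -/
noncomputable def yC (M : ℕ) (q : Ω → ℝ) (Z : Ω → ζ) (v₁ v₂ : Ω → Fin d → ℤ)
    (u₂ : Ω → Fin d → ℝ) (t s tr ρ c : Ω → ℤ) : ℝ :=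
  CH q (fun w => xf M (u₂ w) (v₂ w) (tr w) (cC s tr ρ c w) (v₁ w))
    (fun w => (Z w, (t w, s w, tr w, cC s tr ρ c w)))

/-- `log M - H(c₂ | v₀, v₁, v₂, Z, t, s, tr)`. -/
noncomputable def etaC (M : ℕ) (q : Ω → ℝ) (Z : Ω → ζ) (v₀ v₁ v₂ : Ω → Fin d → ℤ)
    (t s tr ρ c : Ω → ℤ) : ℝ :=
  Real.log M - CH q (cC s tr ρ c) (fun w => ((v₀ w, v₁ w, v₂ w), Z w, t w, s w, tr w))

/-- `H(c₂ | Z, t, s, tr) - log M`. -/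
noncomputable def kapC (M : ℕ) (q : Ω → ℝ) (Z : Ω → ζ) (t s tr ρ c : Ω → ℤ) : ℝ :=
  CH q (cC s tr ρ c) (fun w => (Z w, t w, s w, tr w)) - Real.log M

/-- `H(l₀(t), l₂(tr) | Z, t, s, tr)`. -/
noncomputable def mC (M : ℕ) (q : Ω → ℝ) (Z : Ω → ζ) (v₀ v₂ : Ω → Fin d → ℤ)
    (u₀ u₂ : Ω → Fin d → ℝ) (t s tr : Ω → ℤ) : ℝ :=
  CH q (fun w => (rd (pos M (u₀ w) (v₀ w) (t w)), rd (pos M (u₂ w) (v₂ w) (tr w))))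
    (fun w => (Z w, t w, s w, tr w))

end Pool.Agent.H32.Dense
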