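import Pool.Agent.H32.Dense.Cfg

/-!
# Derived families; the inequalities for a pair of crossing lines
-/

set_option autoImplicit false

namespace Pool.Agent.H32.Dense

open Finset Real
open Pool.Agent.H49.Ent

variable {d : ℕ} {Ω : Type} [Fintype Ω] {ζ : Type}

theorem derived {a lam B : ℝ} (h : AKD d a lam B) (ha : 0 ≤ a) (hl : 0 ≤ lam) {M : ℕ} {q : Ω → ℝ}
    {θT YT WT : Type} {Z : Ω → ζ} {T : Ω → θT} {Y : Ω → YT} {W : Ω → WT} {v : Ω → Fin d → ℤ}
    {u : Ω → Fin d → ℝ} {τ : Ω → ℤ} (hfam : IsFam M q (fun w => (Z w, T w, Y w)) v u τ)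
    (hWv : Det q W v) (hY : Det q (fun w => (W w, Z w, T w)) Y) :
    CH q W (fun w => (Z w, T w)) + (a - 1) * CH q Y (fun w => (Z w, T w)) ≤
      a * CH q (fun w => (rd (pos M (u w) (v w) (τ w)), Y w)) (fun w => (Z w, T w, τ w)) +
        (a + lam) * (Real.log M - CH q τ (fun w => (W w, Z w, T w))) + B +
        CH q W (fun w => (v w, Z w, T w, Y w)) := by
  have hq := hfam.hp
  -- step 1
  have s1 := CH_le_add hq W Y (fun w => (Z w, T w))
  have s2 := CH_le_add hq W v (fun w => (Y w, (Z w, T w)))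
  have s3 : CH q v (fun w => (Y w, (Z w, T w))) = CH q v (fun w => (Z w, T w, Y w)) := by
    refine CH_congr hq ?_ ?_ ?_ ?_ <;>
    · intro w w' _ _ e
      simp only [Prod.mk.injEq] at e ⊢
      tauto
  have s4 : CH q W (fun w => (v w, (Y w, (Z w, T w)))) = CH q W (fun w => (v w, Z w, T w, Y w)) := by
    refine CH_congr hq ?_ ?_ ?_ ?_ <;>
    · intro w w' _ _ e
      simp only [Prod.mk.injEq] at e ⊢
      tauto
  -- the hypothesis
  have hak := h M Ω (ζ × θT × YT) q (fun w => (Z w, T w, Y w)) v u τ hfam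
  unfold Sf Kf at hak
  have s5 : CH q τ (fun w => (W w, Z w, T w)) ≤
      CH q τ (fun w => (v w, (Z w, T w, Y w))) := by
    refine CH_mono_cond hq ?_
    intro w w' a b e
    have e1 := hY w w' a b e
    simp only [Prod.mk.injEq] at e ⊢
    exact ⟨hWv w w' a b e.1, e.2.1, e.2.2, e1⟩
  -- the slices
  have s6 : CH q (fun w => rd (pos M (u w) (v w) (τ w))) (fun w => ((Z w, T w, Y w), τ w)) =
      CH q (fun w => (rd (pos M (u w) (v w) (τ w)), Y w)) (fun w => (Z w, T w, τ w)) -
        CH q Y (fun w => (Z w, T w, τ w)) := by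
    rw [CH_chain hq]
    have : CH q (fun w => rd (pos M (u w) (v w) (τ w))) (fun w => ((Z w, T w, Y w), τ w)) =
        CH q (fun w => rd (pos M (u w) (v w) (τ w))) (fun w => (Y w, (Z w, T w, τ w))) := by
      refine CH_congr hq ?_ ?_ ?_ ?_ <;>
      · intro w w' _ _ e
        simp only [Prod.mk.injEq] at e ⊢
        tauto
    rw [this]
    ring
  -- information between `Y` and the time
  have s7 : CH q Y (fun w => (Z w, T w)) + CH q τ (fun w => (W w, Z w, T w)) - Real.log M ≤
      CH q Y (fun w => (Z w, T w, τ w)) := by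
    have c1 := CH_chain hq Y τ (fun w => (Z w, T w))
    have c2 := CH_chain hq τ Y (fun w => (Z w, T w))
    have c3 : CH q (fun w => (Y w, τ w)) (fun w => (Z w, T w)) =
        CH q (fun w => (τ w, Y w)) (fun w => (Z w, T w)) := by
      refine CH_congr hq ?_ ?_ ?_ ?_ <;>
      · intro w w' _ _ e
        simp only [Prod.mk.injEq] at e ⊢
        tauto
    have c4 : CH q Y (fun w => (τ w, (Z w, T w))) = CH q Y (fun w => (Z w, T w, τ w)) := by
      refine CH_congr hq ?_ ?_ ?_ ?_ <;>
      · intro w w' _ _ e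
        simp only [Prod.mk.injEq] at e ⊢
        tauto
    have c5 : CH q τ (fun w => (W w, Z w, T w)) ≤ CH q τ (fun w => (Y w, (Z w, T w))) := by
      refine CH_mono_cond hq ?_
      intro w w' a b e
      have e1 := hY w w' a b e
      simp only [Prod.mk.injEq] at e ⊢
      exact ⟨e1, e.2.1, e.2.2⟩
    have c6 := CH_time_le hq hfam.h1 hfam.hτ (fun w => (Z w, T w))
    linarith
  rw [s6] at hak
  have k1 := mul_le_mul_of_nonneg_left s7 ha
  have k2 := mul_le_mul_of_nonneg_left s5 hl
  rw [s3, s4] at s2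
  nlinarith [s1, s2, hak, k1, k2]

end Pool.Agent.H32.Dense
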