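import Pool.Agent.H32.Dense.StopL

/-!
# The energy inside the dyadic interval
-/

set_option autoImplicit false

namespace Pool.Agent.H32.Dense

open Finset Real
open Pool.Agent.H49.Ent

section

variable {Ω β : Type} [Fintype Ω] {m : ℕ} {ε : ℝ} {p : Ω → ℝ} {b : Ω → β} {τ : Ω → ℤ} {J : Ω → ℕ}

lemma mass_last (z : β) (x : ℤ) :
    mass m p b τ z m x = law p (fun ω => (b ω, τ ω)) (z, x) / law p b z := by
  unfold mass
  simp only [Nat.sub_self, pow_zero, Int.ediv_one]

open Classical in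
/-- Additivity of the mass. -/
lemma sum_mass_le (hp : ∀ ω, 0 ≤ p ω) (z : β) (k : ℕ) (x₀ : ℤ) (F : Finset ℤ)
    (hF : ∀ x ∈ F, x / 2 ^ (m - k) = x₀ / 2 ^ (m - k)) :
    ∑ x ∈ F, mass m p b τ z m x ≤ mass m p b τ z k x₀ := by
  simp_rw [mass_last]
  rw [← Finset.sum_div]
  unfold mass
  refine div_le_div_of_nonneg_right ?_ (law_nonneg hp _ _)
  unfold law
  rw [Finset.sum_comm]
  refine Finset.sum_le_sum fun ω _ => ?_
  by_cases h : b ω = z ∧ τ ω ∈ F
  · have h1 : (b ω, τ ω / 2 ^ (m - k)) = (z, x₀ / 2 ^ (m - k)) := by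
      rw [h.1, hF _ h.2]
    refine le_trans ?_ (le_of_eq (if_pos h1).symm)
    refine le_trans (le_of_eq (Finset.sum_congr rfl fun y _ => ?_))
      (?_ : ∑ y ∈ F, (if τ ω = y then p ω else 0) ≤ p ω)
    · simp only [Prod.mk.injEq, h.1, true_and]
    · rw [Finset.sum_ite_eq]
      split_ifs
      · exact le_rfl
      · exact hp ω
  · refine le_trans (le_of_eq (Finset.sum_eq_zero fun y hy => ?_)) ?_
    · rw [if_neg]
      intro hh
      simp only [Prod.mk.injEq] at hh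
      exact h ⟨hh.1, hh.2 ▸ hy⟩
    · split_ifs
      · exact hp ω
      · exact le_rfl

/-- The power of the inverse distance is a sum over dyadic scales. -/
lemma pow_le_sum {n : ℕ} {s D : ℝ} (hs : 0 ≤ s) (h1 : 1 ≤ D) (h2 : D ≤ 2 ^ n) :
    (2 ^ n / D) ^ s ≤ ∑ l ∈ Finset.range (n + 1),
      (2 : ℝ) ^ (((l : ℝ) + 1) * s) * (if D ≤ 2 ^ (n - l) then 1 else 0) := by
  classical
  -- the largest l with D ≤ 2^(n-l)
  have hD0 : 0 < D := by linarith
  obtain ⟨l, hl1, hl2, hl3⟩ : ∃ l ≤ n, D ≤ 2 ^ (n - l) ∧ 2 ^ n / D ≤ (2 : ℝ) ^ (l + 1) := by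
    have hne : ((Finset.range (n + 1)).filter fun l => D ≤ (2 : ℝ) ^ (n - l)).Nonempty :=
      ⟨0, by rw [Finset.mem_filter]; exact ⟨by simp, by simpa using h2⟩⟩
    obtain ⟨l, hl, hmax⟩ := Finset.exists_max_image _ (fun l => l) hne
    rw [Finset.mem_filter, Finset.mem_range] at hl
    refine ⟨l, by omega, hl.2, ?_⟩
    rcases Nat.lt_or_ge l n with hln | hln
    · have : ¬ D ≤ (2 : ℝ) ^ (n - (l + 1)) := by
        intro h
        have := hmax (l + 1) (by rw [Finset.mem_filter, Finset.mem_range]; exact ⟨by omega, h⟩)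
        omega
      rw [not_le] at this
      rw [div_le_iff₀ hD0]
      calc (2 : ℝ) ^ n = 2 ^ (l + 1) * 2 ^ (n - (l + 1)) := by
            rw [← pow_add]; congr 1; omega
        _ ≤ 2 ^ (l + 1) * D := by gcongr
    · have hln' : l = n := by omega
      subst hln'
      rw [div_le_iff₀ hD0]
      calc (2 : ℝ) ^ l ≤ 2 ^ (l + 1) * 1 := by
            rw [mul_one]
            exact pow_le_pow_right₀ (by norm_num) (by omega)
        _ ≤ 2 ^ (l + 1) * D := by gcongr
  calc (2 ^ n / D) ^ s ≤ ((2 : ℝ) ^ (l + 1)) ^ s :=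
        Real.rpow_le_rpow (by positivity) hl3 hs
    _ = (2 : ℝ) ^ (((l : ℝ) + 1) * s) * (if D ≤ 2 ^ (n - l) then 1 else 0) := by
        rw [if_pos hl2, mul_one, ← Real.rpow_natCast, ← Real.rpow_mul (by norm_num)]
        push_cast
        rfl
    _ ≤ _ := by
        refine Finset.single_le_sum (f := fun l : ℕ => (2 : ℝ) ^ (((l : ℝ) + 1) * s) *
          (if D ≤ 2 ^ (n - l) then (1 : ℝ) else 0)) (fun i _ => ?_)
          (Finset.mem_range.mpr (by omega))
        positivity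

lemma div_near {x y : ℤ} {k : ℕ} (h : |x - y| ≤ 2 ^ k) :
    x / 2 ^ k = y / 2 ^ k - 1 ∨ x / 2 ^ k = y / 2 ^ k ∨ x / 2 ^ k = y / 2 ^ k + 1 := by
  have h2 : (0 : ℤ) < 2 ^ k := by positivity
  rw [abs_le] at h
  have a1 : y / 2 ^ k - 1 ≤ x / 2 ^ k := by
    have : y / 2 ^ k - 1 = (y - 2 ^ k) / 2 ^ k := by
      rw [Int.sub_ediv_of_dvd _ (dvd_refl _), Int.ediv_self h2.ne']
    rw [this]
    exact Int.ediv_le_ediv h2 (by linarith)
  have a2 : x / 2 ^ k ≤ y / 2 ^ k + 1 := by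
    have : y / 2 ^ k + 1 = (y + 2 ^ k) / 2 ^ k := by
      rw [Int.add_ediv_of_dvd_right (dvd_refl _), Int.ediv_self h2.ne']
    rw [this]
    exact Int.ediv_le_ediv h2 (by linarith)
  omega

open Classical in
/-- The main sum. -/
lemma sum_kernel (hε : 0 < ε) (hp : ∀ ω, 0 ≤ p ω) (hJ : Stop m ε p b τ J) {j : ℕ} (hj : j ≤ m)
    (z : β) (i y : ℤ) (hy : y / 2 ^ (m - j) = i) (x₁ : ℤ) (hx₁ : x₁ / 2 ^ (m - j) = i)
    (F : Finset ℤ) (hF : ∀ x ∈ F, x / 2 ^ (m - j) = i ∧
      ∃ ω, 0 < p ω ∧ b ω = z ∧ τ ω = x ∧ J ω = j) :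
    ∑ x ∈ F, mass m p b τ z m x *
      ((2 : ℝ) ^ (m - j) / max |(x : ℝ) - y| 1) ^ (ε / 2) ≤
      (3 * 2 ^ (ε / 2) / (1 - (2 : ℝ) ^ (-(ε / 2)))) * mass m p b τ z j x₁ := by
  set n := m - j with hn
  set s := ε / 2 with hs
  have hs0 : 0 < s := by positivity
  have hmass0 : 0 ≤ mass m p b τ z j x₁ := mass_nonneg hp _ _ _
  have h2n : (0 : ℤ) < 2 ^ n := by positivity
  -- distances
  have hdist : ∀ x ∈ F, max |(x : ℝ) - y| 1 ≤ 2 ^ n := by
    intro x hx
    have e1 := (hF x hx).1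
    refine max_le ?_ (one_le_pow₀ (by norm_num))
    have i1 := Int.emod_add_mul_ediv x (2 ^ n)
    have i2 := Int.emod_add_mul_ediv y (2 ^ n)
    have i3 := Int.emod_nonneg x h2n.ne'
    have i4 := Int.emod_lt_of_pos x h2n
    have i5 := Int.emod_nonneg y h2n.ne'
    have i6 := Int.emod_lt_of_pos y h2n
    rw [e1] at i1
    rw [hy] at i2
    have : |x - y| ≤ 2 ^ n := by
      rw [abs_le]
      constructor <;> linarith
    exact_mod_cast this
  -- one interval
  have hone : ∀ l ≤ n, ∀ c : ℤ, ∑ x ∈ F.filter (fun x => x / 2 ^ (n - l) = c),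
      mass m p b τ z m x ≤ (2 : ℝ) ^ (-(ε * l)) * mass m p b τ z j x₁ := by
    intro l hl c
    rcases (F.filter (fun x => x / 2 ^ (n - l) = c)).eq_empty_or_nonempty with he | ⟨x₀, hx₀⟩
    · rw [he, Finset.sum_empty]
      positivity
    · rw [Finset.mem_filter] at hx₀
      obtain ⟨hq, ω, hω, hb, hτω, hJω⟩ := hF x₀ hx₀.1
      have hk : m - (j + l) = n - l := by omega
      have h1 := sum_mass_le (m := m) (b := b) (τ := τ) hp z (j + l) x₀
        (F.filter (fun x => x / 2 ^ (n - l) = c)) (by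
          intro x hx
          rw [Finset.mem_filter] at hx
          rw [hk, hx.2, hx₀.2])
      have h2 := hJ.max ω (j + l) (by omega)
      rw [hb, hτω, hJω] at h2
      have h3 : mass m p b τ z j x₀ = mass m p b τ z j x₁ := by
        unfold mass
        rw [← hn, hq, hx₁]
      rw [h3] at h2
      have e1 : (2 : ℝ) ^ (ε * ((j + l : ℕ) : ℝ)) = 2 ^ (ε * j) * 2 ^ (ε * l) := by
        rw [← Real.rpow_add (by norm_num)]
        congr 1
        push_cast
        ring
      rw [e1] at h2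
      have e2 : 0 < (2 : ℝ) ^ (ε * j) := by positivity
      have e3 : 0 < (2 : ℝ) ^ (ε * l) := by positivity
      have h4 : mass m p b τ z (j + l) x₀ * 2 ^ (ε * l) ≤ mass m p b τ z j x₁ := by
        have : (mass m p b τ z (j + l) x₀ * 2 ^ (ε * l)) * 2 ^ (ε * j) ≤
            mass m p b τ z j x₁ * 2 ^ (ε * j) := by linarith
        exact le_of_mul_le_mul_right this e2
      rw [Real.rpow_neg (by norm_num), inv_mul_eq_div, le_div_iff₀ e3]
      exact (mul_le_mul_of_nonneg_right h1 e3.le).trans h4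
  -- three intervals
  have hthree : ∀ l ≤ n, ∑ x ∈ F, mass m p b τ z m x *
      (if max |(x : ℝ) - y| 1 ≤ 2 ^ (n - l) then 1 else 0) ≤
      3 * ((2 : ℝ) ^ (-(ε * l)) * mass m p b τ z j x₁) := by
    intro l hl
    have h0 : ∀ x, 0 ≤ mass m p b τ z m x := fun x => mass_nonneg hp _ _ _
    set c := y / 2 ^ (n - l) with hc
    have h1 : ∀ x ∈ F, mass m p b τ z m x *
        (if max |(x : ℝ) - y| 1 ≤ 2 ^ (n - l) then 1 else 0) ≤
        (if x / 2 ^ (n - l) = c - 1 then mass m p b τ z m x else 0) +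
        (if x / 2 ^ (n - l) = c then mass m p b τ z m x else 0) +
        (if x / 2 ^ (n - l) = c + 1 then mass m p b τ z m x else 0) := by
      intro x _
      have a1 : 0 ≤ (if x / 2 ^ (n - l) = c - 1 then mass m p b τ z m x else 0) := by
        split_ifs; exact h0 x; exact le_rfl
      have a2 : 0 ≤ (if x / 2 ^ (n - l) = c then mass m p b τ z m x else 0) := by
        split_ifs; exact h0 x; exact le_rfl
      have a3 : 0 ≤ (if x / 2 ^ (n - l) = c + 1 then mass m p b τ z m x else 0) := by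
        split_ifs; exact h0 x; exact le_rfl
      by_cases hm : max |(x : ℝ) - y| 1 ≤ 2 ^ (n - l)
      · rw [if_pos hm, mul_one]
        have hxy : |x - y| ≤ 2 ^ (n - l) := by
          have := (le_max_left _ _).trans hm
          exact_mod_cast this
        rcases div_near hxy with e | e | e
        · rw [if_pos (show x / 2 ^ (n - l) = c - 1 from e)]; linarith
        · rw [if_pos (show x / 2 ^ (n - l) = c from e)]; linarith
        · rw [if_pos (show x / 2 ^ (n - l) = c + 1 from e)]; linarith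
      · rw [if_neg hm, mul_zero]
        linarith
    refine (Finset.sum_le_sum h1).trans ?_
    rw [Finset.sum_add_distrib, Finset.sum_add_distrib, ← Finset.sum_filter, ← Finset.sum_filter,
      ← Finset.sum_filter]
    have b1 := hone l hl (c - 1)
    have b2 := hone l hl c
    have b3 := hone l hl (c + 1)
    linarith
  -- sum over the scales
  have hstep : ∑ x ∈ F, mass m p b τ z m x * ((2 : ℝ) ^ n / max |(x : ℝ) - y| 1) ^ s ≤
      ∑ l ∈ Finset.range (n + 1), (2 : ℝ) ^ (((l : ℝ) + 1) * s) *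
        (3 * ((2 : ℝ) ^ (-(ε * l)) * mass m p b τ z j x₁)) := by
    calc _ ≤ ∑ x ∈ F, mass m p b τ z m x * ∑ l ∈ Finset.range (n + 1),
          (2 : ℝ) ^ (((l : ℝ) + 1) * s) * (if max |(x : ℝ) - y| 1 ≤ 2 ^ (n - l) then 1 else 0) := by
          refine Finset.sum_le_sum fun x hx => mul_le_mul_of_nonneg_left ?_ (mass_nonneg hp _ _ _)
          exact pow_le_sum hs0.le (le_max_right _ _) (hdist x hx)
      _ = ∑ l ∈ Finset.range (n + 1), (2 : ℝ) ^ (((l : ℝ) + 1) * s) *
          ∑ x ∈ F, mass m p b τ z m x * (if max |(x : ℝ) - y| 1 ≤ 2 ^ (n - l) then 1 else 0) := by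
          simp_rw [Finset.mul_sum]
          rw [Finset.sum_comm]
          refine Finset.sum_congr rfl fun l _ => Finset.sum_congr rfl fun x _ => ?_
          ring
      _ ≤ _ := by
          refine Finset.sum_le_sum fun l hl => mul_le_mul_of_nonneg_left ?_ (by positivity)
          rw [Finset.mem_range] at hl
          exact hthree l (by omega)
  refine hstep.trans ?_
  -- geometric series
  have e1 : ∀ l : ℕ, (2 : ℝ) ^ (((l : ℝ) + 1) * s) *
        (3 * ((2 : ℝ) ^ (-(ε * l)) * mass m p b τ z j x₁)) =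
      (3 * 2 ^ s * mass m p b τ z j x₁) * ((2 : ℝ) ^ (-s)) ^ l := by
    intro l
    have : (2 : ℝ) ^ (((l : ℝ) + 1) * s) * (2 : ℝ) ^ (-(ε * l)) =
        2 ^ s * ((2 : ℝ) ^ (-s)) ^ l := by
      rw [← Real.rpow_natCast, ← Real.rpow_mul (by norm_num), ← Real.rpow_add (by norm_num),
        ← Real.rpow_add (by norm_num)]
      congr 1
      rw [hs]
      ring
    calc _ = 3 * ((2 : ℝ) ^ (((l : ℝ) + 1) * s) * (2 : ℝ) ^ (-(ε * l))) *
          mass m p b τ z j x₁ := by ring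
      _ = _ := by rw [this]; ring
  simp_rw [e1]
  rw [← Finset.mul_sum]
  have hr1 : (2 : ℝ) ^ (-s) < 1 := by
    rw [Real.rpow_neg (by norm_num)]
    exact inv_lt_one_of_one_lt₀ (Real.one_lt_rpow (by norm_num) hs0)
  have hr0 : 0 < (2 : ℝ) ^ (-s) := by positivity
  have hg : ∑ l ∈ Finset.range (n + 1), ((2 : ℝ) ^ (-s)) ^ l ≤ 1 / (1 - (2 : ℝ) ^ (-s)) := by
    rw [geom_sum_eq hr1.ne, ← neg_div_neg_eq, neg_sub, neg_sub]
    have : 0 < 1 - (2 : ℝ) ^ (-s) := by linarith
    rw [div_le_div_iff_of_pos_right this]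
    have : 0 ≤ ((2 : ℝ) ^ (-s)) ^ (n + 1) := by positivity
    linarith
  calc _ ≤ (3 * 2 ^ s * mass m p b τ z j x₁) * (1 / (1 - (2 : ℝ) ^ (-s))) := by gcongr
    _ = _ := by ring

end

/-- The energy of the times inside the dyadic intervals. -/
theorem stop_energy {ε : ℝ} (hε : 0 < ε) : ∃ C : ℝ, ∀ (Ω : Type) [Fintype Ω] (β : Type) (m : ℕ)
    (p : Ω → ℝ) (b : Ω → β) (τ : Ω → ℤ) (J : Ω → ℕ), (∀ ω, 0 ≤ p ω) → ∑ ω, p ω = 1 →
    (∀ ω, 0 < p ω → 0 ≤ τ ω ∧ τ ω < 2 ^ m) → Stop m ε p b τ J → ∀ j ≤ m, law p J j ≠ 0 →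
    (ε / 2) * Gf (2 ^ (m - j)) (cond p J j) (fun ω => (b ω, τ ω / 2 ^ (m - j)))
        (fun ω => τ ω % 2 ^ (m - j)) ≤
      C + Ex (cond p J j) (fun ω => -Real.log (mass m p b τ (b ω) m (τ ω)) +
          Real.log (mass m p b τ (b ω) j (τ ω))) -
        CH (cond p J j) τ (fun ω => (b ω, τ ω / 2 ^ (m - j))) := by
  classical
  set C₁ : ℝ := 3 * 2 ^ (ε / 2) / (1 - (2 : ℝ) ^ (-(ε / 2))) with hC₁
  have hr1 : (2 : ℝ) ^ (-(ε / 2)) < 1 := by
    rw [Real.rpow_neg (by norm_num)]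
    exact inv_lt_one_of_one_lt₀ (Real.one_lt_rpow (by norm_num) (by positivity))
  have hC₁0 : 0 < C₁ := div_pos (by positivity) (by linarith)
  refine ⟨Real.log C₁, ?_⟩
  intro Ω _ β m p b τ J hp h1 hτ hJ j hj hlaw
  set n := m - j with hn
  set r := cond p J j with hr
  have hr0 : ∀ ω, 0 ≤ r ω := cond_nonneg hp J j
  have hr1' : ∑ ω, r ω = 1 := sum_cond p J hlaw
  have hrpos : ∀ ω, 0 < r ω → 0 < p ω ∧ J ω = j := fun ω h => (cond_pos_iff hp J j ω).mp h
  set b' : Ω → β × ℤ := fun ω => (b ω, τ ω / 2 ^ n) with hb'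
  set q := dbl r b' with hq
  have hq0 : ∀ w, 0 ≤ q w := dbl_nonneg hr0
  have m1 : Marg q r (fun w => w.1) := dbl_fst hr0
  have m2 : Marg q r (fun w => w.2) := dbl_snd hr0
  have hq1 : ∑ w, q w = 1 := by rw [m1.sum]; exact hr1'
  have hqe : ∀ w, 0 < q w → b' w.1 = b' w.2 := fun w hw => dbl_eq hr0 hw
  -- the kernel
  set good : β → ℤ → Prop := fun z x => ∃ ω, 0 < p ω ∧ b ω = z ∧ τ ω = x ∧ J ω = j with hgood
  set K : (β × ℤ) × ℤ → ℤ → ℝ := fun w x => if x / 2 ^ n = w.1.2 ∧ good w.1.1 x then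
    C₁⁻¹ * (mass m p b τ w.1.1 m x / mass m p b τ w.1.1 j x *
      ((2 : ℝ) ^ n / max |(x : ℝ) - w.2| 1) ^ (ε / 2)) else 0 with hK
  have hgood1 : ∀ w, 0 < q w → (τ w.1 / 2 ^ n = (b' w.1).2 ∧ good (b' w.1).1 (τ w.1)) := by
    intro w hw
    have h3 := hrpos _ (m1.pos hq0 hw)
    exact ⟨rfl, w.1, h3.1, rfl, rfl, h3.2⟩
  have hKval : ∀ w, 0 < q w → K (b' w.1, τ w.2) (τ w.1) =
      C₁⁻¹ * (mass m p b τ (b w.1) m (τ w.1) / mass m p b τ (b w.1) j (τ w.1) *
      ((2 : ℝ) ^ n / max |(τ w.1 : ℝ) - τ w.2| 1) ^ (ε / 2)) := by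
    intro w hw
    simp only [hK]
    rw [if_pos (hgood1 w hw)]
  have hcross := CH_le_cross hq0 hq1 (fun w => τ w.1) (fun w => (b' w.1, τ w.2)) K
    (by
      intro w hw
      have h3 := hrpos _ (m1.pos hq0 hw)
      rw [hKval w hw]
      have a1 := mass_pos (m := m) (b := b) (τ := τ) hp h3.1 m
      have a2 := mass_pos (m := m) (b := b) (τ := τ) hp h3.1 j
      positivity)
    (by
      intro w x
      simp only [hK]
      split_ifs
      · have a1 := mass_nonneg (m := m) (b := b) (τ := τ) hp w.1.1 m x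
        have a2 := mass_nonneg (m := m) (b := b) (τ := τ) hp w.1.1 j x
        positivity
      · exact le_rfl)
    (by
      intro w hw F
      have h3 := hrpos _ (m1.pos hq0 hw)
      have h4 := hqe w hw
      simp only [hb', Prod.mk.injEq] at h4
      simp only [hK]
      rw [← Finset.sum_filter]
      have hmj := mass_pos (m := m) (b := b) (τ := τ) hp h3.1 j
      have hsum := sum_kernel hε hp hJ hj (b w.1) (τ w.1 / 2 ^ n) (τ w.2) h4.2.symm (τ w.1) rfl
        (F.filter fun x => x / 2 ^ n = (b' w.1).2 ∧ good (b' w.1).1 x) (by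
          intro x hx
          rw [Finset.mem_filter] at hx
          exact hx.2)
      have e1 : ∑ x ∈ F.filter (fun x => x / 2 ^ n = (b' w.1).2 ∧ good (b' w.1).1 x),
          C₁⁻¹ * (mass m p b τ (b' w.1).1 m x / mass m p b τ (b' w.1).1 j x *
          ((2 : ℝ) ^ n / max |(x : ℝ) - τ w.2| 1) ^ (ε / 2)) =
          (C₁⁻¹ * (mass m p b τ (b w.1) j (τ w.1))⁻¹) *
          ∑ x ∈ F.filter (fun x => x / 2 ^ n = (b' w.1).2 ∧ good (b' w.1).1 x),
          mass m p b τ (b w.1) m x * ((2 : ℝ) ^ n / max |(x : ℝ) - τ w.2| 1) ^ (ε / 2) := by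
        rw [Finset.mul_sum]
        refine Finset.sum_congr rfl fun x hx => ?_
        rw [Finset.mem_filter] at hx
        have : mass m p b τ (b w.1) j x = mass m p b τ (b w.1) j (τ w.1) := by
          unfold mass
          rw [← hn, hx.2.1]
        have e2 : (b' w.1).1 = b w.1 := rfl
        rw [e2, this]
        ring
      rw [e1]
      calc _ ≤ (C₁⁻¹ * (mass m p b τ (b w.1) j (τ w.1))⁻¹) *
            (C₁ * mass m p b τ (b w.1) j (τ w.1)) := by
            refine mul_le_mul_of_nonneg_left hsum ?_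
            positivity
        _ = 1 := by field_simp)
  have hind : CH q (fun w => τ w.1) (fun w => (b' w.1, τ w.2)) = CH r τ b' :=
    CH_dbl_1 hr0 (b := b') τ τ
  rw [hind] at hcross
  -- the right side
  have hG : Gf (2 ^ n) r b' (fun ω => τ ω % 2 ^ n) =
      Ex q (fun w => Real.log ((2 : ℝ) ^ n / max |(τ w.1 : ℝ) - τ w.2| 1)) := by
    unfold Gf
    rw [← hq]
    unfold Ex
    refine Finset.sum_congr rfl fun w _ => ?_
    rcases (hq0 w).eq_or_lt with h0 | h0
    · rw [← h0, zero_mul, zero_mul]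
    · congr 1
      unfold ell
      have h4 := hqe w h0
      simp only [hb', Prod.mk.injEq] at h4
      have i1 := Int.emod_add_mul_ediv (τ w.1) (2 ^ n)
      have i2 := Int.emod_add_mul_ediv (τ w.2) (2 ^ n)
      rw [h4.2] at i1
      have : ((τ w.1 % 2 ^ n : ℤ) : ℝ) - ((τ w.2 % 2 ^ n : ℤ) : ℝ) = (τ w.1 : ℝ) - τ w.2 := by
        have : τ w.1 % 2 ^ n - τ w.2 % 2 ^ n = τ w.1 - τ w.2 := by linarith
        exact_mod_cast this
      beta_reduce
      rw [this]
      push_cast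
      rfl
  rw [hG]
  have hR : Ex q (fun w => -Real.log (K (b' w.1, τ w.2) (τ w.1))) =
      Real.log C₁ + Ex r (fun ω => -Real.log (mass m p b τ (b ω) m (τ ω)) +
          Real.log (mass m p b τ (b ω) j (τ ω))) -
      (ε / 2) * Ex q (fun w => Real.log ((2 : ℝ) ^ n / max |(τ w.1 : ℝ) - τ w.2| 1)) := by
    rw [← m1.ex (fun ω => -Real.log (mass m p b τ (b ω) m (τ ω)) +
          Real.log (mass m p b τ (b ω) j (τ ω))), ← Ex_smul]
    have hc : Ex q (fun _ => Real.log C₁) = Real.log C₁ := Ex_const hq1 _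
    rw [← hc, ← Ex_add, ← Ex_sub]
    unfold Ex
    refine Finset.sum_congr rfl fun w _ => ?_
    rcases (hq0 w).eq_or_lt with h0 | h0
    · rw [← h0, zero_mul, zero_mul]
    · congr 1
      beta_reduce
      rw [hKval w h0]
      have h3 := hrpos _ (m1.pos hq0 h0)
      have a1 := mass_pos (m := m) (b := b) (τ := τ) hp h3.1 m
      have a2 := mass_pos (m := m) (b := b) (τ := τ) hp h3.1 j
      have a3 : (0 : ℝ) < max |(τ w.1 : ℝ) - τ w.2| 1 := lt_of_lt_of_le one_pos (le_max_right _ _)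
      rw [Real.log_mul (by positivity) (by positivity), Real.log_inv,
        Real.log_mul (by positivity) (by positivity), Real.log_div a1.ne' a2.ne',
        Real.log_rpow (by positivity)]
      ring
  rw [hR] at hcross
  linarith

end Pool.Agent.H32.Dense
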