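import Pool.Agent.H32.Dense.Pair
import Pool.Agent.H32.Dense.Iface

/-!
# Localisation of the times: definitions
-/

set_option autoImplicit false

namespace Pool.Agent.H32.Dense

open Finset Real
open Pool.Agent.H49.Ent

/-- The mass, given `b = z`, of the dyadic interval of length `2 ^ (m - k)` containing `y`. -/
noncomputable def mass {Ω β : Type*} [Fintype Ω] (m : ℕ) (p : Ω → ℝ) (b : Ω → β) (τ : Ω → ℤ)
    (z : β) (k : ℕ) (y : ℤ) : ℝ :=
  law p (fun ω => (b ω, τ ω / 2 ^ (m - k))) (z, y / 2 ^ (m - k)) / law p b z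

/-- `J` is the depth of a dyadic interval around `τ` of maximal mass times `2 ^ (ε depth)`. -/
structure Stop {Ω β : Type*} [Fintype Ω] (m : ℕ) (ε : ℝ) (p : Ω → ℝ) (b : Ω → β) (τ : Ω → ℤ)
    (J : Ω → ℕ) : Prop where
  le : ∀ ω, J ω ≤ m
  det : ∀ ω ω', b ω = b ω' → τ ω = τ ω' → J ω = J ω'
  max : ∀ ω, ∀ k ≤ m, mass m p b τ (b ω) k (τ ω) * (2 : ℝ) ^ (ε * k) ≤
    mass m p b τ (b ω) (J ω) (τ ω) * (2 : ℝ) ^ (ε * J ω)

end Pool.Agent.H32.Dense
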