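import Pool.Agent.H36.Dense.Q2
import Pool.Agent.H70.Dense.Q3
import Pool.Agent.H32.Dense.ArithG
import Pool.Agent.H32.Dense.Fam

/-!
# The general step
-/

set_option autoImplicit false

namespace Pool.Agent.H32.Dense

open Finset Real
open Pool.Agent.H49.Ent

theorem step_gen {d : ℕ} {a lam B : ℝ} (hA : AKD d a lam B) (ha : 1 ≤ a) (ha2 : a ≤ 2)
    (hl : 0 ≤ lam) : ∃ B₀ B₁, 0 ≤ B₁ ∧ AKG d ((3 * a ^ 2 + 2 * a - 2) / (a ^ 2 + 3 * a - 2))
      ((4 * a ^ 2 + 5 * a - 4 + (3 * a - 1) * lam) / (a ^ 2 + 3 * a - 2)) B₀ B₁ := by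
  have hd : (0 : ℝ) ≤ d := Nat.cast_nonneg d
  refine ⟨1000 * (1 + d + lam) + 10 * |B|, 1000 * (1 + d + lam), by positivity, ?_⟩
  intro M Ω _ ζ p Z v u τ h
  have hc := pP_cfg h
  have hC := pC_cfg h
  have h6 := hc.III hA (by linarith) hl
  have h10 := hC.I hA (by linarith) hl
  exact arithG ha ha2 hd hl (Gf_nonneg h) (Df_nonneg h) (Df_le h) hc.h_lower hc.kap_le hc.eta_ge
    hc.ab_le (ab_le_m h) h6 hC.h_lower hC.kap_le hC.eta_ge h10 hC.II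

end Pool.Agent.H32.Dense
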