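import Pool.Agent.H32.Dense.Loc
import Pool.Agent.H32.Dense.Step
import Pool.Agent.H32.Dense.Zero
import Pool.Agent.H53.Dense.Akg

/-!
# The inequality for tubes in dimension at least twelve
-/

set_option autoImplicit false

namespace Pool.Agent.H32.Dense

open Pool.Agent.H53.Kak

/-- The entropy inequality for all exponents above the root of `α³ = 4α - 2`. -/
theorem akg_all {d : ℕ} (hd : 11 ≤ d) {α : ℝ} (h1 : 1 < α) (hα : α ^ 3 = 4 * α - 2) {x : ℝ}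
    (hx : α < x) : ∃ a lam B₀ B₁ : ℝ, α < a ∧ a < x ∧ 0 ≤ lam ∧ lam ≤ d ∧ 0 ≤ B₁ ∧
      AKG d a lam B₀ B₁ :=
  Pool.Agent.H53.Dns.akg_iter hd h1 hα (level0G d)
    (fun _ _ _ _ h ha hl hB _ hε => akd_of_akg h ha hl hB hε)
    (fun _ _ _ h ha ha2 hl => step_gen h ha ha2 hl) hx

theorem lossless {d : ℕ} (hd : 11 ≤ d) {α : ℝ} (h1 : 1 < α) (hα : α ^ 3 = 4 * α - 2)
    {q : ℝ} (hq : 1 + α / d < q) : ∃ C : ℝ, Loss d q 0 C :=
  Pool.Agent.H53.Dns.lossless_iter hd h1 hα (level0G d)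
    (fun _ _ _ _ h ha hl hB _ hε => akd_of_akg h ha hl hB hε)
    (fun _ _ _ h ha ha2 hl => step_gen h ha ha2 hl) hq

end Pool.Agent.H32.Dense
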