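import Pool.Agent.H32.Dense.LocDefs

/-!
# The stopping depth and the entropy of the dyadic interval
-/

set_option autoImplicit false

namespace Pool.Agent.H32.Dense

open Finset Real
open Pool.Agent.H49.Ent

variable {Ω β : Type} [Fintype Ω] {m : ℕ} {ε : ℝ} {p : Ω → ℝ} {b : Ω → β} {τ : Ω → ℤ} {J : Ω → ℕ}

theorem exists_stop (m : ℕ) (ε : ℝ) (p : Ω → ℝ) (b : Ω → β) (τ : Ω → ℤ) :
    ∃ J : Ω → ℕ, Stop m ε p b τ J := by
  classical
  have key : ∀ (z : β) (y : ℤ), ∃ j ∈ Finset.range (m + 1), ∀ k ∈ Finset.range (m + 1),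
      mass m p b τ z k y * (2 : ℝ) ^ (ε * k) ≤ mass m p b τ z j y * (2 : ℝ) ^ (ε * j) :=
    fun z y => Finset.exists_max_image (Finset.range (m + 1))
      (fun k : ℕ => mass m p b τ z k y * (2 : ℝ) ^ (ε * k)) ⟨0, by simp⟩
  choose f hf1 hf2 using key
  refine ⟨fun ω => f (b ω) (τ ω), ?_, ?_, ?_⟩
  · intro ω
    have := hf1 (b ω) (τ ω)
    rw [Finset.mem_range] at this
    omega
  · intro ω ω' e1 e2
    simp only [e1, e2]
  · intro ω k hk
    exact hf2 (b ω) (τ ω) k (by rw [Finset.mem_range]; omega)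

lemma mass_nonneg (hp : ∀ ω, 0 ≤ p ω) (z : β) (k : ℕ) (y : ℤ) : 0 ≤ mass m p b τ z k y :=
  div_nonneg (law_nonneg hp _ _) (law_nonneg hp _ _)

lemma mass_pos (hp : ∀ ω, 0 ≤ p ω) {ω : Ω} (hω : 0 < p ω) (k : ℕ) :
    0 < mass m p b τ (b ω) k (τ ω) := by
  refine div_pos ?_ (law_pos hp b hω)
  exact law_pos hp (fun ω => (b ω, τ ω / 2 ^ (m - k))) hω

/-- The interval of depth `0` has mass one. -/
lemma mass_zero (hp : ∀ ω, 0 ≤ p ω) (hτ : ∀ ω, 0 < p ω → 0 ≤ τ ω ∧ τ ω < 2 ^ m) {ω : Ω}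
    (hω : 0 < p ω) : mass m p b τ (b ω) 0 (τ ω) = 1 := by
  classical
  unfold mass
  have h0 : ∀ ω, 0 < p ω → τ ω / 2 ^ (m - 0) = 0 := by
    intro ω hω
    obtain ⟨i1, i2⟩ := hτ ω hω
    exact Int.ediv_eq_zero_of_lt i1 (by simpa using i2)
  have : law p (fun ω => (b ω, τ ω / 2 ^ (m - 0))) (b ω, τ ω / 2 ^ (m - 0)) = law p b (b ω) := by
    unfold law
    refine Finset.sum_congr rfl fun ω' _ => ?_
    rcases (hp ω').eq_or_lt with h1 | h1
    · simp [← h1]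
    · simp only [h0 ω hω, h0 ω' h1, Prod.mk.injEq, and_true]
  rw [this, div_self (law_pos hp b hω).ne']

theorem stop_mass (hε : 0 < ε) (hp : ∀ ω, 0 ≤ p ω) (_h1 : ∑ ω, p ω = 1)
    (hτ : ∀ ω, 0 < p ω → 0 ≤ τ ω ∧ τ ω < 2 ^ m) (h : Stop m ε p b τ J) :
    Ex p (fun ω => -Real.log (mass m p b τ (b ω) (J ω) (τ ω))) ≤
      ε * Ex p (fun ω => (J ω : ℝ)) := by
  rw [← Ex_smul]
  refine Ex_mono hp fun ω hω => ?_
  have h1 := h.max ω 0 (Nat.zero_le _)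
  rw [mass_zero hp hτ hω] at h1
  simp only [Nat.cast_zero, mul_zero, Real.rpow_zero, mul_one] at h1
  have hm := mass_pos (m := m) (b := b) (τ := τ) hp hω (J ω)
  have h2 := Real.log_le_log one_pos h1
  rw [Real.log_one, Real.log_mul hm.ne' (by positivity), Real.log_rpow (by norm_num)] at h2
  have h3 : ε * (J ω : ℝ) * Real.log 2 ≤ ε * (J ω : ℝ) * 1 := by
    have := log_two_le_one
    gcongr
  linarith

lemma exp_neg_lt {x : ℝ} (hx : 0 < x) : Real.exp (-x) < 1 := by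
  rw [← Real.exp_zero]
  exact Real.exp_lt_exp.mpr (by linarith)

/-- The weights. -/
lemma wt_sum {ε₁ : ℝ} (hε₁ : 0 < ε₁) (n : ℕ) :
    ∑ k ∈ Finset.range n, (1 - Real.exp (-ε₁)) * Real.exp (-ε₁) ^ k ≤ 1 := by
  have h1 : Real.exp (-ε₁) < 1 := exp_neg_lt hε₁
  have h0 := Real.exp_pos (-ε₁)
  rw [← Finset.mul_sum, geom_sum_eq h1.ne, ← neg_div_neg_eq, neg_sub, neg_sub]
  have h2 : 0 < 1 - Real.exp (-ε₁) := by linarith
  rw [mul_div_cancel₀ _ h2.ne']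
  have : 0 ≤ Real.exp (-ε₁) ^ n := by positivity
  linarith

lemma neg_log_wt {ε₁ : ℝ} (hε₁ : 0 < ε₁) (k : ℕ) :
    -Real.log ((1 - Real.exp (-ε₁)) * Real.exp (-ε₁) ^ k) =
      ε₁ * k - Real.log (1 - Real.exp (-ε₁)) := by
  have h1 : Real.exp (-ε₁) < 1 := exp_neg_lt hε₁
  rw [Real.log_mul (by linarith) (by positivity), Real.log_pow, Real.log_exp]
  ring

/-- Cross entropy with a weight for the depth. -/
theorem pair_cross {γ : Type} (W : Ω → γ) (I : Ω → ℤ) (r : γ → ℕ → ℤ → ℝ) {ε₁ : ℝ} (hε₁ : 0 < ε₁)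
    (hp : ∀ ω, 0 ≤ p ω) (h1 : ∑ ω, p ω = 1) (hJ : ∀ ω, J ω ≤ m) (hr0 : ∀ z k i, 0 ≤ r z k i)
    (hr : ∀ ω, 0 < p ω → 0 < r (W ω) (J ω) (I ω))
    (hs : ∀ ω, 0 < p ω → ∀ k ≤ m, ∀ F : Finset ℤ, ∑ i ∈ F, r (W ω) k i ≤ 1) :
    CH p (fun ω => (J ω, I ω)) W ≤ Ex p (fun ω => -Real.log (r (W ω) (J ω) (I ω))) +
      ε₁ * Ex p (fun ω => (J ω : ℝ)) - Real.log (1 - Real.exp (-ε₁)) := by
  classical
  have he1 : Real.exp (-ε₁) < 1 := exp_neg_lt hε₁
  have he0 := Real.exp_pos (-ε₁)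
  have hw0 : ∀ k : ℕ, 0 < (1 - Real.exp (-ε₁)) * Real.exp (-ε₁) ^ k := fun k =>
    mul_pos (by linarith) (by positivity)
  have hc := CH_le_cross hp h1 (fun ω => (J ω, I ω)) W
    (fun z x => if x.1 ≤ m then ((1 - Real.exp (-ε₁)) * Real.exp (-ε₁) ^ x.1) * r z x.1 x.2 else 0)
    (by
      intro ω hω
      have : (if J ω ≤ m then ((1 - Real.exp (-ε₁)) * Real.exp (-ε₁) ^ J ω) *
        r (W ω) (J ω) (I ω) else 0) = ((1 - Real.exp (-ε₁)) * Real.exp (-ε₁) ^ J ω) *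
        r (W ω) (J ω) (I ω) := if_pos (hJ ω)
      rw [this]
      exact mul_pos (hw0 _) (hr ω hω))
    (by
      intro z x
      split_ifs
      · exact mul_nonneg (hw0 _).le (hr0 _ _ _)
      · exact le_rfl)
    (by
      intro ω hω F
      have hF : F ⊆ (F.image Prod.fst) ×ˢ (F.image Prod.snd) := fun x hx =>
        Finset.mem_product.mpr ⟨Finset.mem_image_of_mem _ hx, Finset.mem_image_of_mem _ hx⟩
      refine (Finset.sum_le_sum_of_subset_of_nonneg hF (fun x _ _ => ?_)).trans ?_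
      · split_ifs
        · exact mul_nonneg (hw0 _).le (hr0 _ _ _)
        · exact le_rfl
      rw [Finset.sum_product]
      have hin : ∀ k ∈ F.image Prod.fst, ∑ y ∈ F.image Prod.snd,
          (if k ≤ m then ((1 - Real.exp (-ε₁)) * Real.exp (-ε₁) ^ k) * r (W ω) k y else 0) ≤
          if k ≤ m then (1 - Real.exp (-ε₁)) * Real.exp (-ε₁) ^ k else 0 := by
        intro k _
        by_cases hk : k ≤ m
        · simp only [hk, if_true]
          rw [← Finset.mul_sum]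
          calc _ ≤ ((1 - Real.exp (-ε₁)) * Real.exp (-ε₁) ^ k) * 1 :=
                mul_le_mul_of_nonneg_left (hs ω hω k hk _) (hw0 k).le
            _ = _ := mul_one _
        · simp [hk]
      refine (Finset.sum_le_sum hin).trans ?_
      rw [← Finset.sum_filter]
      refine (Finset.sum_le_sum_of_subset_of_nonneg (t := Finset.range (m + 1)) ?_
        (fun k _ _ => (hw0 k).le)).trans (wt_sum hε₁ (m + 1))
      intro k hk
      rw [Finset.mem_filter] at hk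
      rw [Finset.mem_range]
      omega)
  refine hc.trans ?_
  have e1 : Ex p (fun ω => -Real.log (r (W ω) (J ω) (I ω))) +
      ε₁ * Ex p (fun ω => (J ω : ℝ)) - Real.log (1 - Real.exp (-ε₁)) =
      Ex p (fun ω => (-Real.log (r (W ω) (J ω) (I ω)) + ε₁ * (J ω : ℝ)) -
        Real.log (1 - Real.exp (-ε₁))) := by
    rw [Ex_sub, Ex_add, Ex_smul, Ex_const h1]
  rw [e1]
  refine Ex_mono hp fun ω hω => ?_
  have : (if J ω ≤ m then ((1 - Real.exp (-ε₁)) * Real.exp (-ε₁) ^ J ω) *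
    r (W ω) (J ω) (I ω) else 0) = ((1 - Real.exp (-ε₁)) * Real.exp (-ε₁) ^ J ω) *
    r (W ω) (J ω) (I ω) := if_pos (hJ ω)
  show -Real.log (if J ω ≤ m then ((1 - Real.exp (-ε₁)) * Real.exp (-ε₁) ^ J ω) *
    r (W ω) (J ω) (I ω) else 0) ≤ _
  rw [this, Real.log_mul (hw0 _).ne' (hr ω hω).ne']
  have h3 := neg_log_wt hε₁ (J ω)
  linarith

theorem stop_entropy {ε₁ : ℝ} (hε₁ : 0 < ε₁) (hp : ∀ ω, 0 ≤ p ω) (h1 : ∑ ω, p ω = 1)
    (_hτ : ∀ ω, 0 < p ω → 0 ≤ τ ω ∧ τ ω < 2 ^ m) (h : Stop m ε p b τ J) :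
    CH p (fun ω => (J ω, τ ω / 2 ^ (m - J ω))) b ≤
      Ex p (fun ω => -Real.log (mass m p b τ (b ω) (J ω) (τ ω))) +
        ε₁ * Ex p (fun ω => (J ω : ℝ)) - Real.log (1 - Real.exp (-ε₁)) := by
  classical
  refine pair_cross (p := p) (J := J) (m := m) b (fun ω => τ ω / 2 ^ (m - J ω))
    (fun z k i => law p (fun ω => (b ω, τ ω / 2 ^ (m - k))) (z, i) / law p b z) hε₁ hp h1 h.le
    (fun z k i => div_nonneg (law_nonneg hp _ _) (law_nonneg hp _ _))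
    (fun ω hω => mass_pos (m := m) (b := b) (τ := τ) hp hω (J ω)) ?_
  intro ω hω k hk F
  have hlb := law_pos hp b hω
  rw [← Finset.sum_div, div_le_one hlb]
  unfold law
  rw [Finset.sum_comm]
  refine Finset.sum_le_sum fun ω' _ => ?_
  by_cases hb : b ω' = b ω
  · rw [if_pos hb]
    refine le_trans (le_of_eq (Finset.sum_congr rfl fun y _ => ?_))
      (?_ : ∑ y ∈ F, (if τ ω' / 2 ^ (m - k) = y then p ω' else 0) ≤ p ω')
    · simp only [Prod.mk.injEq, hb, true_and]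
    · rw [Finset.sum_ite_eq]
      split_ifs
      · exact le_rfl
      · exact hp ω'
  · rw [if_neg hb]
    refine le_of_eq (Finset.sum_eq_zero fun y _ => ?_)
    rw [if_neg]
    intro hh
    exact hb (Prod.ext_iff.mp hh).1

theorem code_entropy {γ : Type} (W : Ω → γ) {ε₁ : ℝ} (hε₁ : 0 < ε₁) (hp : ∀ ω, 0 ≤ p ω)
    (h1 : ∑ ω, p ω = 1) (hτ : ∀ ω, 0 < p ω → 0 ≤ τ ω ∧ τ ω < 2 ^ m) (hJ : ∀ ω, J ω ≤ m) :
    CH p (fun ω => (J ω, τ ω / 2 ^ (m - J ω))) W ≤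
      (Real.log 2 + ε₁) * Ex p (fun ω => (J ω : ℝ)) - Real.log (1 - Real.exp (-ε₁)) := by
  classical
  have hrange : ∀ ω, 0 < p ω → 0 ≤ τ ω / 2 ^ (m - J ω) ∧ τ ω / 2 ^ (m - J ω) < 2 ^ J ω := by
    intro ω hω
    obtain ⟨i1, i2⟩ := hτ ω hω
    have h2 : (0 : ℤ) < 2 ^ (m - J ω) := by positivity
    refine ⟨Int.ediv_nonneg i1 h2.le, ?_⟩
    rw [Int.ediv_lt_iff_lt_mul h2, ← pow_add, Nat.add_sub_of_le (hJ ω)]
    exact i2
  have h := pair_cross (p := p) (J := J) (m := m) W (fun ω => τ ω / 2 ^ (m - J ω))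
    (fun _ k i => if 0 ≤ i ∧ i < 2 ^ k then ((2 : ℝ) ^ k)⁻¹ else 0) hε₁ hp h1 hJ
    (fun z k i => by split_ifs <;> positivity)
    (fun ω hω => by
      have := hrange ω hω
      rw [if_pos this]
      positivity) (by
      intro ω _ k _ F
      rw [← Finset.sum_filter, Finset.sum_const, nsmul_eq_mul, ← div_eq_mul_inv,
        div_le_one (by positivity)]
      have hc : (F.filter fun i => 0 ≤ i ∧ i < 2 ^ k).card ≤ (Finset.Ico (0 : ℤ) (2 ^ k)).card := by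
        refine Finset.card_le_card fun i hi => ?_
        rw [Finset.mem_filter] at hi
        exact Finset.mem_Ico.mpr hi.2
      have hc2 : (Finset.Ico (0 : ℤ) (2 ^ k)).card = 2 ^ k := by
        rw [Int.card_Ico, sub_zero]
        have : ((2 : ℤ) ^ k) = ((2 ^ k : ℕ) : ℤ) := by push_cast; rfl
        rw [this, Int.toNat_natCast]
      rw [hc2] at hc
      exact_mod_cast hc)
  refine h.trans ?_
  have e1 : Ex p (fun ω => -Real.log (if 0 ≤ τ ω / 2 ^ (m - J ω) ∧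
      τ ω / 2 ^ (m - J ω) < 2 ^ J ω then ((2 : ℝ) ^ J ω)⁻¹ else 0)) ≤
      Real.log 2 * Ex p (fun ω => (J ω : ℝ)) := by
    rw [← Ex_smul]
    refine Ex_mono hp fun ω hω => ?_
    rw [if_pos (hrange ω hω), Real.log_inv, neg_neg, Real.log_pow]
    linarith
  have e2 : (Real.log 2 + ε₁) * Ex p (fun ω => (J ω : ℝ)) =
      Real.log 2 * Ex p (fun ω => (J ω : ℝ)) + ε₁ * Ex p (fun ω => (J ω : ℝ)) := by ring
  rw [e2]
  linarith

end Pool.Agent.H32.Dense
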